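import Mathlib
open Filter Topology Polynomial
open scoped ComplexConjugate

namespace Pool.Agent.Lib_helper12.ExpPoly

/-- Formal exponential polynomials: finite sums of `c * exp (s m) * m ^ d`. -/
abbrev E : Type := AddMonoidAlgebra ℂ (ℝ × ℕ)

/-- The monomial function `exp (s m) * m ^ d`. -/
noncomputable def mono (p : ℝ × ℕ) (m : ℕ) : ℂ := (Real.exp (p.1 * m) : ℂ) * (m : ℂ) ^ p.2

theorem mono_zero (m : ℕ) : mono 0 m = 1 := by simp [mono]

theorem mono_add (p q : ℝ × ℕ) (m : ℕ) : mono (p + q) m = mono p m * mono q m := by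
  simp only [mono, Prod.fst_add, Prod.snd_add, add_mul, Real.exp_add, pow_add]
  push_cast
  ring

theorem mono_ne_zero (p : ℝ × ℕ) {m : ℕ} (hm : m ≠ 0) : mono p m ≠ 0 := by
  unfold mono
  have : (Real.exp (p.1 * m) : ℂ) ≠ 0 := by exact_mod_cast (Real.exp_pos _).ne'
  have h2 : (m : ℂ) ≠ 0 := by exact_mod_cast hm
  positivity

/-- Evaluation of a formal exponential polynomial at `m`. -/
noncomputable def ev (m : ℕ) : E →ₐ[ℂ] ℂ :=
  AddMonoidAlgebra.lift ℂ ℂ (ℝ × ℕ)
    { toFun := fun p => mono p.toAdd m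
      map_one' := mono_zero m
      map_mul' := fun _ _ => mono_add _ _ m }

theorem ev_apply (m : ℕ) (f : E) : ev m f = f.coeff.sum fun p c => c * mono p m := by
  rw [ev, AddMonoidAlgebra.lift_apply]
  rfl

theorem ev_single (m : ℕ) (p : ℝ × ℕ) (c : ℂ) :
    ev m (AddMonoidAlgebra.single p c) = c * mono p m := by
  rw [ev_apply, AddMonoidAlgebra.coeff_single]
  exact Finsupp.sum_single_index (by simp)

theorem tendsto_mono_div (p q : ℝ × ℕ) (h : p.1 < q.1 ∨ (p.1 = q.1 ∧ p.2 < q.2)) :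
    Tendsto (fun m : ℕ => mono p m / mono q m) atTop (𝓝 0) := by
  rcases h with h | ⟨h1, h2⟩
  · have hr : |Real.exp (p.1 - q.1)| < 1 := by
      rw [abs_of_pos (Real.exp_pos _), Real.exp_lt_one_iff]
      linarith
    have key := tendsto_pow_const_mul_const_pow_of_abs_lt_one p.2 hr
    refine squeeze_zero_norm' ?_ key
    filter_upwards [eventually_ge_atTop 1] with m hm
    have hm' : (1 : ℝ) ≤ m := by exact_mod_cast hm
    have hq : (1 : ℝ) ≤ (m : ℝ) ^ q.2 := one_le_pow₀ hm'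
    have e1 : ‖mono p m / mono q m‖ = Real.exp (p.1 * m) * m ^ p.2 / (Real.exp (q.1 * m) * m ^ q.2) := by
      unfold mono
      rw [norm_div, norm_mul, norm_mul, norm_pow, norm_pow, Complex.norm_natCast]
      simp only [Complex.norm_real, Real.norm_eq_abs, abs_of_pos (Real.exp_pos _)]
    rw [e1]
    have e2 : Real.exp (p.1 - q.1) ^ m = Real.exp (p.1 * m) / Real.exp (q.1 * m) := by
      rw [← Real.exp_nat_mul, ← Real.exp_sub]; congr 1; ring
    rw [e2]
    have hpos : 0 < Real.exp (q.1 * m) := Real.exp_pos _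
    have hpos' : 0 < Real.exp (p.1 * m) := Real.exp_pos _
    rw [div_le_iff₀ (by positivity)]
    have : (m:ℝ) ^ p.2 * (Real.exp (p.1 * m) / Real.exp (q.1 * m)) * (Real.exp (q.1 * m) * m ^ q.2)
        = Real.exp (p.1 * m) * m ^ p.2 * m ^ q.2 := by
      field_simp
    rw [this]
    exact le_mul_of_one_le_right (by positivity) hq
  · have key : Tendsto (fun m : ℕ => ((m : ℂ) ^ (q.2 - p.2))⁻¹) atTop (𝓝 0) := by
      have h3 : q.2 - p.2 ≠ 0 := by omega
      have : Tendsto (fun m : ℕ => ((m : ℂ))⁻¹ ^ (q.2 - p.2)) atTop (𝓝 (0 ^ (q.2 - p.2))) :=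
        (tendsto_inv_atTop_nhds_zero_nat (𝕜 := ℂ)).pow _
      simpa [zero_pow h3, inv_pow] using this
    refine key.congr' ?_
    filter_upwards [eventually_ge_atTop 1] with m hm
    have hm' : (m : ℂ) ≠ 0 := by exact_mod_cast (by omega : m ≠ 0)
    have he : (Real.exp (q.1 * m) : ℂ) ≠ 0 := by exact_mod_cast (Real.exp_pos _).ne'
    unfold mono
    rw [h1]
    have : (m : ℂ) ^ q.2 = (m : ℂ) ^ (q.2 - p.2) * (m : ℂ) ^ p.2 := by
      rw [← pow_add]; congr 1; omega
    rw [this]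
    field_simp

/-- The growth lemma. -/
theorem tendsto_ev (f : E) (p0 : ℝ × ℕ) (h : ∀ p ∈ f.coeff.support, toLex p ≤ toLex p0) :
    Tendsto (fun m : ℕ => ev m f / mono p0 m) atTop (𝓝 (f.coeff p0)) := by
  have e : ∀ m : ℕ, ev m f / mono p0 m
      = ∑ p ∈ f.coeff.support, f.coeff p * (mono p m / mono p0 m) := by
    intro m
    rw [ev_apply, Finsupp.sum, Finset.sum_div]
    exact Finset.sum_congr rfl fun p _ => by rw [mul_div_assoc]
  have e2 : f.coeff p0 = ∑ p ∈ f.coeff.support, f.coeff p * (if p = p0 then 1 else 0) := by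
    simp only [mul_ite, mul_one, mul_zero, Finset.sum_ite_eq', Finsupp.mem_support_iff]
    split_ifs with h0
    · rfl
    · simpa using h0
  simp_rw [e]
  rw [e2]
  refine tendsto_finsetSum _ fun p hp => Tendsto.const_mul _ ?_
  by_cases hpp : p = p0
  · subst hpp
    simp only [if_true]
    refine tendsto_const_nhds.congr' ?_
    filter_upwards [eventually_ge_atTop 1] with m hm
    rw [div_self (mono_ne_zero p (by omega))]
  · simp only [if_neg hpp]
    apply tendsto_mono_div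
    have h1 := h p hp
    rcases (Prod.Lex.le_iff.mp h1) with h2 | ⟨h2, h3⟩
    · left; exact h2
    · right
      refine ⟨h2, lt_of_le_of_ne h3 fun h4 => hpp (Prod.ext h2 h4)⟩

/-- Algebraic dependence over a commutative ring, with coefficients in the ring. -/
theorem exists_relation {R : Type*} [CommRing R] [Nontrivial R] (A A' B : R[X]) (d : ℕ)
    (hd : 1 ≤ d) (hA : A.natDegree ≤ d) (hA' : A'.natDegree ≤ d) (hB : B.natDegree ≤ d) :
    ∃ q : Fin (2 * d + 1) × Fin (2 * d + 1) → R, q ≠ 0 ∧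
      ∑ ij, C (q ij) * (A ^ (ij.1 : ℕ) * A' ^ (ij.2 : ℕ) * B ^ (4 * d - ij.1 - ij.2)) = 0 := by
  classical
  set F : Fin (2 * d + 1) × Fin (2 * d + 1) → R[X] :=
    fun ij => A ^ (ij.1 : ℕ) * A' ^ (ij.2 : ℕ) * B ^ (4 * d - ij.1 - ij.2) with hF
  have hdeg : ∀ ij, (F ij).natDegree ≤ 4 * d * d := by
    intro ij
    have h1 : (ij.1 : ℕ) ≤ 2 * d := Nat.lt_succ_iff.mp ij.1.2
    have h2 : (ij.2 : ℕ) ≤ 2 * d := Nat.lt_succ_iff.mp ij.2.2
    calc (F ij).natDegree ≤ (A ^ (ij.1 : ℕ) * A' ^ (ij.2 : ℕ)).natDegree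
          + (B ^ (4 * d - ij.1 - ij.2)).natDegree := natDegree_mul_le
      _ ≤ (A ^ (ij.1 : ℕ)).natDegree + (A' ^ (ij.2 : ℕ)).natDegree
          + (B ^ (4 * d - ij.1 - ij.2)).natDegree := by gcongr; exact natDegree_mul_le
      _ ≤ ij.1 * d + ij.2 * d + (4 * d - ij.1 - ij.2) * d := by
          gcongr
          · exact natDegree_pow_le_of_le _ hA
          · exact natDegree_pow_le_of_le _ hA'
          · exact natDegree_pow_le_of_le _ hB
      _ = 4 * d * d := by
          rw [← add_mul, ← add_mul]; congr 1; omega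
  let φ : (Fin (2 * d + 1) × Fin (2 * d + 1) → R) →ₗ[R] (Fin (4 * d * d + 1) → R) :=
    { toFun := fun q b => (∑ ij, C (q ij) * F ij).coeff b
      map_add' := by
        intro q q'
        funext b
        simp [add_mul, Finset.sum_add_distrib]
      map_smul' := by
        intro r q
        funext b
        simp [Finset.mul_sum, mul_assoc, finsetSum_coeff] }
  have hninj : ¬ Function.Injective φ := by
    intro hinj
    have := card_le_of_injective R φ hinj
    simp only [Fintype.card_prod, Fintype.card_fin] at this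
    nlinarith
  obtain ⟨q, hq, hq0⟩ : ∃ q, φ q = 0 ∧ q ≠ 0 := by
    by_contra hcon
    push Not at hcon
    exact hninj ((injective_iff_map_eq_zero φ).mpr hcon)
  refine ⟨q, hq0, ?_⟩
  ext b
  by_cases hb : b < 4 * d * d + 1
  · have := congrFun hq ⟨b, hb⟩
    simpa [φ] using this
  · rw [finsetSum_coeff, coeff_zero]
    refine Finset.sum_eq_zero fun ij _ => ?_
    rw [coeff_C_mul]
    have : (F ij).coeff b = 0 := coeff_eq_zero_of_natDegree_lt (by have := hdeg ij; omega)
    rw [this, mul_zero]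

/-- Every cluster point of the sequence `U` at infinity lies on a fixed real algebraic curve, given
by a nonzero polynomial in `a` and its conjugate. -/
def AlgClusters (U : ℕ → ℂ) : Prop :=
  ∃ (K : ℕ) (l : ℕ → ℕ → ℂ), (∃ i < K, ∃ j < K, l i j ≠ 0) ∧
    ∀ (F : Ultrafilter ℕ) (a : ℂ), (F : Filter ℕ) ≤ atTop → Tendsto U F (𝓝 a) →
      ∑ i ∈ Finset.range K, ∑ j ∈ Finset.range K, l i j * (a ^ i * (conj a) ^ j) = 0

theorem algClusters_of_rank_one {ι : Type*} (J : Finset ι) (c : ι → ℂ) (p : ι → ℝ × ℕ)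
    (b : ι → ℤ) (w : ℂ) (hw : ‖w‖ = 1) :
    AlgClusters (fun m => ∑ i ∈ J, c i * mono (p i) m * (w ^ m) ^ (b i)) := by
  classical
  set U : ℕ → ℂ := fun m => ∑ i ∈ J, c i * mono (p i) m * (w ^ m) ^ (b i) with hU
  have hw0 : w ≠ 0 := by
    rintro rfl; simp at hw
  set D : ℕ := J.sup (fun i => (b i).natAbs) + 1 with hD
  have hbD : ∀ i ∈ J, (b i).natAbs ≤ D := fun i hi =>
    (Finset.le_sup (f := fun i => (b i).natAbs) hi).trans (Nat.le_succ _)
  set A : E[X] := ∑ i ∈ J, C (AddMonoidAlgebra.single (p i) (c i)) * X ^ (b i + D).toNat with hA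
  set A' : E[X] := ∑ i ∈ J, C (AddMonoidAlgebra.single (p i) (conj (c i))) *
    X ^ ((D : ℤ) - b i).toNat with hA'
  set B : E[X] := X ^ D with hB
  have dA : A.natDegree ≤ 2 * D := by
    refine natDegree_sum_le_of_forall_le _ _ fun i hi => ?_
    refine (natDegree_C_mul_X_pow_le _ _).trans ?_
    have := hbD i hi
    omega
  have dA' : A'.natDegree ≤ 2 * D := by
    refine natDegree_sum_le_of_forall_le _ _ fun i hi => ?_
    refine (natDegree_C_mul_X_pow_le _ _).trans ?_
    have := hbD i hi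
    omega
  have dB : B.natDegree ≤ 2 * D := (natDegree_X_pow_le D).trans (by omega)
  obtain ⟨q, hq0, hq⟩ := exists_relation A A' B (2 * D) (by omega) dA dA' dB
  -- evaluation
  let θ : ℕ → E[X] →+* ℂ := fun m => eval₂RingHom (ev m : E →+* ℂ) (w ^ m)
  have hwm : ∀ m : ℕ, w ^ m ≠ 0 := fun m => pow_ne_zero _ hw0
  have hconjw : ∀ m : ℕ, conj (w ^ m) = (w ^ m)⁻¹ := by
    intro m
    rw [Complex.inv_def, Complex.normSq_eq_norm_sq, norm_pow, hw]
    simp
  have θA : ∀ m, θ m A = U m * (w ^ m) ^ D := by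
    intro m
    simp only [hA, hU, θ, map_sum, coe_eval₂RingHom, eval₂_mul, eval₂_C, eval₂_X_pow,
      Finset.sum_mul]
    refine Finset.sum_congr rfl fun i hi => ?_
    have h1 : ((b i + D).toNat : ℤ) = b i + D := by have := hbD i hi; omega
    have h2 : (w ^ m) ^ (b i + D).toNat = (w ^ m) ^ (b i) * (w ^ m) ^ D := by
      rw [← zpow_natCast, h1, zpow_add₀ (hwm m), zpow_natCast]
    rw [h2]
    have h3 : (ev m : E →+* ℂ) (AddMonoidAlgebra.single (p i) (c i)) = c i * mono (p i) m :=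
      ev_single m (p i) (c i)
    rw [h3]
    ring
  have hmonoconj : ∀ (r : ℝ × ℕ) (m : ℕ), conj (mono r m) = mono r m := by
    intro r m
    simp [mono, Complex.conj_ofReal, -Complex.ofReal_exp]
  have θA' : ∀ m, θ m A' = conj (U m) * (w ^ m) ^ D := by
    intro m
    simp only [hA', hU, θ, map_sum, coe_eval₂RingHom, eval₂_C, eval₂_X_pow,
      Finset.sum_mul, map_mul, hmonoconj, map_zpow₀]
    refine Finset.sum_congr rfl fun i hi => ?_
    have h1 : (((D : ℤ) - b i).toNat : ℤ) = D - b i := by have := hbD i hi; omega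
    have h2 : (w ^ m) ^ ((D : ℤ) - b i).toNat = (conj (w ^ m)) ^ (b i) * (w ^ m) ^ D := by
      rw [← zpow_natCast, h1, sub_eq_neg_add, zpow_add₀ (hwm m), zpow_natCast, hconjw,
        inv_zpow', ]
    rw [h2]
    have h3 : (ev m : E →+* ℂ) (AddMonoidAlgebra.single (p i) (conj (c i)))
        = conj (c i) * mono (p i) m := ev_single m (p i) (conj (c i))
    rw [h3]
    ring
  have θB : ∀ m, θ m B = (w ^ m) ^ D := by
    intro m
    simp [hB, θ, eval₂_X_pow]
  have rel : ∀ m, ∑ ij, ev m (q ij) * ((U m) ^ (ij.1 : ℕ) * (conj (U m)) ^ (ij.2 : ℕ)) = 0 := by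
    intro m
    have h1 := congrArg (θ m) hq
    simp only [map_sum, map_mul, map_pow, θA, θA', θB, map_zero] at h1
    have h2 : ∀ ij : Fin (2 * (2 * D) + 1) × Fin (2 * (2 * D) + 1),
        θ m (C (q ij)) * ((U m * (w ^ m) ^ D) ^ (ij.1 : ℕ) * (conj (U m) * (w ^ m) ^ D) ^ (ij.2 : ℕ)
          * ((w ^ m) ^ D) ^ (4 * (2 * D) - ij.1 - ij.2))
        = ev m (q ij) * ((U m) ^ (ij.1 : ℕ) * (conj (U m)) ^ (ij.2 : ℕ)) *
          ((w ^ m) ^ D) ^ (4 * (2 * D)) := by
      intro ij
      have e1 : θ m (C (q ij)) = ev m (q ij) := by simp [θ]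
      have i1 : (ij.1 : ℕ) ≤ 2 * (2 * D) := Nat.lt_succ_iff.mp ij.1.2
      have i2 : (ij.2 : ℕ) ≤ 2 * (2 * D) := Nat.lt_succ_iff.mp ij.2.2
      have e2 : ((w ^ m) ^ D) ^ (4 * (2 * D)) = ((w ^ m) ^ D) ^ (ij.1 : ℕ) * ((w ^ m) ^ D) ^ (ij.2 : ℕ)
          * ((w ^ m) ^ D) ^ (4 * (2 * D) - ij.1 - ij.2) := by
        rw [← pow_add, ← pow_add]; congr 1; omega
      rw [e1, e2, mul_pow, mul_pow]
      ring
    simp_rw [h2] at h1
    rw [← Finset.sum_mul] at h1
    rcases mul_eq_zero.mp h1 with h3 | h3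
    · exact h3
    · exact absurd h3 (pow_ne_zero _ (pow_ne_zero _ (hwm m)))
  -- the dominating exponent
  set S : Finset (ℝ × ℕ) := Finset.univ.biUnion (fun ij => (q ij).coeff.support) with hS
  have hSne : S.Nonempty := by
    obtain ⟨ij, hij⟩ := Function.ne_iff.mp hq0
    have : (q ij).coeff ≠ 0 := by
      intro h
      exact hij (AddMonoidAlgebra.coeff_eq_zero.mp h)
    obtain ⟨r, hr⟩ := Finsupp.support_nonempty_iff.mpr this
    exact ⟨r, Finset.mem_biUnion.mpr ⟨ij, Finset.mem_univ _, hr⟩⟩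
  obtain ⟨p0, hp0, hmax⟩ := S.exists_max_image (fun r => toLex r) hSne
  obtain ⟨ij0, -, hij0⟩ := Finset.mem_biUnion.mp hp0
  have hlim : ∀ ij, Tendsto (fun m : ℕ => ev m (q ij) / mono p0 m) atTop (𝓝 ((q ij).coeff p0)) :=
    fun ij => tendsto_ev (q ij) p0 fun r hr =>
      hmax r (Finset.mem_biUnion.mpr ⟨ij, Finset.mem_univ _, hr⟩)
  have final : ∀ (F : Ultrafilter ℕ) (a : ℂ), (F : Filter ℕ) ≤ atTop → Tendsto U F (𝓝 a) →
      ∑ ij, (q ij).coeff p0 * (a ^ (ij.1 : ℕ) * (conj a) ^ (ij.2 : ℕ)) = 0 := by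
    intro F a hF hUa
    have hc : Tendsto (fun m => conj (U m)) F (𝓝 (conj a)) :=
      (Complex.continuous_conj.tendsto a).comp hUa
    have h1 : Tendsto (fun m => ∑ ij, (ev m (q ij) / mono p0 m) *
        ((U m) ^ (ij.1 : ℕ) * (conj (U m)) ^ (ij.2 : ℕ))) F
        (𝓝 (∑ ij, (q ij).coeff p0 * (a ^ (ij.1 : ℕ) * (conj a) ^ (ij.2 : ℕ)))) :=
      tendsto_finsetSum _ fun ij _ =>
        ((hlim ij).mono_left hF).mul ((hUa.pow _).mul (hc.pow _))
    have h2 : ∀ m, ∑ ij, (ev m (q ij) / mono p0 m) *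
        ((U m) ^ (ij.1 : ℕ) * (conj (U m)) ^ (ij.2 : ℕ)) = 0 := by
      intro m
      have := rel m
      calc _ = (∑ ij, ev m (q ij) * ((U m) ^ (ij.1 : ℕ) * (conj (U m)) ^ (ij.2 : ℕ)))
          / mono p0 m := by
            rw [Finset.sum_div]
            exact Finset.sum_congr rfl fun ij _ => by ring
        _ = 0 := by rw [this, zero_div]
    simp_rw [h2] at h1
    exact (tendsto_nhds_unique h1 tendsto_const_nhds)
  refine ⟨2 * (2 * D) + 1, fun i j => if h : i < 2 * (2 * D) + 1 ∧ j < 2 * (2 * D) + 1 then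
    (q (⟨i, h.1⟩, ⟨j, h.2⟩)).coeff p0 else 0, ⟨ij0.1, ij0.1.2, ij0.2, ij0.2.2, ?_⟩, ?_⟩
  · simp only [ij0.1.2, ij0.2.2, and_self, dite_true]
    exact Finsupp.mem_support_iff.mp hij0
  · intro F a hF hUa
    refine Eq.trans ?_ (final F a hF hUa)
    rw [← Finset.univ_product_univ, Finset.sum_product, Finset.sum_range]
    refine Finset.sum_congr rfl fun i _ => ?_
    rw [Finset.sum_range]
    refine Finset.sum_congr rfl fun j _ => ?_
    dsimp only
    rw [dif_pos ⟨i.2, j.2⟩]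

/-- If one exponential strictly dominates, there is no cluster point at all. -/
theorem algClusters_of_dominant (N : Finset ℂ) (R : ℂ → ℂ[X]) (v : ℂ) (hv : v ∈ N) (hv1 : 1 < ‖v‖)
    (hR : R v ≠ 0) (hdom : ∀ u ∈ N, u ≠ v → R u ≠ 0 → ‖u‖ < ‖v‖) :
    AlgClusters (fun m => ∑ u ∈ N, u ^ m * (R u).eval (m : ℂ)) := by
  classical
  have hv0 : v ≠ 0 := by rintro rfl; simp at hv1; linarith
  set U : ℕ → ℂ := fun m => ∑ u ∈ N, u ^ m * (R u).eval (m : ℂ) with hU
  -- the norm of `U` tends to infinity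
  have hrest : Tendsto (fun m : ℕ => ∑ u ∈ N.erase v, (u / v) ^ m * (R u).eval (m : ℂ)) atTop
      (𝓝 0) := by
    have : (0 : ℂ) = ∑ u ∈ N.erase v, (0 : ℂ) := by simp
    rw [this]
    refine tendsto_finsetSum _ fun u hu => ?_
    obtain ⟨hne, huN⟩ := Finset.mem_erase.mp hu
    by_cases hRu : R u = 0
    · simp [hRu]
    have hlt : |‖u / v‖| < 1 := by
      rw [norm_div, abs_of_nonneg (by positivity), div_lt_one (by linarith)]
      exact hdom u huN hne hRu
    have e : ∀ m : ℕ, (u / v) ^ m * (R u).eval (m : ℂ)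
        = ∑ i ∈ Finset.range ((R u).natDegree + 1), (R u).coeff i * ((m : ℂ) ^ i * (u / v) ^ m) := by
      intro m
      rw [eval_eq_sum_range, Finset.mul_sum]
      exact Finset.sum_congr rfl fun i _ => by ring
    simp_rw [e]
    have h0 : (0 : ℂ) = ∑ i ∈ Finset.range ((R u).natDegree + 1), (R u).coeff i * 0 := by simp
    rw [h0]
    refine tendsto_finsetSum _ fun i _ => Tendsto.const_mul _ ?_
    rw [tendsto_zero_iff_norm_tendsto_zero]
    have := tendsto_pow_const_mul_const_pow_of_abs_lt_one i hlt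
    refine this.congr fun m => ?_
    rw [norm_mul, norm_pow, norm_pow, Complex.norm_natCast]
  have hmain : ∃ δ > 0, ∀ᶠ m : ℕ in atTop, δ ≤ ‖(R v).eval (m : ℂ)‖ := by
    by_cases hdeg : 0 < (R v).degree
    · have h1 : Tendsto (fun m : ℕ => ‖(R v).eval (m : ℂ)‖) atTop atTop := by
        apply (R v).tendsto_norm_atTop hdeg
        simp only [Complex.norm_natCast]
        exact tendsto_natCast_atTop_atTop
      exact ⟨1, one_pos, h1.eventually_ge_atTop 1⟩
    · have h1 : R v = C ((R v).coeff 0) := eq_C_of_degree_le_zero (not_lt.mp hdeg)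
      have h2 : (R v).coeff 0 ≠ 0 := by
        intro h; rw [h] at h1; exact hR (by simpa using h1)
      refine ⟨‖(R v).coeff 0‖, norm_pos_iff.mpr h2, Eventually.of_forall fun m => ?_⟩
      rw [h1]; simp
  obtain ⟨δ, hδ, hev⟩ := hmain
  have hinf : Tendsto (fun m => ‖U m‖) atTop atTop := by
    have h1 : ∀ᶠ m : ℕ in atTop, (δ / 2) * ‖v‖ ^ m ≤ ‖U m‖ := by
      have h2 := (tendsto_zero_iff_norm_tendsto_zero.mp hrest).eventually
        (gt_mem_nhds (half_pos hδ))
      filter_upwards [hev, h2] with m hm1 hm2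
      have e : U m = v ^ m * ((R v).eval (m : ℂ)
          + ∑ u ∈ N.erase v, (u / v) ^ m * (R u).eval (m : ℂ)) := by
        rw [hU]
        dsimp only
        rw [← Finset.add_sum_erase N _ hv, mul_add, Finset.mul_sum]
        congr 1
        refine Finset.sum_congr rfl fun u _ => ?_
        rw [div_pow]
        field_simp
      rw [e, norm_mul, norm_pow, mul_comm]
      gcongr
      have h3 := norm_sub_norm_le ((R v).eval (m : ℂ))
        (-∑ u ∈ N.erase v, (u / v) ^ m * (R u).eval (m : ℂ))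
      rw [sub_neg_eq_add, norm_neg] at h3
      linarith
    refine tendsto_atTop_mono' _ h1 ?_
    exact (tendsto_pow_atTop_atTop_of_one_lt hv1).const_mul_atTop (half_pos hδ)
  refine ⟨1, fun _ _ => 1, ⟨0, one_pos, 0, one_pos, one_ne_zero⟩, fun F a hF hUa => ?_⟩
  exfalso
  have h1 : Tendsto (fun m => ‖U m‖) F (𝓝 ‖a‖) := hUa.norm
  have h2 : Tendsto (fun m => ‖U m‖) F atTop := hinf.mono_left hF
  exact not_tendsto_nhds_of_tendsto_atTop h2 _ h1

/-- Finitely many nonzero polynomials in `z, conj z`: some point far out in a suitable direction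
is such that none of them vanishes at distance at most `M` from it. -/
theorem exists_avoiding {κ : Type*} (Q : Finset κ) (K : κ → ℕ) (l : κ → ℕ → ℕ → ℂ)
    (hl : ∀ q ∈ Q, ∃ i < K q, ∃ j < K q, l q i j ≠ 0) (M : ℝ) :
    ∃ y : ℂ, ∀ q ∈ Q, ∀ b : ℂ, ‖b‖ ≤ M →
      ∑ i ∈ Finset.range (K q), ∑ j ∈ Finset.range (K q),
        l q i j * ((y - b) ^ i * (conj (y - b)) ^ j) ≠ 0 := by
  classical
  -- top degree
  have htop : ∀ q ∈ Q, ∃ n : ℕ, (∃ i < K q, ∃ j < K q, i + j = n ∧ l q i j ≠ 0) ∧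
      ∀ i < K q, ∀ j < K q, n < i + j → l q i j = 0 := by
    intro q hq
    set S := ((Finset.range (K q) ×ˢ Finset.range (K q)).filter (fun p => l q p.1 p.2 ≠ 0)) with hS
    have hne : S.Nonempty := by
      obtain ⟨i, hi, j, hj, h⟩ := hl q hq
      exact ⟨(i, j), by simp [hS, hi, hj, h]⟩
    obtain ⟨p, hp, hmax⟩ := S.exists_max_image (fun p => p.1 + p.2) hne
    simp only [hS, Finset.mem_filter, Finset.mem_product, Finset.mem_range] at hp
    refine ⟨p.1 + p.2, ⟨p.1, hp.1.1, p.2, hp.1.2, rfl, hp.2⟩, fun i hi j hj hij => ?_⟩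
    by_contra hne'
    have := hmax (i, j) (by simp [hS, hi, hj, hne'])
    simp only at this
    omega
  choose! n hn1 hn2 using htop
  -- a direction
  let P : κ → ℂ[X] := fun q => ∑ i ∈ Finset.range (K q),
    C (if n q - i < K q ∧ i ≤ n q then l q i (n q - i) else 0) * X ^ i
  have hP : ∀ q ∈ Q, P q ≠ 0 := by
    intro q hq h0
    obtain ⟨i, hi, j, hj, hij, hne⟩ := hn1 q hq
    have := congrArg (fun p => p.coeff i) h0
    simp only [P, finsetSum_coeff, coeff_C_mul, coeff_X_pow, mul_ite, mul_one, mul_zero,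
      Finset.sum_ite_eq, Finset.mem_range, hi, if_true, coeff_zero] at this
    rw [if_pos ⟨by omega, by omega⟩] at this
    have hj' : n q - i = j := by omega
    rw [hj'] at this
    exact hne this
  obtain ⟨u, hu1, hu⟩ : ∃ u : ℂ, ‖u‖ = 1 ∧ ∀ q ∈ Q, (P q).eval (u ^ 2) ≠ 0 := by
    by_contra hcon
    push Not at hcon
    set G : ℂ[X] := ∏ q ∈ Q, (P q).comp (X ^ 2) with hG
    have hG0 : G ≠ 0 := by
      rw [hG, Finset.prod_ne_zero_iff]
      intro q hq h0
      rw [comp_eq_zero_iff] at h0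
      rcases h0 with h0 | ⟨-, h0⟩
      · exact hP q hq h0
      · have := congrArg natDegree h0
        simp at this
    apply hG0
    apply eq_zero_of_infinite_isRoot
    have hcirc : (Metric.sphere (0 : ℂ) 1).Infinite := by
      have : (Set.range fun t : ℝ => ((Circle.exp t : Circle) : ℂ)) ⊆ Metric.sphere (0 : ℂ) 1 := by
        rintro _ ⟨t, rfl⟩
        simp
      refine Set.Infinite.mono this ?_
      have h2 : Set.InjOn (fun t : ℝ => ((Circle.exp t : Circle) : ℂ)) (Set.Icc 0 1) := by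
        intro s hs t ht hst
        have h3 : Circle.exp s = Circle.exp t := Subtype.ext hst
        have hpi : (1 : ℝ) - 0 < 2 * Real.pi := by have := Real.pi_gt_three; linarith
        exact Circle.exp_injOn_Icc hpi hs ht h3
      exact Set.Infinite.mono (Set.image_subset_range _ _)
        ((Set.Icc_infinite one_pos).image h2)
    refine Set.Infinite.mono ?_ hcirc
    intro u hu
    have hu' : ‖u‖ = 1 := by simpa using hu
    obtain ⟨q, hq, h⟩ := hcon u hu'
    show IsRoot G u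
    simp only [IsRoot.def, hG, eval_prod, eval_comp, eval_pow, eval_X]
    exact Finset.prod_eq_zero hq h
  have hu0 : u ≠ 0 := by rintro rfl; simp at hu1
  have hcu : conj u = u⁻¹ := by
    rw [Complex.inv_def, Complex.normSq_eq_norm_sq, hu1]; simp
  -- uniform limit
  let L : Filter (ℕ × ℂ) := atTop ×ˢ 𝓟 (Metric.closedBall (0 : ℂ) M)
  have hev1 : ∀ᶠ p : ℕ × ℂ in L, p.1 ≠ 0 ∧ ‖p.2‖ ≤ M := by
    rw [eventually_prod_principal_iff]
    filter_upwards [eventually_ge_atTop 1] with t ht b hb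
    exact ⟨by show t ≠ 0; omega, by simpa using hb⟩
  have hfst : Tendsto (fun p : ℕ × ℂ => (p.1 : ℕ)) L atTop := tendsto_fst
  have hv : Tendsto (fun p : ℕ × ℂ => ((p.1 : ℂ) * u - p.2) / p.1) L (𝓝 u) := by
    have h1 : Tendsto (fun p : ℕ × ℂ => p.2 / (p.1 : ℂ)) L (𝓝 0) := by
      have h2 : Tendsto (fun p : ℕ × ℂ => |M| / (p.1 : ℝ)) L (𝓝 0) :=
        (tendsto_const_div_atTop_nhds_zero_nat |M|).comp hfst
      refine squeeze_zero_norm' ?_ h2
      filter_upwards [hev1] with p hp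
      rw [norm_div, Complex.norm_natCast]
      gcongr
      exact hp.2.trans (le_abs_self M)
    have h3 : Tendsto (fun p : ℕ × ℂ => u - p.2 / (p.1 : ℂ)) L (𝓝 (u - 0)) :=
      tendsto_const_nhds.sub h1
    rw [sub_zero] at h3
    refine h3.congr' ?_
    filter_upwards [hev1] with p hp
    have : (p.1 : ℂ) ≠ 0 := by exact_mod_cast hp.1
    field_simp
  have hvc : Tendsto (fun p : ℕ × ℂ => conj (((p.1 : ℂ) * u - p.2) / p.1)) L (𝓝 (conj u)) :=
    (Complex.continuous_conj.tendsto u).comp hv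
  have hlim : ∀ q ∈ Q, Tendsto (fun p : ℕ × ℂ => (∑ i ∈ Finset.range (K q),
      ∑ j ∈ Finset.range (K q), l q i j * (((p.1 : ℂ) * u - p.2) ^ i *
        (conj ((p.1 : ℂ) * u - p.2)) ^ j)) / (p.1 : ℂ) ^ (n q)) L
      (𝓝 (∑ i ∈ Finset.range (K q), ∑ j ∈ Finset.range (K q),
        if i + j = n q then l q i j * (u ^ i * (conj u) ^ j) else 0)) := by
    intro q hq
    simp_rw [Finset.sum_div]
    refine tendsto_finsetSum _ fun i hi => tendsto_finsetSum _ fun j hj => ?_
    rw [Finset.mem_range] at hi hj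
    by_cases hz : l q i j = 0
    · simp only [hz, zero_mul, zero_div, ite_self]
      exact tendsto_const_nhds
    have hij : i + j ≤ n q := by
      by_contra hcon
      exact hz (hn2 q hq i hi j hj (by omega))
    have e : ∀ᶠ p : ℕ × ℂ in L, l q i j * ((((p.1 : ℂ) * u - p.2) / p.1) ^ i *
        (conj (((p.1 : ℂ) * u - p.2) / p.1)) ^ j) * ((p.1 : ℂ)⁻¹) ^ (n q - (i + j))
        = l q i j * (((p.1 : ℂ) * u - p.2) ^ i *
        (conj ((p.1 : ℂ) * u - p.2)) ^ j) / (p.1 : ℂ) ^ (n q) := by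
      filter_upwards [hev1] with p hp
      have hp0 : (p.1 : ℂ) ≠ 0 := by exact_mod_cast hp.1
      have e2 : (p.1 : ℂ) ^ (n q) = (p.1 : ℂ) ^ i * (p.1 : ℂ) ^ j * (p.1 : ℂ) ^ (n q - (i + j)) := by
        rw [← pow_add, ← pow_add]; congr 1; omega
      rw [map_div₀, Complex.conj_natCast, div_pow, div_pow, e2, inv_pow]
      field_simp
    refine Tendsto.congr' e ?_
    have hbase : Tendsto (fun p : ℕ × ℂ => l q i j * ((((p.1 : ℂ) * u - p.2) / p.1) ^ i *
        (conj (((p.1 : ℂ) * u - p.2) / p.1)) ^ j)) L (𝓝 (l q i j * (u ^ i * (conj u) ^ j))) :=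
      ((hv.pow i).mul (hvc.pow j)).const_mul _
    by_cases heq : i + j = n q
    · rw [if_pos heq]
      simpa [heq] using hbase
    · rw [if_neg heq]
      have h0 : Tendsto (fun p : ℕ × ℂ => ((p.1 : ℂ)⁻¹) ^ (n q - (i + j))) L (𝓝 0) := by
        have h1 : Tendsto (fun p : ℕ × ℂ => ((p.1 : ℂ)⁻¹)) L (𝓝 0) :=
          (tendsto_inv_atTop_nhds_zero_nat (𝕜 := ℂ)).comp hfst
        have h2 := h1.pow (n q - (i + j))
        rwa [zero_pow (by omega)] at h2
      simpa using hbase.mul h0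
  have hne : ∀ q ∈ Q, (∑ i ∈ Finset.range (K q), ∑ j ∈ Finset.range (K q),
        if i + j = n q then l q i j * (u ^ i * (conj u) ^ j) else 0) ≠ 0 := by
    intro q hq h0
    apply hu q hq
    have e : (P q).eval (u ^ 2) = u ^ (n q) * (∑ i ∈ Finset.range (K q),
        ∑ j ∈ Finset.range (K q), if i + j = n q then l q i j * (u ^ i * (conj u) ^ j) else 0) := by
      simp only [P, eval_finsetSum, eval_mul, eval_C, eval_pow, eval_X, Finset.mul_sum]
      refine Finset.sum_congr rfl fun i _ => ?_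
      split_ifs with h
      · rw [Finset.sum_eq_single (n q - i)]
        · rw [if_pos (by omega), hcu]
          have e3 : u ^ n q = u ^ i * u ^ (n q - i) := by rw [← pow_add]; congr 1; omega
          rw [e3, inv_pow]
          have := pow_ne_zero (n q - i) hu0
          field_simp
          ring
        · intro j _ hj
          rw [if_neg (by omega), mul_zero]
        · intro h'
          exact absurd (Finset.mem_range.mpr h.1) h'
      · rw [zero_mul]
        symm
        refine Finset.sum_eq_zero fun j hj => ?_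
        rw [Finset.mem_range] at hj
        rw [if_neg (by omega), mul_zero]
    rw [e, h0, mul_zero]
  have hall : ∀ᶠ p : ℕ × ℂ in L, ∀ q ∈ Q, (∑ i ∈ Finset.range (K q),
      ∑ j ∈ Finset.range (K q), l q i j * (((p.1 : ℂ) * u - p.2) ^ i *
        (conj ((p.1 : ℂ) * u - p.2)) ^ j)) ≠ 0 := by
    rw [Filter.eventually_all_finset]
    intro q hq
    filter_upwards [(hlim q hq).eventually_ne (hne q hq)] with p hp h0
    apply hp
    rw [h0, zero_div]
  rw [eventually_prod_principal_iff] at hall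
  obtain ⟨t, ht⟩ := hall.exists
  exact ⟨(t : ℂ) * u, fun q hq b hb => ht b (by simpa using hb) q hq⟩

end Pool.Agent.Lib_helper12.ExpPoly
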