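import Mathlib

/-!
# Locally constant functional calculus for endomorphisms of complete algebras

`funcal T c` is the endomorphism of a finite dimensional complex space acting by `c γ` on the
maximal generalized eigenspace of `T` for `γ`.
-/

namespace Pool.Agent.Lib_helper12.FunCalc

open Module Module.End

section FinDim

variable {V : Type*} [AddCommGroup V] [Module ℂ V] [FiniteDimensional ℂ V]
variable {V' : Type*} [AddCommGroup V'] [Module ℂ V'] [FiniteDimensional ℂ V']

theorem internal (T : End ℂ V) [DecidableEq ℂ] :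
    DirectSum.IsInternal (fun γ : ℂ => T.maxGenEigenspace γ) :=
  DirectSum.isInternal_submodule_of_iSupIndep_of_iSup_eq_top
    T.independent_maxGenEigenspace (Module.End.iSup_maxGenEigenspace_eq_top T)

open Classical in
/-- `c(T)` -/
noncomputable def funcal (T : End ℂ V) (c : ℂ → ℂ) : End ℂ V :=
  (DirectSum.toModule ℂ ℂ V (fun γ => c γ • (T.maxGenEigenspace γ).subtype)) ∘ₗ
    (LinearEquiv.ofBijective (DirectSum.coeLinearMap (fun γ : ℂ => T.maxGenEigenspace γ))
      (internal T)).symm.toLinearMap

theorem funcal_apply (T : End ℂ V) (c : ℂ → ℂ) (γ : ℂ) (v : V) (hv : v ∈ T.maxGenEigenspace γ) :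
    funcal T c v = c γ • v := by
  classical
  unfold funcal
  have h1 : (LinearEquiv.ofBijective
      (DirectSum.coeLinearMap (fun γ : ℂ => T.maxGenEigenspace γ)) (internal T)).symm v =
      DirectSum.lof ℂ ℂ (fun γ : ℂ => T.maxGenEigenspace γ) γ ⟨v, hv⟩ := by
    rw [LinearEquiv.symm_apply_eq]
    exact (DirectSum.coeLinearMap_lof (fun γ : ℂ => T.maxGenEigenspace γ) γ ⟨v, hv⟩).symm
  rw [LinearMap.comp_apply]
  erw [h1]
  rw [DirectSum.toModule_lof]
  simp

theorem ext_gen (T : End ℂ V) {W : Type*} [AddCommGroup W] [Module ℂ W] (g1 g2 : V →ₗ[ℂ] W)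
    (h : ∀ γ, ∀ v ∈ T.maxGenEigenspace γ, g1 v = g2 v) : g1 = g2 := by
  have h1 : (⊤ : Submodule ℂ V) ≤ LinearMap.eqLocus g1 g2 := by
    rw [← Module.End.iSup_maxGenEigenspace_eq_top T]
    exact iSup_le fun γ v hv => h γ v hv
  ext v
  exact h1 (Submodule.mem_top : v ∈ ⊤)

/-- intertwining up to a scalar -/
theorem funcal_intertwine (T : End ℂ V) (T' : End ℂ V') (B : V →ₗ[ℂ] V') (μ ν : ℂ)
    (hB : ∀ v, T' (B v) = μ • B (T v)) (c : ℂ → ℂ) (hc : ∀ γ, c (μ * γ) = ν * c γ) (v : V) :
    funcal T' c (B v) = ν • B (funcal T c v) := by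
  have key : (funcal T' c).comp B = ν • (B.comp (funcal T c)) := by
    apply ext_gen T
    intro γ v hv
    rw [LinearMap.comp_apply, LinearMap.smul_apply, LinearMap.comp_apply, funcal_apply T c γ v hv,
      map_smul]
    have hBv : B v ∈ T'.maxGenEigenspace (μ * γ) := by
      rw [Module.End.mem_maxGenEigenspace] at hv ⊢
      obtain ⟨N, hN⟩ := hv
      refine ⟨N, ?_⟩
      have : ∀ (N : ℕ) (w : V), ((T' - (μ * γ) • (1 : End ℂ V')) ^ N) (B w) =
          μ ^ N • B (((T - γ • (1 : End ℂ V)) ^ N) w) := by
        intro N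
        induction N with
        | zero => intro w; simp
        | succ N ih =>
          intro w
          rw [pow_succ, Module.End.mul_apply]
          have e : (T' - (μ * γ) • (1 : End ℂ V')) (B w) = μ • B ((T - γ • (1 : End ℂ V)) w) := by
            simp only [LinearMap.sub_apply, LinearMap.smul_apply, Module.End.one_apply, map_sub,
              map_smul, smul_sub, hB, mul_smul]
          rw [e, map_smul, ih, pow_succ, pow_succ, Module.End.mul_apply, smul_smul, mul_comm μ]
      rw [this, hN, map_zero, smul_zero]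
    rw [funcal_apply T' c _ _ hBv, hc, mul_smul]
  exact LinearMap.congr_fun key v

theorem funcal_natural (T : End ℂ V) (T' : End ℂ V') (B : V →ₗ[ℂ] V')
    (hB : ∀ v, T' (B v) = B (T v)) (c : ℂ → ℂ) (v : V) :
    funcal T' c (B v) = B (funcal T c v) := by
  have := funcal_intertwine T T' B 1 1 (by simpa using hB) c (by simp) v
  simpa using this

theorem funcal_funcal (T : End ℂ V) (c c' : ℂ → ℂ) (v : V) :
    funcal T c (funcal T c' v) = funcal T (fun γ => c γ * c' γ) v := by
  have key : (funcal T c).comp (funcal T c') = funcal T (fun γ => c γ * c' γ) := by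
    apply ext_gen T
    intro γ v hv
    rw [LinearMap.comp_apply, funcal_apply T c' γ v hv, map_smul, funcal_apply T c γ v hv,
      funcal_apply T _ γ v hv, smul_smul, mul_comm]
  exact LinearMap.congr_fun key v

theorem funcal_smul (T : End ℂ V) (a : ℂ) (c : ℂ → ℂ) (v : V) :
    funcal T (fun γ => a * c γ) v = a • funcal T c v := by
  have key : funcal T (fun γ => a * c γ) = a • (funcal T c) := by
    apply ext_gen T
    intro γ v hv
    rw [LinearMap.smul_apply, funcal_apply T c γ v hv, funcal_apply T _ γ v hv, smul_smul]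
  exact LinearMap.congr_fun key v

/-- sum of the projections over a finite set containing all eigenvalues -/
theorem funcal_sum (T : End ℂ V) (Λ : Finset ℂ) (hΛ : ∀ γ, T.maxGenEigenspace γ ≠ ⊥ → γ ∈ Λ)
    (v : V) : ∑ μ ∈ Λ, funcal T (Pi.single μ 1) v = v := by
  classical
  have key : ∑ μ ∈ Λ, funcal T (Pi.single μ 1) = (LinearMap.id : V →ₗ[ℂ] V) := by
    apply ext_gen T
    intro γ v hv
    by_cases hγ : γ ∈ Λ
    · rw [LinearMap.sum_apply, Finset.sum_eq_single γ]
      · rw [funcal_apply T _ γ v hv]; simp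
      · intro b _ hb
        rw [funcal_apply T _ γ v hv, Pi.single_eq_of_ne (Ne.symm hb)]; simp
      · intro h; exact absurd hγ h
    · have : T.maxGenEigenspace γ = ⊥ := by
        by_contra hcon; exact hγ (hΛ γ hcon)
      rw [this, Submodule.mem_bot] at hv
      subst hv; simp
  have := LinearMap.congr_fun key v
  simpa using this

end FinDim

section Alg

variable {A : Type*} [CommRing A] [Algebra ℂ A] [FiniteDimensional ℂ A]

theorem gen_mul (T : A →ₐ[ℂ] A) (γ δ : ℂ) : ∀ (N : ℕ) (m l : ℕ), m + l ≤ N → ∀ (a b : A),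
    ((T.toLinearMap - γ • (1 : End ℂ A)) ^ m) a = 0 →
    ((T.toLinearMap - δ • (1 : End ℂ A)) ^ l) b = 0 →
    ((T.toLinearMap - (γ * δ) • (1 : End ℂ A)) ^ N) (a * b) = 0 := by
  intro N
  induction N with
  | zero =>
    intro m l hml a b ha hb
    have : m = 0 := by omega
    subst this
    have : l = 0 := by omega
    subst this
    simp at ha
    simp [ha]
  | succ N ih =>
    intro m l hml a b ha hb
    rcases Nat.eq_zero_or_pos m with hm | hm
    · subst hm
      simp at ha
      simp [ha]
    rcases Nat.eq_zero_or_pos l with hl | hl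
    · subst hl
      simp at hb
      simp [hb]
    have e : (T.toLinearMap - (γ * δ) • (1 : End ℂ A)) (a * b) =
        ((T.toLinearMap - γ • (1 : End ℂ A)) a) * (T b) +
          γ • (a * ((T.toLinearMap - δ • (1 : End ℂ A)) b)) := by
      simp only [LinearMap.sub_apply, AlgHom.toLinearMap_apply, LinearMap.smul_apply,
        Module.End.one_apply]
      rw [map_mul, sub_mul, mul_sub, smul_sub, mul_smul_comm, smul_mul_assoc, smul_smul]
      abel
    rw [pow_succ, Module.End.mul_apply, e, map_add, map_smul]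
    have h1 : ((T.toLinearMap - (γ * δ) • (1 : End ℂ A)) ^ N)
        (((T.toLinearMap - γ • (1 : End ℂ A)) a) * (T b)) = 0 := by
      apply ih (m - 1) l (by omega)
      · rw [← Module.End.mul_apply, ← pow_succ, Nat.sub_add_cancel hm, ha]
      · have hcomm : Commute (T.toLinearMap : End ℂ A)
            ((T.toLinearMap - δ • (1 : End ℂ A)) ^ l) := by
          apply Commute.pow_right
          apply Commute.sub_right (Commute.refl _)
          exact (Commute.one_right _).smul_right δ
        have := LinearMap.congr_fun hcomm.eq b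
        rw [Module.End.mul_apply, Module.End.mul_apply, hb, map_zero] at this
        exact this.symm
    have h2 : ((T.toLinearMap - (γ * δ) • (1 : End ℂ A)) ^ N)
        (a * ((T.toLinearMap - δ • (1 : End ℂ A)) b)) = 0 := by
      apply ih m (l - 1) (by omega)
      · exact ha
      · rw [← Module.End.mul_apply, ← pow_succ, Nat.sub_add_cancel hl, hb]
    rw [h1, h2, smul_zero, add_zero]

theorem funcal_mul (T : A →ₐ[ℂ] A) (c : ℂ → ℂ) (hc : ∀ x y, c (x * y) = c x * c y) (a b : A) :
    funcal T.toLinearMap c (a * b) = funcal T.toLinearMap c a * funcal T.toLinearMap c b := by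
  have h : (LinearMap.mul ℂ A).compr₂ (funcal T.toLinearMap c) =
      (LinearMap.mul ℂ A).compl₁₂ (funcal T.toLinearMap c) (funcal T.toLinearMap c) := by
    apply ext_gen T.toLinearMap
    intro γ a ha
    apply ext_gen T.toLinearMap
    intro δ b hb
    simp only [LinearMap.compr₂_apply, LinearMap.mul_apply', LinearMap.compl₁₂_apply]
    rw [funcal_apply _ c γ a ha, funcal_apply _ c δ b hb]
    have hab : a * b ∈ Module.End.maxGenEigenspace T.toLinearMap (γ * δ) := by
      rw [Module.End.mem_maxGenEigenspace] at ha hb ⊢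
      obtain ⟨m, hm⟩ := ha
      obtain ⟨l, hl⟩ := hb
      exact ⟨m + l, gen_mul T γ δ (m + l) m l le_rfl a b hm hl⟩
    rw [funcal_apply _ c _ _ hab, hc, smul_mul_smul_comm]
  exact LinearMap.congr_fun (LinearMap.congr_fun h a) b

theorem funcal_one (T : A →ₐ[ℂ] A) (c : ℂ → ℂ) (hc : c 1 = 1) :
    funcal T.toLinearMap c 1 = 1 := by
  have h1 : (1 : A) ∈ Module.End.maxGenEigenspace T.toLinearMap 1 := by
    rw [Module.End.mem_maxGenEigenspace]
    exact ⟨1, by simp⟩
  rw [funcal_apply _ c 1 _ h1, hc, one_smul]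

end Alg

end Pool.Agent.Lib_helper12.FunCalc
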