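import Mathlib
import Pool.Agent.Lib_helper12.FunCalc

/-!
# The group of formally invertible maps over `ℂ` in `n` variables
-/

namespace Pool.Agent.Lib_helper12.FormalMaps

open MvPowerSeries Finsupp

/-- Formal power series in `n` variables over `ℂ`. -/
abbrev Ser (n : ℕ) := MvPowerSeries (Fin n) ℂ

variable {n : ℕ}

/-- Matrix of the degree-one coefficients of a tuple of series. -/
noncomputable def lin (f : Fin n → Ser n) : Matrix (Fin n) (Fin n) ℂ :=
  fun i j => coeff (single j 1) (f i)

/-- A formally invertible map in `n` variables: an `n`-tuple of formal power series without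
constant term whose linear part (the matrix of degree-one coefficients) is invertible. -/
structure FMap (n : ℕ) where
  /-- the components -/
  toFun : Fin n → MvPowerSeries (Fin n) ℂ
  /-- no constant term -/
  const : ∀ i, constantCoeff (toFun i) = 0
  /-- invertible linear part -/
  det : (lin toFun).det ≠ 0

theorem FMap.ext' {f g : FMap n} (h : ∀ i, f.toFun i = g.toFun i) : f = g := by
  cases f; cases g
  congr
  funext i
  exact h i

/-! ### the order filtration -/

/-- the ideal of series of order at least `k` -/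
noncomputable def J (n k : ℕ) : Ideal (Ser n) where
  carrier := {p | (k : ℕ∞) ≤ p.order}
  zero_mem' := by simp
  add_mem' := by
    intro a b ha hb
    exact le_trans (le_min ha hb) min_order_le_add
  smul_mem' := by
    intro c x hx
    rw [smul_eq_mul]
    exact le_trans (le_trans hx le_add_self) le_order_mul

theorem mem_J {k : ℕ} {p : Ser n} : p ∈ J n k ↔ (k : ℕ∞) ≤ p.order := Iff.rfl

theorem mem_J_iff {k : ℕ} {p : Ser n} : p ∈ J n k ↔ ∀ d : Fin n →₀ ℕ, degree d < k → coeff d p = 0 := by
  rw [mem_J]
  constructor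
  · intro h d hd
    apply coeff_of_lt_order
    exact lt_of_lt_of_le (by exact_mod_cast hd) h
  · intro h
    exact nat_le_order h

theorem J_anti {k l : ℕ} (h : k ≤ l) : J n l ≤ J n k := by
  intro p hp
  rw [mem_J_iff] at hp ⊢
  intro d hd
  exact hp d (by omega)

theorem mem_J_one {p : Ser n} : p ∈ J n 1 ↔ constantCoeff p = 0 := by
  rw [mem_J]
  exact_mod_cast one_le_order_iff_constCoeff_eq_zero

theorem eq_of_forall_J {p q : Ser n} (h : ∀ k, p - q ∈ J n k) : p = q := by
  ext d
  have := (mem_J_iff.1 (h (degree d + 1))) d (by omega)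
  rw [map_sub, sub_eq_zero] at this
  exact this

theorem J_mul {k l : ℕ} {p q : Ser n} (hp : p ∈ J n k) (hq : q ∈ J n l) : p * q ∈ J n (k + l) := by
  rw [mem_J] at *
  push_cast
  exact le_trans (add_le_add hp hq) le_order_mul

theorem J_smul {k : ℕ} {p : Ser n} (c : ℂ) (hp : p ∈ J n k) : c • p ∈ J n k := by
  rw [mem_J_iff] at *
  intro d hd
  rw [map_smul, hp d hd, smul_zero]

theorem trunc_sub_mem (k : ℕ) (p : Ser n) :
    p - ((truncTotal k p : MvPolynomial (Fin n) ℂ) : Ser n) ∈ J n k := by
  rw [mem_J_iff]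
  intro d hd
  rw [map_sub, MvPolynomial.coeff_coe, coeff_truncTotal p hd, sub_self]

/-- tuples without constant term -/
def NC (f : Fin n → Ser n) : Prop := ∀ i, constantCoeff (f i) = 0

theorem NC.hasSubst {f : Fin n → Ser n} (hf : NC f) : HasSubst f :=
  hasSubst_of_constantCoeff_zero hf

theorem subst_J {f : Fin n → Ser n} (hf : NC f) {k : ℕ} {p : Ser n} (hp : p ∈ J n k) :
    subst f p ∈ J n k := by
  rw [mem_J] at *
  refine le_trans ?_ (le_order_subst hf.hasSubst p)
  have h1 : (1 : ℕ∞) ≤ ⨅ i, (f i).order := by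
    apply le_iInf
    intro i
    exact one_le_order_iff_constCoeff_eq_zero.2 (hf i)
  calc (k : ℕ∞) ≤ p.order := hp
    _ = 1 * p.order := (one_mul _).symm
    _ ≤ _ := mul_le_mul_left h1 _

theorem subst_poly {f : Fin n → Ser n} (hf : NC f) (S : Ser n →ₐ[ℂ] Ser n) (hS : ∀ i, S (X i) = f i)
    (p : MvPolynomial (Fin n) ℂ) : S (p : Ser n) = subst f (p : Ser n) := by
  rw [← substAlgHom_apply hf.hasSubst]
  have h : S.comp (MvPolynomial.coeToMvPowerSeries.algHom ℂ) =
      (substAlgHom hf.hasSubst).comp (MvPolynomial.coeToMvPowerSeries.algHom ℂ) := by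
    apply MvPolynomial.algHom_ext
    intro i
    simp [MvPolynomial.coeToMvPowerSeries.algHom_apply, hS, subst_X hf.hasSubst]
  have := AlgHom.congr_fun h p
  simpa [MvPolynomial.coeToMvPowerSeries.algHom_apply] using this

/-- a filtered algebra endomorphism is a substitution -/
theorem eq_subst (S : Ser n →ₐ[ℂ] Ser n) (hJ : ∀ k, ∀ p ∈ J n k, S p ∈ J n k) (p : Ser n) :
    S p = subst (fun i => S (X i)) p := by
  have hf : NC (fun i => S (X i)) := by
    intro i
    rw [← mem_J_one]
    apply hJ
    rw [mem_J_one]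
    simp
  apply eq_of_forall_J
  intro k
  have e1 : S p = S ((truncTotal k p : MvPolynomial (Fin n) ℂ) : Ser n) +
      S (p - ((truncTotal k p : MvPolynomial (Fin n) ℂ) : Ser n)) := by
    rw [← map_add]; congr 1; ring
  have e2 : subst (fun i => S (X i)) p =
      subst (fun i => S (X i)) ((truncTotal k p : MvPolynomial (Fin n) ℂ) : Ser n) +
      subst (fun i => S (X i)) (p - ((truncTotal k p : MvPolynomial (Fin n) ℂ) : Ser n)) := by
    rw [← subst_add hf.hasSubst]; congr 1; ring
  rw [e1, e2, subst_poly hf S (fun i => rfl), add_sub_add_left_eq_sub]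
  exact (J n k).sub_mem (hJ k _ (trunc_sub_mem k p)) (subst_J hf (trunc_sub_mem k p))

/-! ### linear parts -/

theorem coeff_single_mul {p q : Ser n} (hp : p ∈ J n 1) (hq : q ∈ J n 1) (j : Fin n) :
    coeff (single j 1) (p * q) = 0 := by
  have := mem_J_iff.1 (J_mul hp hq) (single j 1) (by simp)
  exact this

theorem coeff_lin_congr {p q : Ser n} (h : p - q ∈ J n 2) (j : Fin n) :
    coeff (single j 1) p = coeff (single j 1) q := by
  have := mem_J_iff.1 h (single j 1) (by simp)
  rwa [map_sub, sub_eq_zero] at this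

theorem lin_decomp {p : Ser n} (hp : constantCoeff p = 0) :
    p - ∑ j, coeff (single j 1) p • (X j : Ser n) ∈ J n 2 := by
  rw [mem_J_iff]
  intro d hd
  rw [map_sub, map_sum]
  simp only [map_smul, smul_eq_mul]
  rcases Nat.lt_or_ge (degree d) 1 with h | h
  · have : d = 0 := by
      rw [← degree_eq_zero_iff]; omega
    subst this
    rw [coeff_zero_eq_constantCoeff_apply, hp]
    simp
  · have hd1 : degree d = 1 := by omega
    obtain ⟨j, rfl⟩ : ∃ j, d = single j 1 := by
      have hne : d ≠ 0 := by
        intro h0; rw [h0] at hd1; simp at hd1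
      obtain ⟨j, hj⟩ := Finsupp.ne_iff.1 hne
      refine ⟨j, ?_⟩
      have hle : single j 1 ≤ d := by
        rw [Finsupp.single_le_iff]
        have : d j ≠ 0 := by simpa using hj
        omega
      obtain ⟨e, he⟩ := le_iff_exists_add.1 hle
      have : degree e = 0 := by
        rw [he, map_add] at hd1
        simp at hd1
        simpa using hd1
      rw [degree_eq_zero_iff] at this
      rw [he, this, add_zero]
    rw [Finset.sum_eq_single j]
    · simp
    · intro b _ hb
      rw [coeff_X, if_neg, mul_zero]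
      intro h1
      exact hb (Finsupp.single_left_injective one_ne_zero h1).symm
    · simp

theorem lin_subst {f g : Fin n → Ser n} (hf : NC f) (hg : NC g) :
    lin (fun i => subst g (f i)) = lin f * lin g := by
  ext i j
  have h1 := subst_J hg (lin_decomp (hf i))
  rw [subst_sub hg.hasSubst] at h1
  have h2 := coeff_lin_congr h1 j
  have h3 : subst g (∑ j, coeff (single j 1) (f i) • (X j : Ser n)) =
      ∑ j, coeff (single j 1) (f i) • g j := by
    rw [← substAlgHom_apply hg.hasSubst, map_sum]
    refine Finset.sum_congr rfl fun k _ => ?_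
    rw [map_smul, substAlgHom_X hg.hasSubst]
  rw [h3] at h2
  rw [Matrix.mul_apply]
  show coeff (single j 1) (subst g (f i)) = _
  rw [h2, map_sum]
  refine Finset.sum_congr rfl fun k _ => ?_
  rw [map_smul, smul_eq_mul]
  rfl

theorem NC.subst {f g : Fin n → Ser n} (hf : NC f) (hg : NC g) :
    NC (fun i => MvPowerSeries.subst g (f i)) := by
  intro i
  rw [← mem_J_one]
  exact subst_J hg (mem_J_one.2 (hf i))

theorem lin_X : lin (fun i => (X i : Ser n)) = 1 := by
  ext i j
  unfold lin
  rw [coeff_X, Matrix.one_apply]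
  by_cases h : i = j
  · subst h; simp
  · rw [if_neg h, if_neg]
    intro h1
    exact h (Finsupp.single_left_injective one_ne_zero h1).symm

/-! ### quotients -/

/-- the algebra of `(k-1)`-jets -/
abbrev Q (n k : ℕ) := Ser n ⧸ J n k

theorem finite_Q (n k : ℕ) : FiniteDimensional ℂ (Q n k) := by
  classical
  have : Finite {d : Fin n →₀ ℕ // degree d < k} := (finite_of_degree_lt k).to_subtype
  have : Fintype {d : Fin n →₀ ℕ // degree d < k} := Fintype.ofFinite _
  let F : ({d : Fin n →₀ ℕ // degree d < k} → ℂ) →ₗ[ℂ] Q n k :=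
    { toFun := fun c => Ideal.Quotient.mk (J n k) (∑ d, monomial d.1 (c d))
      map_add' := by
        intro a b
        rw [← map_add, ← Finset.sum_add_distrib]
        simp
      map_smul' := by
        intro a b
        rw [RingHom.id_apply, ← Ideal.Quotient.mkₐ_eq_mk ℂ, ← map_smul, Finset.smul_sum]
        congr 1
        refine Finset.sum_congr rfl fun d _ => ?_
        rw [Pi.smul_apply, ← map_smul] }
  apply Module.Finite.of_surjective F
  intro x
  obtain ⟨p, rfl⟩ := Ideal.Quotient.mk_surjective x
  refine ⟨fun d => coeff d.1 p, ?_⟩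
  show Ideal.Quotient.mk (J n k) _ = _
  rw [Ideal.Quotient.eq, mem_J_iff]
  intro d hd
  rw [map_sub, map_sum, Finset.sum_eq_single ⟨d, hd⟩]
  · simp
  · intro b _ hb
    rw [coeff_monomial, if_neg]
    intro h
    exact hb (Subtype.ext h.symm)
  · simp

instance (n k : ℕ) : FiniteDimensional ℂ (Q n k) := finite_Q n k

/-- quotient map -/
noncomputable def q (n k : ℕ) : Ser n →ₐ[ℂ] Q n k := Ideal.Quotient.mkₐ ℂ (J n k)

theorem q_surj (n k : ℕ) : Function.Surjective (q n k) := Ideal.Quotient.mkₐ_surjective ℂ _

theorem q_eq {k : ℕ} {p p' : Ser n} : q n k p = q n k p' ↔ p - p' ∈ J n k := by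
  unfold q
  rw [Ideal.Quotient.mkₐ_eq_mk, Ideal.Quotient.eq]

theorem q_eq_zero {k : ℕ} {p : Ser n} : q n k p = 0 ↔ p ∈ J n k := by
  rw [← map_zero (q n k), q_eq, sub_zero]

theorem ext_q {p p' : Ser n} (h : ∀ k, q n k p = q n k p') : p = p' :=
  eq_of_forall_J fun k => q_eq.1 (h k)

/-- completeness -/
theorem complete (u : ℕ → Ser n) (hu : ∀ k l, k ≤ l → u l - u k ∈ J n k) :
    ∃ p : Ser n, ∀ k, p - u k ∈ J n k := by
  let w : Ser n := fun d => coeff d (u (degree d + 1))
  have h1 : ∀ d, coeff d w = coeff d (u (degree d + 1)) := fun d => rfl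
  refine ⟨w, fun k => ?_⟩
  rw [mem_J_iff]
  intro d hd
  rw [map_sub, sub_eq_zero, h1]
  have h2 := mem_J_iff.1 (hu (degree d + 1) k (by omega)) d (by omega)
  rw [map_sub, sub_eq_zero] at h2
  exact h2.symm

/-- limits of compatible families of maps on the quotients -/
theorem exists_limit (g : ∀ k, Q n k → Q n k)
    (hg : ∀ k l, k ≤ l → ∀ p p' : Ser n, q n l p' = g l (q n l p) → q n k p' = g k (q n k p)) :
    ∃ G : Ser n → Ser n, ∀ k p, q n k (G p) = g k (q n k p) := by
  have h1 : ∀ p : Ser n, ∃ p' : Ser n, ∀ k, q n k p' = g k (q n k p) := by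
    intro p
    choose u hu using fun k => q_surj n k (g k (q n k p))
    obtain ⟨p', hp'⟩ := complete u (by
      intro k l hkl
      rw [← q_eq, hu k]
      exact hg k l hkl p (u l) (hu l))
    refine ⟨p', fun k => ?_⟩
    rw [← hu k, q_eq]
    exact hp' k
  choose G hG using h1
  exact ⟨G, fun k p => hG p k⟩

/-! ### substitution operators -/

/-- `p ↦ p ∘ f` -/
noncomputable def T (f : FMap n) : Ser n →ₐ[ℂ] Ser n := substAlgHom (NC.hasSubst f.const)

theorem T_apply (f : FMap n) (p : Ser n) : T f p = subst f.toFun p :=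
  substAlgHom_apply _ p

theorem T_X (f : FMap n) (i : Fin n) : T f (X i) = f.toFun i :=
  substAlgHom_X _ i

theorem T_J (f : FMap n) {k : ℕ} {p : Ser n} (hp : p ∈ J n k) : T f p ∈ J n k := by
  rw [T_apply]; exact subst_J f.const hp

/-- composition -/
noncomputable def comp (f g : FMap n) : FMap n where
  toFun := fun i => subst g.toFun (f.toFun i)
  const := NC.subst f.const g.const
  det := by rw [lin_subst f.const g.const, Matrix.det_mul]; exact mul_ne_zero f.det g.det

/-- identity -/
noncomputable def one : FMap n where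
  toFun := fun i => X i
  const := by intro i; simp
  det := by rw [lin_X]; simp

theorem T_comp (f g : FMap n) (p : Ser n) : T (comp f g) p = T g (T f p) := by
  rw [T_apply, T_apply, T_apply, subst_comp_subst_apply (NC.hasSubst f.const) (NC.hasSubst g.const)]
  rfl

theorem T_one (p : Ser n) : T (one : FMap n) p = p := by
  rw [T_apply]
  exact congrFun subst_self p

theorem eq_of_T {f g : FMap n} (h : ∀ p, T f p = T g p) : f = g := by
  apply FMap.ext'
  intro i
  rw [← T_X, ← T_X, h]

/-- a map tangent to the identity moves a series of order `k` by a series of order `k+1` -/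
theorem T_sub_mem {u : FMap n} (hu : ∀ i, u.toFun i - X i ∈ J n 2) {k : ℕ} {p : Ser n}
    (hp : p ∈ J n k) : T u p - p ∈ J n (k + 1) := by
  have hmul : ∀ (k l : ℕ) (a b : Ser n), a ∈ J n k → b ∈ J n l → T u a - a ∈ J n (k + 1) →
      T u b - b ∈ J n (l + 1) → T u (a * b) - a * b ∈ J n (k + l + 1) := by
    intro k l a b ha hb ha' hb'
    have e : T u (a * b) - a * b = (T u a - a) * T u b + a * (T u b - b) := by
      rw [map_mul]; ring
    rw [e]
    apply (J n _).add_mem
    · have := J_mul ha' (T_J u hb)
      rwa [show k + l + 1 = k + 1 + l by ring]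
    · have := J_mul ha hb'
      rwa [show k + l + 1 = k + (l + 1) by ring]
  have hmonJ : ∀ d : Fin n →₀ ℕ, (monomial d (1 : ℂ) : Ser n) ∈ J n (degree d) := by
    intro d
    rw [mem_J_iff]
    intro e he
    rw [coeff_monomial, if_neg]
    rintro rfl
    exact lt_irrefl _ he
  have hmon : ∀ d : Fin n →₀ ℕ, T u (monomial d (1 : ℂ)) - monomial d (1 : ℂ) ∈
      J n (degree d + 1) := by
    have hadd : ∀ a b : Fin n →₀ ℕ, (T u (monomial a (1 : ℂ)) - monomial a (1 : ℂ) ∈
        J n (degree a + 1)) → (T u (monomial b (1 : ℂ)) - monomial b (1 : ℂ) ∈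
        J n (degree b + 1)) → (T u (monomial (a + b) (1 : ℂ)) - monomial (a + b) (1 : ℂ) ∈
        J n (degree (a + b) + 1)) := by
      intro a b ha hb
      have e : (monomial (a + b) (1 : ℂ) : Ser n) = monomial a 1 * monomial b 1 := by
        rw [monomial_mul_monomial, one_mul]
      rw [e, map_add]
      exact hmul _ _ _ _ (hmonJ a) (hmonJ b) ha hb
    have h0 : T u (monomial 0 (1 : ℂ)) - monomial 0 (1 : ℂ) ∈ J n (degree (0 : Fin n →₀ ℕ) + 1) := by
      have : (monomial (0 : Fin n →₀ ℕ) (1 : ℂ) : Ser n) = 1 := by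
        rw [monomial_zero_one]
      rw [this, map_one, sub_self]
      exact (J n _).zero_mem
    intro d
    induction d using Finsupp.induction_linear with
    | zero => exact h0
    | add a b ha hb => exact hadd a b ha hb
    | single i m =>
      induction m with
      | zero => rw [Finsupp.single_zero]; exact h0
      | succ m ih =>
        rw [Finsupp.single_add]
        apply hadd _ _ ih
        have e : (monomial (single i 1) (1 : ℂ) : Ser n) = X i := rfl
        rw [e, T_X, degree_single]
        exact hu i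
  -- general series
  have h1 : p - ((truncTotal (k + 1) p : MvPolynomial (Fin n) ℂ) : Ser n) ∈ J n (k + 1) :=
    trunc_sub_mem (k + 1) p
  have h2 : T u ((truncTotal (k + 1) p : MvPolynomial (Fin n) ℂ) : Ser n) -
      ((truncTotal (k + 1) p : MvPolynomial (Fin n) ℂ) : Ser n) ∈ J n (k + 1) := by
    set r := (truncTotal (k + 1) p : MvPolynomial (Fin n) ℂ) with hr
    have hsum : (r : Ser n) = ∑ d ∈ r.support, (r.coeff d) • (monomial d (1 : ℂ) : Ser n) := by
      conv_lhs => rw [MvPolynomial.as_sum r]
      rw [← MvPolynomial.coeToMvPowerSeries.ringHom_apply, map_sum]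
      refine Finset.sum_congr rfl fun d _ => ?_
      rw [MvPolynomial.coeToMvPowerSeries.ringHom_apply, MvPolynomial.coe_monomial]
      rw [← map_smul, smul_eq_mul, mul_one]
    rw [hsum, map_sum, ← Finset.sum_sub_distrib]
    apply (J n _).sum_mem
    intro d hd
    rw [map_smul, ← smul_sub]
    apply J_smul
    have hdk : degree d = k := by
      rw [MvPolynomial.mem_support_iff] at hd
      by_contra hne
      apply hd
      rw [hr, coeff_truncTotal_eq_ite]
      split_ifs with hlt
      · exact mem_J_iff.1 hp d (by omega)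
      · rfl
    have := hmon d
    rwa [hdk] at this
  have e : T u p - p = (T u ((truncTotal (k + 1) p : MvPolynomial (Fin n) ℂ) : Ser n) -
      ((truncTotal (k + 1) p : MvPolynomial (Fin n) ℂ) : Ser n)) +
      (T u (p - ((truncTotal (k + 1) p : MvPolynomial (Fin n) ℂ) : Ser n)) -
        (p - ((truncTotal (k + 1) p : MvPolynomial (Fin n) ℂ) : Ser n))) := by
    rw [map_sub]; ring
  rw [e]
  exact (J n _).add_mem h2 ((J n _).sub_mem (T_J u h1) h1)

theorem T_surj_mod {u : FMap n} (hu : ∀ i, u.toFun i - X i ∈ J n 2) (k : ℕ) (p : Ser n) :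
    ∃ p', T u p' - p ∈ J n k := by
  induction k with
  | zero => exact ⟨0, by rw [mem_J_iff]; intro d hd; omega⟩
  | succ k ih =>
    obtain ⟨p', hp'⟩ := ih
    refine ⟨p' - (T u p' - p), ?_⟩
    have e : T u (p' - (T u p' - p)) - p = -(T u (T u p' - p) - (T u p' - p)) := by
      rw [map_sub]; ring
    rw [e]
    exact (J n _).neg_mem (T_sub_mem hu hp')

/-- the linear map with matrix `A` -/
noncomputable def linMap (A : Matrix (Fin n) (Fin n) ℂ) (hA : A.det ≠ 0) : FMap n where
  toFun := fun i => ∑ j, A i j • (X j : Ser n)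
  const := by intro i; simp
  det := by
    have : lin (fun i => ∑ j, A i j • (X j : Ser n)) = A := by
      ext i j
      unfold lin
      rw [map_sum, Finset.sum_eq_single j]
      · simp
      · intro b _ hb
        rw [map_smul, coeff_X, if_neg, smul_zero]
        intro h1
        exact hb (Finsupp.single_left_injective one_ne_zero h1).symm
      · simp
    rw [this]; exact hA

theorem lin_linMap (A : Matrix (Fin n) (Fin n) ℂ) (hA : A.det ≠ 0) : lin (linMap A hA).toFun = A := by
  ext i j
  unfold lin linMap
  dsimp only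
  rw [map_sum, Finset.sum_eq_single j]
  · simp
  · intro b _ hb
    rw [map_smul, coeff_X, if_neg, smul_zero]
    intro h1
    exact hb (Finsupp.single_left_injective one_ne_zero h1).symm
  · simp

theorem sub_X_mem_of_lin {u : FMap n} (h : lin u.toFun = 1) (i : Fin n) : u.toFun i - X i ∈ J n 2 := by
  have h1 := lin_decomp (u.const i)
  have h2 : ∑ j, coeff (single j 1) (u.toFun i) • (X j : Ser n) = X i := by
    have h3 : ∀ j, coeff (single j 1) (u.toFun i) = (1 : Matrix (Fin n) (Fin n) ℂ) i j := by
      intro j; rw [← h]; rfl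
    simp only [h3, Matrix.one_apply]
    simp
  rwa [h2] at h1

theorem T_surj (f : FMap n) (k : ℕ) (p : Ser n) : ∃ p', T f p' - p ∈ J n k := by
  have hdet : (lin f.toFun)⁻¹.det ≠ 0 := by
    intro h
    have h1 : (lin f.toFun) * (lin f.toFun)⁻¹ = 1 :=
      Matrix.mul_nonsing_inv _ (isUnit_iff_ne_zero.2 f.det)
    have h2 := congrArg Matrix.det h1
    rw [Matrix.det_mul, h, mul_zero, Matrix.det_one] at h2
    exact zero_ne_one h2
  let g := linMap (lin f.toFun)⁻¹ hdet
  have hu : lin (comp g f).toFun = 1 := by
    show lin (fun i => subst f.toFun (g.toFun i)) = 1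
    rw [lin_subst g.const f.const, lin_linMap]
    exact Matrix.nonsing_inv_mul _ (isUnit_iff_ne_zero.2 f.det)
  obtain ⟨p', hp'⟩ := T_surj_mod (sub_X_mem_of_lin hu) k p
  refine ⟨T g p', ?_⟩
  rwa [T_comp] at hp'

/-- induced map on jets -/
noncomputable def Tk (f : FMap n) (k : ℕ) : Q n k →ₐ[ℂ] Q n k :=
  Ideal.quotientMapₐ (J n k) (T f) (fun _ hp => T_J f hp)

theorem Tk_q (f : FMap n) (k : ℕ) (p : Ser n) : Tk f k (q n k p) = q n k (T f p) := rfl

theorem Tk_bij (f : FMap n) (k : ℕ) : Function.Bijective (Tk f k) := by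
  have hs : Function.Surjective (Tk f k).toLinearMap := by
    intro x
    obtain ⟨p, rfl⟩ := q_surj n k x
    obtain ⟨p', hp'⟩ := T_surj f k p
    exact ⟨q n k p', q_eq.2 hp'⟩
  exact ⟨LinearMap.injective_iff_surjective.2 hs, hs⟩

theorem T_inj_mod (f : FMap n) {k : ℕ} {p : Ser n} (h : T f p ∈ J n k) : p ∈ J n k := by
  rw [← q_eq_zero] at h ⊢
  apply (Tk_bij f k).1
  rw [Tk_q, h, map_zero]

theorem exists_left_inv (f : FMap n) : ∃ g : FMap n, comp g f = one := by
  choose g hg using fun k => Function.surjective_iff_hasRightInverse.1 (Tk_bij f k).2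
  have hg' : ∀ (k : ℕ) (p p' : Ser n), q n k p' = g k (q n k p) ↔ T f p' - p ∈ J n k := by
    intro k p p'
    rw [← q_eq, ← Tk_q]
    constructor
    · intro h
      rw [h, hg k]
    · intro h
      apply (Tk_bij f k).1
      rw [h, hg k]
  obtain ⟨G, hG⟩ := exists_limit g (by
    intro k l hkl p p' h
    rw [hg'] at h ⊢
    exact J_anti hkl h)
  have hG' : ∀ p, T f (G p) = p := by
    intro p
    apply eq_of_forall_J
    intro k
    rw [← hg']
    exact hG k p
  have hc : ∀ i, constantCoeff (G (X i)) = 0 := by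
    intro i
    rw [← mem_J_one]
    apply T_inj_mod f
    rw [hG', mem_J_one]
    simp
  have hlin : lin (fun i => G (X i)) * lin f.toFun = 1 := by
    rw [← lin_subst hc f.const, ← lin_X]
    congr 1
    funext i
    rw [← T_apply, hG']
  refine ⟨⟨fun i => G (X i), hc, ?_⟩, ?_⟩
  · intro h
    have h2 := congrArg Matrix.det hlin
    rw [Matrix.det_mul, h, zero_mul, Matrix.det_one] at h2
    exact zero_ne_one h2
  · apply FMap.ext'
    intro i
    show subst f.toFun (G (X i)) = X i
    rw [← T_apply, hG']

noncomputable instance : Group (FMap n) :=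
  { mul := comp
    one := one
    inv := fun f => Classical.choose (exists_left_inv f)
    mul_assoc := by
      intro a b c
      apply eq_of_T
      intro p
      change T (comp (comp a b) c) p = T (comp a (comp b c)) p
      rw [T_comp, T_comp, T_comp, T_comp]
    one_mul := by
      intro a
      apply eq_of_T
      intro p
      change T (comp one a) p = T a p
      rw [T_comp, T_one]
    mul_one := by
      intro a
      apply eq_of_T
      intro p
      change T (comp a one) p = T a p
      rw [T_comp, T_one]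
    inv_mul_cancel := fun f => Classical.choose_spec (exists_left_inv f) }

theorem mul_toFun (f g : FMap n) (i : Fin n) :
    (f * g).toFun i = subst g.toFun (f.toFun i) := rfl

theorem one_toFun (i : Fin n) : (1 : FMap n).toFun i = X i := rfl

theorem T_mul (f g : FMap n) (p : Ser n) : T (f * g) p = T g (T f p) := T_comp f g p

theorem T_one' (p : Ser n) : T (1 : FMap n) p = p := T_one p

theorem T_inv_T (f : FMap n) (p : Ser n) : T f⁻¹ (T f p) = p := by
  rw [← T_mul, mul_inv_cancel, T_one']

theorem T_T_inv (f : FMap n) (p : Ser n) : T f (T f⁻¹ p) = p := by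
  rw [← T_mul, inv_mul_cancel, T_one']

end Pool.Agent.Lib_helper12.FormalMaps
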