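import Mathlib
import Pool.Agent.Lib_helper12.FormalMaps

/-!
# Conjugacy of formal maps can be tested on jets
-/

namespace Pool.Agent.Lib_helper12.FormalMaps

open MvPowerSeries Finsupp

/-- Nullstellensatz in countably many variables over `ℂ` -/
theorem countable_nss {ι : Type} [Countable ι] (I : Ideal (MvPolynomial ι ℂ)) (hI : I ≠ ⊤) :
    ∃ x : ι → ℂ, ∀ p ∈ I, MvPolynomial.eval x p = 0 := by
  obtain ⟨M, hM, hIM⟩ := Ideal.exists_le_maximal I hI
  let _ : Field (MvPolynomial ι ℂ ⧸ M) := Ideal.Quotient.field M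
  have hrank : Module.rank ℂ (MvPolynomial ι ℂ ⧸ M) ≤ Cardinal.aleph0 := by
    refine (LinearMap.rank_le_of_surjective (Ideal.Quotient.mkₐ ℂ M).toLinearMap
      (Ideal.Quotient.mkₐ_surjective ℂ M)).trans ?_
    rw [MvPolynomial.rank_eq]
    exact Cardinal.mk_le_aleph0
  have halg : Algebra.IsAlgebraic ℂ (MvPolynomial ι ℂ ⧸ M) := by
    by_contra hcon
    rw [← Algebra.transcendental_iff_not_isAlgebraic] at hcon
    have h1 := Algebra.Transcendental.rank_eq_cardinalMk ℂ (MvPolynomial ι ℂ ⧸ M)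
    have h2 : Cardinal.mk ℂ ≤ Cardinal.mk (MvPolynomial ι ℂ ⧸ M) :=
      Cardinal.mk_le_of_injective (algebraMap ℂ (MvPolynomial ι ℂ ⧸ M)).injective
    rw [← h1, Cardinal.mk_complex] at h2
    exact absurd (h2.trans hrank) (not_le.2 Cardinal.aleph0_lt_continuum)
  have hint : Algebra.IsIntegral ℂ (MvPolynomial ι ℂ ⧸ M) := halg.isIntegral
  have hbij := IsAlgClosed.algebraMap_bijective_of_isIntegral (k := ℂ) (K := MvPolynomial ι ℂ ⧸ M)
  choose x hx using fun i => hbij.2 (Ideal.Quotient.mk M (MvPolynomial.X i))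
  refine ⟨x, fun p hp => ?_⟩
  have h3 : (Algebra.ofId ℂ (MvPolynomial ι ℂ ⧸ M)).comp (MvPolynomial.aeval x) =
      Ideal.Quotient.mkₐ ℂ M := by
    apply MvPolynomial.algHom_ext
    intro i
    rw [AlgHom.comp_apply, MvPolynomial.aeval_X]
    exact hx i
  have h4 := AlgHom.congr_fun h3 p
  have h5 : Ideal.Quotient.mkₐ ℂ M p = 0 := by
    rw [Ideal.Quotient.mkₐ_eq_mk, Ideal.Quotient.eq_zero_iff_mem]
    exact hIM hp
  rw [h5, AlgHom.comp_apply, MvPolynomial.aeval_eq_eval] at h4
  apply hbij.1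
  rw [map_zero]
  exact h4

variable {n : ℕ}

/-- Unknown coefficients and the inverse of the Jacobian. -/
abbrev Idx (n : ℕ) := (Fin n × (Fin n →₀ ℕ)) ⊕ Unit

/-- polynomial ring in the unknown coefficients -/
abbrev P (n : ℕ) := MvPolynomial (Idx n) ℂ

open Classical in
/-- the universal formal map -/
noncomputable def hU (n : ℕ) (i : Fin n) : MvPowerSeries (Fin n) (P n) :=
  fun d => if d = 0 then 0 else MvPolynomial.X (Sum.inl (i, d))

theorem coeff_hU (i : Fin n) (d : Fin n →₀ ℕ) [Decidable (d = 0)] :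
    coeff d (hU n i) = if d = 0 then 0 else MvPolynomial.X (Sum.inl (i, d)) := by
  show hU n i d = _
  unfold hU
  congr

theorem hU_const (i : Fin n) : constantCoeff (hU n i) = 0 := by
  classical
  rw [← coeff_zero_eq_constantCoeff_apply, coeff_hU, if_pos rfl]

/-- coefficients extended to the polynomial ring -/
noncomputable def ext (f : Fin n → Ser n) (i : Fin n) : MvPowerSeries (Fin n) (P n) :=
  MvPowerSeries.map MvPolynomial.C (f i)

theorem ext_const {f : Fin n → Ser n} (hf : NC f) (i : Fin n) : constantCoeff (ext f i) = 0 := by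
  unfold ext
  rw [constantCoeff_map, hf i, map_zero]

/-- coefficients of `h ∘ f - g ∘ h` for the universal `h` -/
noncomputable def Eq (f g : Fin n → Ser n) (x : Fin n × (Fin n →₀ ℕ)) : P n :=
  coeff x.2 (subst (ext f) (hU n x.1)) - coeff x.2 (subst (hU n) (ext g x.1))

/-- Jacobian equation -/
noncomputable def Dt (n : ℕ) : P n :=
  (Matrix.of fun i j => coeff (single j 1) (hU n i) : Matrix (Fin n) (Fin n) (P n)).det *
    MvPolynomial.X (Sum.inr ()) - 1

/-- specialisation of the universal map -/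
noncomputable def sp (x : Idx n → ℂ) (i : Fin n) : Ser n :=
  MvPowerSeries.map (MvPolynomial.eval x) (hU n i)

theorem sp_const (x : Idx n → ℂ) : NC (sp x) := by
  intro i
  unfold sp
  rw [constantCoeff_map, hU_const, map_zero]

theorem map_ext (x : Idx n → ℂ) (f : Fin n → Ser n) (i : Fin n) :
    MvPowerSeries.map (MvPolynomial.eval x) (ext f i) = f i := by
  ext d
  unfold ext
  rw [coeff_map, coeff_map, MvPolynomial.eval_C]

theorem eval_Eq (x : Idx n → ℂ) {f g : Fin n → Ser n} (hf : NC f) (y : Fin n × (Fin n →₀ ℕ)) :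
    MvPolynomial.eval x (Eq f g y) =
      coeff y.2 (subst f (sp x y.1)) - coeff y.2 (subst (sp x) (g y.1)) := by
  unfold Eq
  rw [map_sub, ← coeff_map, ← coeff_map, map_subst (hasSubst_of_constantCoeff_zero (ext_const hf)),
    map_subst (hasSubst_of_constantCoeff_zero hU_const)]
  simp only [map_ext]
  rfl

theorem eval_Dt (x : Idx n → ℂ) : MvPolynomial.eval x (Dt n) =
    (lin (sp x)).det * x (Sum.inr ()) - 1 := by
  unfold Dt
  rw [map_sub, map_mul, MvPolynomial.eval_X, map_one, RingHom.map_det]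
  congr 3

/-- the ideal of the equations up to degree `k` -/
noncomputable def Ik (f g : Fin n → Ser n) (k : ℕ) : Ideal (P n) :=
  Ideal.span ({p | ∃ y : Fin n × (Fin n →₀ ℕ), degree y.2 < k ∧ p = Eq f g y} ∪ {Dt n})

theorem Ik_mono (f g : Fin n → Ser n) : Monotone (Ik f g) := by
  intro k l hkl
  apply Ideal.span_mono
  rintro p (⟨y, hy, rfl⟩ | hp)
  · exact Or.inl ⟨y, lt_of_lt_of_le hy hkl, rfl⟩
  · exact Or.inr hp

theorem Ik_ne_top {f g : FMap n} {k : ℕ} (hk : ∃ h : FMap n, ∀ i,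
    (h * f).toFun i - (g * h).toFun i ∈ J n k) : (1 : P n) ∉ Ik f.toFun g.toFun k := by
  classical
  obtain ⟨h, hh⟩ := hk
  intro h1
  let x : Idx n → ℂ := Sum.elim (fun y => coeff y.2 (h.toFun y.1)) (fun _ => (lin h.toFun).det⁻¹)
  have hsp : sp x = h.toFun := by
    funext i
    ext d
    unfold sp
    rw [coeff_map, coeff_hU]
    by_cases hd : d = 0
    · subst hd
      rw [if_pos rfl, map_zero, coeff_zero_eq_constantCoeff_apply, h.const]
    · rw [if_neg hd, MvPolynomial.eval_X]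
      rfl
  have hle : Ik f.toFun g.toFun k ≤ RingHom.ker (MvPolynomial.eval x) := by
    unfold Ik
    rw [Ideal.span_le]
    rintro p (⟨y, hy, rfl⟩ | hp)
    · rw [SetLike.mem_coe, RingHom.mem_ker, eval_Eq x f.const, hsp]
      have := mem_J_iff.1 (hh y.1) y.2 hy
      rw [map_sub] at this
      exact this
    · rw [Set.mem_singleton_iff] at hp
      rw [hp, SetLike.mem_coe, RingHom.mem_ker, eval_Dt, hsp]
      show (lin h.toFun).det * (lin h.toFun).det⁻¹ - 1 = 0
      rw [mul_inv_cancel₀ h.det, sub_self]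
  have := hle h1
  rw [RingHom.mem_ker, map_one] at this
  exact one_ne_zero this

/-- Two formally invertible maps are conjugate as soon as their `k`-jets are conjugate
for every `k`. -/
theorem conj_of_jets {f g : FMap n} (hk : ∀ k : ℕ, ∃ h : FMap n, ∀ i,
    (h * f).toFun i - (g * h).toFun i ∈ J n k) : ∃ h : FMap n, h * f = g * h := by
  have hI : (⨆ k, Ik f.toFun g.toFun k) ≠ ⊤ := by
    rw [Ideal.ne_top_iff_one]
    intro h1
    rw [Submodule.mem_iSup_of_directed _ (Ik_mono f.toFun g.toFun).directed_le] at h1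
    obtain ⟨k, hk1⟩ := h1
    exact Ik_ne_top (hk k) hk1
  obtain ⟨x, hx⟩ := countable_nss _ hI
  have hsub : ∀ k, ∀ p ∈ Ik f.toFun g.toFun k, MvPolynomial.eval x p = 0 :=
    fun k p hp => hx p (le_iSup (Ik f.toFun g.toFun) k hp)
  have hdet : (lin (sp x)).det ≠ 0 := by
    have h1 := hsub 0 (Dt n) (Ideal.subset_span (Or.inr rfl))
    rw [eval_Dt, sub_eq_zero] at h1
    exact left_ne_zero_of_mul_eq_one h1
  refine ⟨⟨sp x, sp_const x, hdet⟩, ?_⟩
  apply FMap.ext'
  intro i
  ext d
  have h1 := hsub (degree d + 1) (Eq f.toFun g.toFun (i, d))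
    (Ideal.subset_span (Or.inl ⟨(i, d), Nat.lt_succ_self _, rfl⟩))
  rw [eval_Eq x f.const, sub_eq_zero] at h1
  exact h1

end Pool.Agent.Lib_helper12.FormalMaps
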