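import Mathlib
import Pool.Agent.Lib_helper12.FormalMaps

/-!
# Functional calculus on formal power series and reversers of finite order
-/

namespace Pool.Agent.Lib_helper12.FormalMaps

open MvPowerSeries Finsupp FunCalc

variable {n : ℕ}

theorem q_factor {k l : ℕ} (hkl : k ≤ l) (p : Ser n) :
    Ideal.Quotient.factorₐ ℂ (J_anti hkl) (q n l p) = q n k p := rfl

theorem exists_S (h : FMap n) (c : ℂ → ℂ) : ∃ S : Ser n → Ser n,
    ∀ k p, q n k (S p) = funcal (Tk h k).toLinearMap c (q n k p) := by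
  apply exists_limit
  intro k l hkl p p' hp
  have h1 := congrArg (Ideal.Quotient.factorₐ ℂ (J_anti hkl)) hp
  rw [q_factor hkl] at h1
  rw [h1, ← q_factor hkl p]
  exact (funcal_natural (Tk h l).toLinearMap (Tk h k).toLinearMap
    (Ideal.Quotient.factorₐ ℂ (J_anti hkl)).toLinearMap (by
      intro v
      obtain ⟨r, rfl⟩ := q_surj n l v
      rfl) c (q n l p)).symm

/-- `c(T h)` on power series -/
noncomputable def S (h : FMap n) (c : ℂ → ℂ) : Ser n → Ser n := Classical.choose (exists_S h c)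

theorem q_S (h : FMap n) (c : ℂ → ℂ) (k : ℕ) (p : Ser n) :
    q n k (S h c p) = funcal (Tk h k).toLinearMap c (q n k p) :=
  Classical.choose_spec (exists_S h c) k p

theorem S_add (h : FMap n) (c : ℂ → ℂ) (p r : Ser n) : S h c (p + r) = S h c p + S h c r := by
  apply ext_q
  intro k
  rw [map_add, q_S, q_S, q_S, map_add, map_add]

theorem S_smul (h : FMap n) (c : ℂ → ℂ) (a : ℂ) (p : Ser n) : S h c (a • p) = a • S h c p := by
  apply ext_q
  intro k
  rw [map_smul, q_S, q_S, map_smul, map_smul]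

theorem S_J (h : FMap n) (c : ℂ → ℂ) {k : ℕ} {p : Ser n} (hp : p ∈ J n k) : S h c p ∈ J n k := by
  rw [← q_eq_zero] at hp ⊢
  rw [q_S, hp, map_zero]

theorem S_S (h : FMap n) (c c' : ℂ → ℂ) (p : Ser n) :
    S h c (S h c' p) = S h (fun γ => c γ * c' γ) p := by
  apply ext_q
  intro k
  rw [q_S, q_S, q_S, funcal_funcal]

theorem S_const_mul (h : FMap n) (a : ℂ) (c : ℂ → ℂ) (p : Ser n) :
    S h (fun γ => a * c γ) p = a • S h c p := by
  apply ext_q
  intro k
  rw [map_smul, q_S, q_S, funcal_smul]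

theorem S_mul (h : FMap n) (c : ℂ → ℂ) (hc : ∀ x y, c (x * y) = c x * c y) (p r : Ser n) :
    S h c (p * r) = S h c p * S h c r := by
  apply ext_q
  intro k
  rw [map_mul, q_S, q_S, q_S, map_mul, funcal_mul _ c hc]

theorem S_one (h : FMap n) (c : ℂ → ℂ) (hc : c 1 = 1) : S h c 1 = 1 := by
  apply ext_q
  intro k
  rw [q_S, map_one, funcal_one _ c hc]

/-- the algebra endomorphism `c(T h)` for multiplicative `c` -/
noncomputable def Salg (h : FMap n) (c : ℂ → ℂ) (hc : ∀ x y, c (x * y) = c x * c y) (hc1 : c 1 = 1) :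
    Ser n →ₐ[ℂ] Ser n where
  toFun := S h c
  map_one' := S_one h c hc1
  map_mul' := S_mul h c hc
  map_zero' := by
    have := S_smul h c 0 0
    simpa using this
  map_add' := S_add h c
  commutes' := by
    intro a
    rw [Algebra.algebraMap_eq_smul_one, S_smul, S_one h c hc1]

/-! ### eigen-coordinates -/

theorem row_ne_zero {b : Fin n → (Fin n → ℂ)} (hb : LinearIndependent ℂ b) :
    (Matrix.of b).det ≠ 0 := by
  have h1 : IsUnit (Matrix.of b) := Matrix.linearIndependent_rows_iff_isUnit.1 hb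
  rw [Matrix.isUnit_iff_isUnit_det] at h1
  exact h1.ne_zero

theorem maxGen_zero_eq_bot {V : Type*} [AddCommGroup V] [Module ℂ V] (T : Module.End ℂ V)
    (hT : Function.Injective T) : T.maxGenEigenspace 0 = ⊥ := by
  rw [Submodule.eq_bot_iff]
  intro v hv
  rw [Module.End.mem_maxGenEigenspace] at hv
  obtain ⟨N, hN⟩ := hv
  rw [zero_smul, sub_zero] at hN
  have : Function.Injective ((T ^ N : Module.End ℂ V)) := by
    rw [Module.End.coe_pow]
    exact hT.iterate N
  apply this
  rw [hN, map_zero]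

theorem exists_coords (h : FMap n) : ∃ (φ : FMap n) (γ : Fin n → ℂ), (∀ i, γ i ≠ 0) ∧
    ∀ (c : ℂ → ℂ) (i : Fin n), S h c (φ.toFun i) = c (γ i) • φ.toFun i := by
  classical
  have hfin : {μ : ℂ | Module.End.maxGenEigenspace (Tk h 2).toLinearMap μ ≠ ⊥}.Finite :=
    WellFoundedGT.finite_ne_bot_of_iSupIndep
      (Module.End.independent_maxGenEigenspace (Tk h 2).toLinearMap)
  set Λ : Finset ℂ := hfin.toFinset with hΛ
  have hΛ0 : ∀ μ ∈ Λ, μ ≠ 0 := by
    intro μ hμ h0
    rw [hΛ, Set.Finite.mem_toFinset] at hμ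
    apply hμ
    rw [h0]
    exact maxGen_zero_eq_bot _ (Tk_bij h 2).1
  let v : ℂ × Fin n → (Fin n → ℂ) := fun x l => coeff (single l 1) (S h (Pi.single x.1 1) (X x.2))
  let s : Set (Fin n → ℂ) := {w | ∃ x : ℂ × Fin n, x.1 ∈ Λ ∧ v x = w}
  have hspan : Submodule.span ℂ s = ⊤ := by
    rw [eq_top_iff, ← (Pi.basisFun ℂ (Fin n)).span_eq, Submodule.span_le]
    rintro _ ⟨j, rfl⟩
    have h1 : q n 2 (∑ μ ∈ Λ, S h (Pi.single μ 1) (X j)) = q n 2 (X j) := by
      rw [map_sum]
      simp only [q_S]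
      exact funcal_sum (Tk h 2).toLinearMap Λ (by
        intro γ hγ
        rw [hΛ, Set.Finite.mem_toFinset]
        exact hγ) (q n 2 (X j))
    rw [q_eq] at h1
    have h2 : (Pi.basisFun ℂ (Fin n)) j = ∑ μ ∈ Λ, v (μ, j) := by
      ext l
      have h3 := coeff_lin_congr h1 l
      rw [map_sum] at h3
      rw [Finset.sum_apply]
      show _ = ∑ μ ∈ Λ, coeff (single l 1) (S h (Pi.single μ 1) (X j))
      rw [h3, coeff_X, Pi.basisFun_apply, Pi.single_apply]
      by_cases hjl : l = j
      · subst hjl; simp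
      · rw [if_neg hjl, if_neg]
        intro h4
        exact hjl (Finsupp.single_left_injective one_ne_zero h4)
    rw [h2]
    apply Submodule.sum_mem
    intro μ hμ
    exact Submodule.subset_span ⟨(μ, j), hμ, rfl⟩
  obtain ⟨b, hbs, -, hbi⟩ := Submodule.exists_fun_fin_finrank_span_eq ℂ s
  have hrank : Module.finrank ℂ (Submodule.span ℂ s) = n := by
    rw [hspan, finrank_top]
    simp
  let e : Fin n ≃ Fin (Module.finrank ℂ (Submodule.span ℂ s)) := finCongr hrank.symm
  have hbi' : LinearIndependent ℂ (fun i => b (e i)) := hbi.comp e e.injective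
  choose x hx using fun i => hbs (e i)
  let φ : FMap n :=
    { toFun := fun i => S h (Pi.single (x i).1 1) (X (x i).2)
      const := by
        intro i
        rw [← mem_J_one]
        apply S_J
        rw [mem_J_one]
        simp
      det := by
        have : lin (fun i => S h (Pi.single (x i).1 1) (X (x i).2)) =
            Matrix.of (fun i => b (e i)) := by
          ext i j
          rw [Matrix.of_apply, ← (hx i).2]
          rfl
        rw [this]
        exact row_ne_zero hbi' }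
  refine ⟨φ, fun i => (x i).1, fun i => hΛ0 _ (hx i).1, ?_⟩
  intro c i
  show S h c (S h (Pi.single (x i).1 1) (X (x i).2)) = c (x i).1 • S h (Pi.single (x i).1 1) (X (x i).2)
  rw [S_S, ← S_const_mul]
  congr 1
  funext γ
  by_cases hγ : γ = (x i).1
  · rw [hγ]
  · rw [Pi.single_eq_of_ne hγ, mul_zero, mul_zero]

/-! ### diagonal maps -/

/-- the diagonal linear map `(a_1 X_1, ..., a_n X_n)` -/
noncomputable def diag (a : Fin n → ℂˣ) : FMap n where
  toFun := fun i => (a i : ℂ) • (X i : MvPowerSeries (Fin n) ℂ)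
  const := by intro i; simp
  det := by
    have : lin (fun i => (a i : ℂ) • (X i : Ser n)) = Matrix.diagonal (fun i => (a i : ℂ)) := by
      ext i j
      unfold lin
      rw [map_smul, coeff_X, Matrix.diagonal_apply]
      by_cases h : i = j
      · subst h; simp
      · rw [if_neg h, if_neg, smul_zero]
        intro h1
        exact h (Finsupp.single_left_injective one_ne_zero h1).symm
    rw [this, Matrix.det_diagonal]
    exact Finset.prod_ne_zero_iff.2 fun i _ => (a i).ne_zero

theorem diag_mul_toFun (a : Fin n → ℂˣ) (f : FMap n) (i : Fin n) :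
    (diag a * f).toFun i = (a i : ℂ) • f.toFun i := by
  rw [mul_toFun]
  show subst f.toFun ((a i : ℂ) • (X i : Ser n)) = _
  rw [← T_apply, map_smul, T_X]

theorem diag_mul (a b : Fin n → ℂˣ) : (diag a * diag b : FMap n) = diag (a * b) := by
  apply FMap.ext'
  intro i
  rw [diag_mul_toFun]
  show (a i : ℂ) • ((b i : ℂ) • (X i : Ser n)) = ((a i * b i : ℂˣ) : ℂ) • (X i : Ser n)
  rw [smul_smul, Units.val_mul]

theorem diag_one : (diag 1 : FMap n) = 1 := by
  apply FMap.ext'
  intro i
  rw [one_toFun]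
  show ((1 : ℂˣ) : ℂ) • (X i : Ser n) = X i
  simp

/-- `diag` as a homomorphism -/
noncomputable def diagHom : (Fin n → ℂˣ) →* FMap n where
  toFun := diag
  map_one' := diag_one
  map_mul' := fun a b => (diag_mul a b).symm

theorem diag_pow (a : Fin n → ℂˣ) (m : ℕ) : (diag a : FMap n) ^ m = diag (a ^ m) :=
  (map_pow diagHom a m).symm

theorem diag_inv (a : Fin n → ℂˣ) : (diag a : FMap n)⁻¹ = diag (a⁻¹) :=
  (map_inv diagHom a).symm

/-- multiplicative functional calculus is substitution by a diagonalisable map -/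
theorem exists_sigma (h : FMap n) : ∃ (φ : FMap n) (γ : Fin n → ℂˣ), ∀ (c : ℂ → ℂ)
    (a : Fin n → ℂˣ), (∀ x y, c (x * y) = c x * c y) → c 1 = 1 → (∀ i, c (γ i : ℂ) = a i) →
      ∀ p, T (φ⁻¹ * diag a * φ) p = S h c p := by
  obtain ⟨φ, γ, hγ, hφ⟩ := exists_coords h
  refine ⟨φ, fun i => Units.mk0 (γ i) (hγ i), ?_⟩
  intro c a hc hc1 ha p
  have key : ∀ r, S h c (T φ r) = T (diag a * φ) r := by
    intro r
    have h1 := eq_subst ((Salg h c hc hc1).comp (T φ)) (by
      intro k p hp
      exact S_J h c (T_J φ hp)) r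
    have h2 : ((Salg h c hc hc1).comp (T φ)) r = S h c (T φ r) := rfl
    rw [h2] at h1
    rw [h1, T_apply]
    congr 1
    funext i
    show S h c (T φ (X i)) = _
    rw [T_X, hφ, diag_mul_toFun, ← ha]
    rfl
  rw [mul_assoc, T_mul, ← key, T_T_inv]

/-! ### the reversing relation -/

theorem S_reverse {f h : FMap n} (hrev : h * f * h⁻¹ = f⁻¹) (c : ℂ → ℂ)
    (hneg : ∀ x, c (-x) = - c x) (p : Ser n) : S h c (T f p) = T f⁻¹ (S h c p) := by
  have e1 : h * f = f⁻¹ * h := by
    rw [← hrev]; group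
  have e2 : h * f⁻¹ = f * h := by
    have := congrArg (·⁻¹) hrev
    simp only [mul_inv_rev, inv_inv] at this
    calc h * f⁻¹ = (h * (f⁻¹ * h⁻¹)) * h := by group
      _ = f * h := by rw [this]
  have t1 : ∀ p, T f (T h p) = T h (T f⁻¹ p) := by
    intro p; rw [← T_mul, e1, T_mul]
  have t2 : ∀ p, T f⁻¹ (T h p) = T h (T f p) := by
    intro p; rw [← T_mul, e2, T_mul]
  apply ext_q
  intro k
  rw [q_S, ← Tk_q f, ← Tk_q f⁻¹, q_S]
  set v := q n k p with hv
  have s1 : ∀ w, Tk f k (Tk h k w) = Tk h k (Tk f⁻¹ k w) := by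
    intro w
    obtain ⟨r, rfl⟩ := q_surj n k w
    rw [Tk_q, Tk_q, Tk_q, Tk_q, t1]
  have s2 : ∀ w, Tk f⁻¹ k (Tk h k w) = Tk h k (Tk f k w) := by
    intro w
    obtain ⟨r, rfl⟩ := q_surj n k w
    rw [Tk_q, Tk_q, Tk_q, Tk_q, t2]
  have c1 := funcal_natural (Tk h k).toLinearMap (Tk h k).toLinearMap
    ((Tk f k).toLinearMap + (Tk f⁻¹ k).toLinearMap) (by
      intro w
      simp only [LinearMap.add_apply, AlgHom.toLinearMap_apply, map_add]
      rw [s1, s2, add_comm]) c v
  have c2 := funcal_intertwine (Tk h k).toLinearMap (Tk h k).toLinearMap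
    ((Tk f k).toLinearMap - (Tk f⁻¹ k).toLinearMap) (-1) (-1) (by
      intro w
      simp only [LinearMap.sub_apply, AlgHom.toLinearMap_apply, map_sub]
      rw [s1, s2]
      simp) c (by intro x; rw [neg_one_mul, hneg]; ring) v
  simp only [LinearMap.add_apply, LinearMap.sub_apply, AlgHom.toLinearMap_apply, map_add,
    map_sub, neg_smul, one_smul] at c1 c2
  have c3 : (2 : ℂ) • funcal (Tk h k).toLinearMap c (Tk f k v) =
      (2 : ℂ) • Tk f⁻¹ k (funcal (Tk h k).toLinearMap c v) := by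
    rw [two_smul, two_smul]
    have := congrArg₂ (· + ·) c1 c2
    have e3 : ∀ a b x y : Q n k, (a + b) + (a - b) = (x + y) + -(x - y) → a + a = y + y := by
      intro a b x y h
      have h1 : (a + b) + (a - b) = a + a := by ring
      have h2 : (x + y) + -(x - y) = y + y := by ring
      rw [← h1, h, h2]
    exact e3 _ _ _ _ this
  exact smul_right_injective _ (two_ne_zero) c3

/-! ### a character of `ℂˣ` with torsion values and value `-1` at `-1` -/

theorem exists_character : ∃ τ : ℂ → ℂ, (∀ x y, τ (x * y) = τ x * τ y) ∧ τ 1 = 1 ∧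
    τ (-1) = -1 ∧ ∀ x, x ≠ 0 → ∃ N : ℕ, 0 < N ∧ τ x ^ N = 1 := by
  classical
  have hne : (Additive.ofMul (-1 : ℂˣ)) ≠ 0 := by
    intro h
    have h1 : (-1 : ℂˣ) = 1 := h
    have h2 : ((-1 : ℂˣ) : ℂ) = 1 := by rw [h1]; rfl
    norm_num at h2
  obtain ⟨χ, hχ⟩ := CharacterModule.exists_character_apply_ne_zero_of_ne_zero hne
  let E0 : ℚ →+ Additive ℂˣ :=
    { toFun := fun x => Additive.ofMul (Units.mk0 (Complex.exp (2 * Real.pi * Complex.I * (x : ℂ)))
        (Complex.exp_ne_zero _))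
      map_zero' := by
        apply Additive.toMul.injective
        ext
        simp
      map_add' := by
        intro x y
        apply Additive.toMul.injective
        ext
        simp [← Complex.exp_add, mul_add] }
  have hE0 : ∀ x : ℚ, ((Additive.toMul (E0 x) : ℂˣ) : ℂ) = Complex.exp (2 * Real.pi * Complex.I * (x : ℂ)) :=
    fun x => rfl
  have hker : ∀ x ∈ AddSubgroup.zmultiples (1 : ℚ), E0 x = 0 := by
    intro x hx
    obtain ⟨m, rfl⟩ := AddSubgroup.mem_zmultiples_iff.1 hx
    apply Additive.toMul.injective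
    ext
    rw [hE0]
    have : (2 * Real.pi * Complex.I * ((m • (1 : ℚ) : ℚ) : ℂ)) = m * (2 * Real.pi * Complex.I) := by
      push_cast
      simp
      ring
    rw [this, Complex.exp_int_mul_two_pi_mul_I]
    rfl
  let E : AddCircle (1 : ℚ) →+ Additive ℂˣ := QuotientAddGroup.lift _ E0 hker
  have hE : ∀ x : ℚ, E (x : AddCircle (1 : ℚ)) = E0 x := fun x => rfl
  let τ : ℂˣ → ℂˣ := fun x => Additive.toMul (E (χ (Additive.ofMul x)))
  have hτmul : ∀ x y, τ (x * y) = τ x * τ y := by
    intro x y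
    show Additive.toMul (E (χ (Additive.ofMul (x * y)))) = _
    rw [ofMul_mul, map_add, map_add, toMul_add]
  have hτ1 : τ 1 = 1 := by
    show Additive.toMul (E (χ (Additive.ofMul 1))) = _
    rw [ofMul_one, map_zero, map_zero, toMul_zero]
  have htors : ∀ x, ∃ N : ℕ, 0 < N ∧ τ x ^ N = 1 := by
    intro x
    obtain ⟨r, hr⟩ := QuotientAddGroup.mk_surjective (χ (Additive.ofMul x))
    refine ⟨r.den, r.den_pos, ?_⟩
    have h0 : τ x = Additive.toMul (E0 r) := by
      show Additive.toMul (E (χ (Additive.ofMul x))) = _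
      rw [← hr]
      rfl
    rw [h0]
    ext
    rw [Units.val_pow_eq_pow_val, hE0, ← Complex.exp_nat_mul]
    have e : ((r.den : ℂ) * (2 * Real.pi * Complex.I * (r : ℂ))) = r.num * (2 * Real.pi * Complex.I) := by
      have h1 : (r : ℂ) * (r.den : ℂ) = (r.num : ℂ) := by
        have := Rat.mul_den_eq_num r
        exact_mod_cast this
      linear_combination (2 * Real.pi * Complex.I) * h1
    rw [e, Complex.exp_int_mul_two_pi_mul_I]
    rfl
  have hτneg : τ (-1) = -1 := by
    obtain ⟨r, hr⟩ := QuotientAddGroup.mk_surjective (χ (Additive.ofMul (-1 : ℂˣ)))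
    have hsq : τ (-1) * τ (-1) = 1 := by
      rw [← hτmul]; simp [hτ1]
    have hval : ((τ (-1) : ℂˣ) : ℂ) = Complex.exp (2 * Real.pi * Complex.I * (r : ℂ)) := by
      show ((Additive.toMul (E (χ (Additive.ofMul (-1 : ℂˣ)))) : ℂˣ) : ℂ) = _
      rw [← hr]
      rfl
    have hne1 : ((τ (-1) : ℂˣ) : ℂ) ≠ 1 := by
      rw [hval]
      intro h
      rw [Complex.exp_eq_one_iff] at h
      obtain ⟨m, hm⟩ := h
      have h1 : (r : ℂ) = (m : ℂ) := by
        have h2 : (2 * Real.pi * Complex.I : ℂ) ≠ 0 := Complex.two_pi_I_ne_zero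
        have h3 : (2 * Real.pi * Complex.I : ℂ) * (r : ℂ) = (2 * Real.pi * Complex.I : ℂ) * (m : ℂ) := by
          rw [hm]; ring
        exact mul_left_cancel₀ h2 h3
      have h4 : r = (m : ℚ) := by exact_mod_cast h1
      apply hχ
      rw [← hr, h4]
      show ((m : ℚ) : AddCircle (1 : ℚ)) = 0
      rw [AddCircle.coe_eq_zero_iff]
      exact ⟨m, by simp⟩
    have h5 : ((τ (-1) : ℂˣ) : ℂ) * ((τ (-1) : ℂˣ) : ℂ) = 1 := by
      rw [← Units.val_mul, hsq]; rfl
    ext
    rcases mul_self_eq_one_iff.1 h5 with h | h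
    · exact absurd h hne1
    · rw [h]; simp
  refine ⟨fun x => if hx : x = 0 then 0 else (τ (Units.mk0 x hx) : ℂ), ?_, ?_, ?_, ?_⟩
  · intro x y
    by_cases hx : x = 0
    · simp [hx]
    by_cases hy : y = 0
    · simp [hy]
    dsimp only
    rw [dif_neg hx, dif_neg hy, dif_neg (mul_ne_zero hx hy), ← Units.val_mul, ← hτmul]
    congr 2
    ext
    simp
  · dsimp only
    rw [dif_neg one_ne_zero]
    have : Units.mk0 (1 : ℂ) one_ne_zero = 1 := by ext; simp
    rw [this, hτ1]; rfl
  · have hne' : (-1 : ℂ) ≠ 0 := by norm_num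
    dsimp only
    rw [dif_neg hne']
    have : Units.mk0 (-1 : ℂ) hne' = -1 := by ext; simp
    rw [this, hτneg]; simp
  · intro x hx
    obtain ⟨N, hN, h⟩ := htors (Units.mk0 x hx)
    refine ⟨N, hN, ?_⟩
    dsimp only
    rw [dif_neg hx, ← Units.val_pow_eq_pow_val, h]
    rfl

end Pool.Agent.Lib_helper12.FormalMaps
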