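import Mathlib
import Pool.Agent.Lib_helper12.Reversers

/-!
# Reversers of 2-power order, linearisation of maps of finite order, and normal forms
-/

namespace Pool.Agent.Lib_helper12.FormalMaps

open MvPowerSeries Finsupp FunCalc

variable {n : ℕ}

theorem funcal_id_of_pow_eq_one {V : Type*} [AddCommGroup V] [Module ℂ V] [FiniteDimensional ℂ V]
    (T : Module.End ℂ V) (N : ℕ) (hN : 0 < N) (hT : T ^ N = 1) (v : V) :
    funcal T (fun x => x) v = T v := by
  have key : funcal T (fun x => x) = T := by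
    apply ext_gen T
    intro γ v hv
    rw [funcal_apply T _ γ v hv]
    have hss : T.IsSemisimple := by
      apply Module.End.isSemisimple_of_squarefree_aeval_eq_zero
        (p := (Polynomial.X ^ N - Polynomial.C 1 : Polynomial ℂ))
      · exact (Polynomial.separable_X_pow_sub_C (1 : ℂ) (by exact_mod_cast hN.ne')
          one_ne_zero).squarefree
      · simp [hT]
    have h1 := hss.isFinitelySemisimple.maxGenEigenspace_eq_eigenspace γ
    rw [h1, Module.End.mem_eigenspace_iff] at hv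
    exact hv.symm
  rw [key]

theorem Tk_mul (f g : FMap n) (k : ℕ) (w : Q n k) : Tk (f * g) k w = Tk g k (Tk f k w) := by
  obtain ⟨r, rfl⟩ := q_surj n k w
  rw [Tk_q, Tk_q, Tk_q, T_mul]

theorem Tk_pow (g : FMap n) (k N : ℕ) (w : Q n k) :
    Tk (g ^ N) k w = ((Tk g k).toLinearMap ^ N : Module.End ℂ (Q n k)) w := by
  induction N generalizing w with
  | zero =>
    obtain ⟨r, rfl⟩ := q_surj n k w
    rw [pow_zero, pow_zero, Tk_q, T_one', Module.End.one_apply]
  | succ N ih =>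
    rw [pow_succ, Tk_mul, ih, pow_succ', Module.End.mul_apply]
    rfl

theorem S_id_of_pow_eq_one (g : FMap n) (N : ℕ) (hN : 0 < N) (hg : g ^ N = 1) (p : Ser n) :
    S g (fun x => x) p = T g p := by
  apply ext_q
  intro k
  have hT : ((Tk g k).toLinearMap : Module.End ℂ (Q n k)) ^ N = 1 := by
    apply LinearMap.ext
    intro w
    rw [← Tk_pow, hg]
    obtain ⟨r, rfl⟩ := q_surj n k w
    rw [Tk_q, T_one', Module.End.one_apply]
  rw [q_S, funcal_id_of_pow_eq_one _ N hN hT, AlgHom.toLinearMap_apply, Tk_q]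

theorem diag_injective {a b : Fin n → ℂˣ} (h : (diag a : FMap n) = diag b) : a = b := by
  funext i
  have h1 : (diag a : FMap n).toFun i = (diag b : FMap n).toFun i := by rw [h]
  have h2 : (a i : ℂ) • (X i : Ser n) = (b i : ℂ) • (X i : Ser n) := h1
  have h3 := congrArg (coeff (single i 1)) h2
  rw [map_smul, map_smul, coeff_X, if_pos rfl] at h3
  ext
  simpa using h3

/-- formally invertible maps of finite order are conjugate to diagonal linear maps -/
theorem linearise (g : FMap n) (N : ℕ) (hN : 0 < N) (hg : g ^ N = 1) :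
    ∃ (ψ : FMap n) (z : Fin n → ℂˣ), (∀ i, z i ^ N = 1) ∧ g = ψ⁻¹ * diag z * ψ := by
  obtain ⟨φ, γ, hφ⟩ := exists_sigma g
  have h1 : φ⁻¹ * diag γ * φ = g := by
    apply eq_of_T
    intro p
    rw [hφ (fun x => x) γ (fun _ _ => rfl) rfl (fun _ => rfl) p]
    exact S_id_of_pow_eq_one g N hN hg p
  refine ⟨φ, γ, ?_, h1.symm⟩
  have h2 : diag γ ^ N = (1 : FMap n) := by
    have : diag γ = φ * g * φ⁻¹ := by rw [← h1]; group
    rw [this, conj_pow, hg]; group
  rw [diag_pow, ← diag_one] at h2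
  have h3 := diag_injective h2
  intro i
  exact congrFun h3 i

theorem odd_pow_reverse {G : Type*} [Group G] {f σ : G} (h : σ * f * σ⁻¹ = f⁻¹) (m : ℕ)
    (hm : Odd m) : σ ^ m * f * (σ ^ m)⁻¹ = f⁻¹ := by
  have h2 : ∀ j : ℕ, σ ^ (2 * j) * f * (σ ^ (2 * j))⁻¹ = f := by
    intro j
    induction j with
    | zero => simp
    | succ j ih =>
      have e : σ ^ (2 * (j + 1)) = σ * σ * σ ^ (2 * j) := by
        rw [← pow_two, ← pow_add]; congr 1; ring
      have e2 : σ * σ * f * (σ * σ)⁻¹ = f := by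
        have : σ * f⁻¹ * σ⁻¹ = f := by
          have := congrArg (·⁻¹) h
          simp only [mul_inv_rev, inv_inv] at this
          rw [← mul_assoc] at this
          exact this
        calc σ * σ * f * (σ * σ)⁻¹ = σ * (σ * f * σ⁻¹) * σ⁻¹ := by group
          _ = f := by rw [h, this]
      calc σ ^ (2 * (j + 1)) * f * (σ ^ (2 * (j + 1)))⁻¹
          = σ * σ * (σ ^ (2 * j) * f * (σ ^ (2 * j))⁻¹) * (σ * σ)⁻¹ := by rw [e]; group
        _ = f := by rw [ih, e2]
  obtain ⟨j, rfl⟩ := hm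
  calc σ ^ (2 * j + 1) * f * (σ ^ (2 * j + 1))⁻¹
      = σ * (σ ^ (2 * j) * f * (σ ^ (2 * j))⁻¹) * σ⁻¹ := by rw [pow_succ']; group
    _ = f⁻¹ := by rw [h2, h]

/-- Every reversible formally invertible map is reversed by a conjugate of a diagonal linear
map whose entries are roots of unity of 2-power order. -/
theorem reverser {f h : FMap n} (hrev : h * f * h⁻¹ = f⁻¹) :
    ∃ (φ : FMap n) (a : Fin n → ℂˣ), (∃ k : ℕ, ∀ i, a i ^ 2 ^ k = 1) ∧
      (φ⁻¹ * diag a * φ) * f * (φ⁻¹ * diag a * φ)⁻¹ = f⁻¹ := by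
  obtain ⟨τ, hτmul, hτ1, hτneg, hτtors⟩ := exists_character
  obtain ⟨φ, γ, hφ⟩ := exists_sigma h
  have hτne : ∀ x : ℂ, x ≠ 0 → τ x ≠ 0 := by
    intro x hx h0
    obtain ⟨N, hN, hN1⟩ := hτtors x hx
    rw [h0, zero_pow hN.ne'] at hN1
    exact zero_ne_one hN1
  let a : Fin n → ℂˣ := fun i => Units.mk0 (τ (γ i)) (hτne _ (γ i).ne_zero)
  have ha : ∀ i, ∃ N : ℕ, 0 < N ∧ a i ^ N = 1 := by
    intro i
    obtain ⟨N, hN, h1⟩ := hτtors (γ i) (γ i).ne_zero
    refine ⟨N, hN, ?_⟩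
    ext
    rw [Units.val_pow_eq_pow_val]
    exact h1
  set σ : FMap n := φ⁻¹ * diag a * φ with hσ
  have hσS : ∀ p, T σ p = S h τ p := fun p => hφ τ a hτmul hτ1 (fun _ => rfl) p
  have hneg : ∀ x, τ (-x) = - τ x := by
    intro x
    rw [show -x = (-1) * x by ring, hτmul, hτneg]; ring
  have hrevσ : σ * f * σ⁻¹ = f⁻¹ := by
    have h1 : f * σ = σ * f⁻¹ := by
      apply eq_of_T
      intro p
      rw [T_mul f σ, T_mul σ f⁻¹, hσS, hσS]
      exact S_reverse hrev τ hneg p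
    have h2 : σ⁻¹ * f * σ = f⁻¹ := by
      calc σ⁻¹ * f * σ = σ⁻¹ * (f * σ) := by group
        _ = f⁻¹ := by rw [h1]; group
    calc σ * f * σ⁻¹ = σ * (σ⁻¹ * f * σ)⁻¹ * σ⁻¹ := by rw [h2, inv_inv]
      _ = f⁻¹ := by group
  -- reduce to 2-power order
  choose N hN hN1 using ha
  set M : ℕ := ∏ i, N i with hM
  have hMpos : 0 < M := Finset.prod_pos fun i _ => hN i
  have haM : ∀ i, a i ^ M = 1 := by
    intro i
    obtain ⟨r, hr⟩ := Finset.dvd_prod_of_mem N (Finset.mem_univ i)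
    rw [hM, hr, pow_mul, hN1, one_pow]
  obtain ⟨k, m, hm, hkm⟩ := Nat.exists_eq_two_pow_mul_odd hMpos.ne'
  refine ⟨φ, a ^ m, ⟨k, ?_⟩, ?_⟩
  · intro i
    rw [Pi.pow_apply, ← pow_mul, mul_comm m, ← hkm, haM]
  · have h3 : φ⁻¹ * diag (a ^ m) * φ = σ ^ m := by
      have h4 := conj_pow (i := m) (a := φ⁻¹) (b := diag a)
      rw [inv_inv] at h4
      rw [← diag_pow, hσ, h4]
    rw [h3]
    exact odd_pow_reverse hrevσ m hm

/-- coefficients of `θ ∘ diag a` -/
theorem coeff_mul_diag (θ : FMap n) (a : Fin n → ℂˣ) (i : Fin n) (d : Fin n →₀ ℕ) :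
    coeff d ((θ * diag a).toFun i) = (∏ j, ((a j : ℂ)) ^ d j) * coeff d (θ.toFun i) := by
  rw [mul_toFun]
  have h1 : subst (diag a).toFun (θ.toFun i) = rescale (fun j => (a j : ℂ)) (θ.toFun i) := by
    rw [rescale_eq_subst]
    rfl
  rw [h1, coeff_rescale]
  congr 1
  rw [Finsupp.prod_fintype]
  intro j
  rw [pow_zero]

theorem commute_iff (θ : FMap n) (a b : Fin n → ℂˣ) :
    θ * diag a = diag b * θ ↔ ∀ (i : Fin n) (d : Fin n →₀ ℕ), coeff d (θ.toFun i) ≠ 0 →
      ∏ j, a j ^ d j = b i := by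
  constructor
  · intro h i d hd
    have h1 : coeff d ((θ * diag a).toFun i) = coeff d ((diag b * θ).toFun i) := by rw [h]
    rw [coeff_mul_diag, diag_mul_toFun, map_smul, smul_eq_mul] at h1
    have h2 := mul_right_cancel₀ hd h1
    ext
    rw [← h2, Units.coe_prod]
    simp
  · intro h
    apply FMap.ext'
    intro i
    ext d
    rw [coeff_mul_diag, diag_mul_toFun, map_smul, smul_eq_mul]
    by_cases hd : coeff d (θ.toFun i) = 0
    · rw [hd, mul_zero, mul_zero]
    · rw [← h i d hd, Units.coe_prod]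
      simp

end Pool.Agent.Lib_helper12.FormalMaps
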