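import Mathlib
open Filter Topology Polynomial Module
open scoped ComplexConjugate

namespace Pool.Agent.Lib_helper12.Orbit

variable {V : Type*} [AddCommGroup V] [Module ℂ V]

theorem ker_pow_le (N : End ℂ V) (h : LinearMap.ker (N ^ 2) = LinearMap.ker N) (n : ℕ) (v : V)
    (hv : (N ^ n) v = 0) : N v = 0 := by
  induction n with
  | zero => simp at hv; simp [hv]
  | succ n ih =>
    cases n with
    | zero => simpa using hv
    | succ m =>
      apply ih
      have h1 : (N ^ m) v ∈ LinearMap.ker (N ^ 2) := by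
        rw [LinearMap.mem_ker, ← Module.End.mul_apply, ← pow_add, add_comm 2 m]
        exact hv
      rw [h, LinearMap.mem_ker, ← Module.End.mul_apply, ← pow_succ'] at h1
      exact h1

theorem pow_apply_eq (T : End ℂ V) (μ : ℂ) (n : ℕ) (v : V)
    (hv : ((T - μ • (1 : End ℂ V)) ^ n) v = 0) (k : ℕ) :
    (T ^ k) v = ∑ j ∈ Finset.range n,
      ((k.choose j : ℂ) * μ ^ (k - j)) • ((T - μ • (1 : End ℂ V)) ^ j) v := by
  set N := T - μ • (1 : End ℂ V) with hN
  have hT : T = N + μ • (1 : End ℂ V) := by rw [hN]; abel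
  have hcomm : Commute N (μ • (1 : End ℂ V)) := by
    show N * (μ • (1 : End ℂ V)) = (μ • (1 : End ℂ V)) * N
    simp
  have hz : ∀ j, n ≤ j → (N ^ j) v = 0 := by
    intro j hj
    obtain ⟨i, rfl⟩ := Nat.exists_eq_add_of_le hj
    rw [add_comm, pow_add, Module.End.mul_apply, hv, map_zero]
  have h1 : (T ^ k) v = ∑ j ∈ Finset.range (k + 1),
      ((k.choose j : ℂ) * μ ^ (k - j)) • (N ^ j) v := by
    conv_lhs => rw [hT, hcomm.add_pow]
    rw [LinearMap.sum_apply]
    refine Finset.sum_congr rfl fun j _ => ?_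
    rw [_root_.smul_pow, one_pow, Module.End.mul_apply, Module.End.mul_apply]
    have e1 : ((k.choose j : End ℂ V)) v = (k.choose j : ℂ) • v := by
      rw [Module.End.natCast_apply, Nat.cast_smul_eq_nsmul]
    rw [e1, map_smul, map_smul, LinearMap.smul_apply, Module.End.one_apply, map_smul, smul_smul]
  rw [h1]
  set G : ℕ → V := fun j => ((k.choose j : ℂ) * μ ^ (k - j)) • (N ^ j) v with hG
  have h2 : ∑ j ∈ Finset.range (k + 1), G j = ∑ j ∈ Finset.range (max (k + 1) n), G j := by
    refine Finset.sum_subset (Finset.range_subset_range.mpr (le_max_left _ _)) fun j _ hj => ?_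
    rw [Finset.mem_range, not_lt] at hj
    simp [hG, Nat.choose_eq_zero_of_lt (show k < j by omega)]
  have h3 : ∑ j ∈ Finset.range n, G j = ∑ j ∈ Finset.range (max (k + 1) n), G j := by
    refine Finset.sum_subset (Finset.range_subset_range.mpr (le_max_right _ _)) fun j _ hj => ?_
    rw [Finset.mem_range, not_lt] at hj
    simp [hG, hz j hj]
  rw [h2, h3]

/-- Bound for `choose k j * r ^ (k-j)`. -/
theorem exists_bound (μ : ℂ) (hμ : ‖μ‖ < 1) (j : ℕ) :
    ∃ M : ℝ, ∀ k : ℕ, ‖(k.choose j : ℂ) * μ ^ (k - j)‖ ≤ M := by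
  set r : ℝ := (‖μ‖ + 1) / 2 with hr
  have hr0 : 0 < r := by have := norm_nonneg μ; rw [hr]; linarith
  have hr1 : r < 1 := by rw [hr]; linarith
  have hμr : ‖μ‖ ≤ r := by rw [hr]; linarith
  have h1 := tendsto_pow_const_mul_const_pow_of_abs_lt_one j
    (show |r| < 1 by rw [abs_of_pos hr0]; exact hr1)
  obtain ⟨M, hM⟩ := h1.bddAbove_range
  have hM' : ∀ k : ℕ, (k : ℝ) ^ j * r ^ k ≤ M := fun k => hM ⟨k, rfl⟩
  have hM0 : 0 ≤ M := le_trans (by positivity) (hM' 0)
  refine ⟨M / r ^ j, fun k => ?_⟩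
  by_cases hkj : j ≤ k
  · rw [norm_mul, Complex.norm_natCast, norm_pow, le_div_iff₀ (by positivity)]
    have e : r ^ k = r ^ (k - j) * r ^ j := by rw [← pow_add]; congr 1; omega
    calc (k.choose j : ℝ) * ‖μ‖ ^ (k - j) * r ^ j ≤ (k : ℝ) ^ j * r ^ (k - j) * r ^ j := by
          gcongr
          exact_mod_cast Nat.choose_le_pow k j
      _ = (k : ℝ) ^ j * r ^ k := by rw [e]; ring
      _ ≤ M := hM' k
  · rw [Nat.choose_eq_zero_of_lt (by omega)]
    simp only [Nat.cast_zero, zero_mul, norm_zero]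
    positivity

/-- The part of the orbit sequence that is not bounded is an exponential polynomial supported on
the eigenvalues outside the closed unit disc or on the unit circle with a nontrivial Jordan
block. -/
theorem decomposition [FiniteDimensional ℂ V] (T : End ℂ V) (f : V →ₗ[ℂ] ℂ) (x : V)
    (L : Finset ℂ) (hL0 : ∀ μ ∈ L, μ ≠ 0)
    (hL : ∀ μ, T.HasEigenvalue μ → (1 < ‖μ‖ ∨ (‖μ‖ = 1 ∧
      LinearMap.ker ((T - μ • (1 : End ℂ V)) ^ 2) ≠ LinearMap.ker (T - μ • (1 : End ℂ V)))) →
      μ ∈ L) :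
    ∃ (P : ℂ → ℂ[X]) (M : ℝ) (B : ℕ → ℂ), (∀ k, ‖B k‖ ≤ M) ∧
      ∀ k : ℕ, f ((T ^ k) x) = ∑ μ ∈ L, μ ^ k * (P μ).eval (k : ℂ) + B k := by
  classical
  have hx : x ∈ ⨆ μ, T.maxGenEigenspace μ := by
    rw [Module.End.iSup_maxGenEigenspace_eq_top]; trivial
  refine Submodule.iSup_induction (fun μ => T.maxGenEigenspace μ)
    (motive := fun v => ∃ (P : ℂ → ℂ[X]) (M : ℝ) (B : ℕ → ℂ), (∀ k, ‖B k‖ ≤ M) ∧
      ∀ k : ℕ, f ((T ^ k) v) = ∑ μ ∈ L, μ ^ k * (P μ).eval (k : ℂ) + B k) hx ?_ ?_ ?_
  · intro μ v hv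
    rw [Module.End.mem_maxGenEigenspace] at hv
    obtain ⟨n, hn⟩ := hv
    set N := T - μ • (1 : End ℂ V) with hN
    by_cases hμL : μ ∈ L
    · -- polynomial part
      have hμ0 : μ ≠ 0 := hL0 μ hμL
      let P : ℂ[X] := ∑ j ∈ Finset.range n,
        C (f ((N ^ j) v) * (μ ^ j)⁻¹ * ((j.factorial : ℂ))⁻¹) * descPochhammer ℂ j
      refine ⟨fun ν => if ν = μ then P else 0, 0, fun _ => 0, fun _ => by simp, fun k => ?_⟩
      rw [add_zero, Finset.sum_eq_single μ]
      · dsimp only
        rw [if_pos rfl, pow_apply_eq T μ n v hn k, map_sum]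
        simp only [P, eval_finsetSum, eval_mul, eval_C, descPochhammer_eval_eq_descFactorial,
          Finset.mul_sum, map_smul, smul_eq_mul]
        refine Finset.sum_congr rfl fun j _ => ?_
        rw [Nat.descFactorial_eq_factorial_mul_choose]
        by_cases hjk : j ≤ k
        · have e : μ ^ k = μ ^ (k - j) * μ ^ j := by rw [← pow_add]; congr 1; omega
          have h1 : (j.factorial : ℂ) ≠ 0 := by exact_mod_cast j.factorial_ne_zero
          have h2 : μ ^ j ≠ 0 := pow_ne_zero _ hμ0
          rw [e]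
          push_cast
          field_simp
          rw [← hN]
        · rw [Nat.choose_eq_zero_of_lt (by omega)]
          simp
      · intro ν _ hν
        dsimp only
        rw [if_neg hν]; simp
      · intro h; exact absurd hμL h
    · -- bounded part
      by_cases hv0 : v = 0
      · refine ⟨fun _ => 0, 0, fun _ => 0, fun _ => by simp, fun k => ?_⟩
        simp [hv0]
      have heig : T.HasEigenvalue μ := by
        rw [Module.End.hasEigenvalue_iff, Module.End.eigenspace_def]
        intro hbot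
        have hinj : Function.Injective N := by
          rw [← LinearMap.ker_eq_bot]
          rw [hN]; exact hbot
        have hinj' : Function.Injective (N ^ n : End ℂ V) := by
          rw [Module.End.coe_pow]; exact hinj.iterate n
        exact hv0 (hinj' (by rw [hn, map_zero]))
      have hnot := mt (hL μ heig) hμL
      push Not at hnot
      obtain ⟨h1, h2⟩ := hnot
      rcases lt_or_eq_of_le h1 with hlt | heq
      · choose! M hM using exists_bound μ hlt
        refine ⟨fun _ => 0, ∑ j ∈ Finset.range n, M j * ‖f ((N ^ j) v)‖,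
          fun k => f ((T ^ k) v), fun k => ?_, fun k => by simp⟩
        dsimp only
        rw [pow_apply_eq T μ n v hn k, map_sum]
        refine (norm_sum_le _ _).trans (Finset.sum_le_sum fun j _ => ?_)
        rw [map_smul, smul_eq_mul, norm_mul]
        gcongr
        exact hM j k
      · have hker := h2 heq
        have hNv : N v = 0 := ker_pow_le N hker n v hn
        refine ⟨fun _ => 0, ‖f v‖, fun k => f ((T ^ k) v), fun k => ?_, fun k => by simp⟩
        have hTk := pow_apply_eq T μ 1 v (by rw [pow_one]; exact hNv) k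
        simp only [Finset.range_one, Finset.sum_singleton, Nat.choose_zero_right, Nat.cast_one,
          one_mul, Nat.sub_zero, pow_zero, Module.End.one_apply] at hTk
        dsimp only
        rw [hTk, map_smul, smul_eq_mul, norm_mul, norm_pow, heq, one_pow, one_mul]
  · refine ⟨fun _ => 0, 0, fun _ => 0, fun _ => by simp, fun k => ?_⟩
    simp
  · rintro v w ⟨P1, M1, B1, hB1, h1⟩ ⟨P2, M2, B2, hB2, h2⟩
    refine ⟨fun μ => P1 μ + P2 μ, M1 + M2, fun k => B1 k + B2 k,
      fun k => (norm_add_le _ _).trans (add_le_add (hB1 k) (hB2 k)), fun k => ?_⟩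
    rw [map_add, map_add, h1, h2]
    simp only [eval_add, mul_add, Finset.sum_add_distrib]
    ring

end Pool.Agent.Lib_helper12.Orbit
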