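import Mathlib
import Pool.Agent.Lib_helper12.NormalForm

/-!
# Reversible maps and pairs of linear maps

Every reversible map is conjugate to `s v K v⁻¹ K⁻¹` with `s` diagonal, `K` linear of 2-power order
and `v` commuting with `s` and `K²`.
-/

namespace Pool.Agent.Lib_helper12.FormalMaps

open MvPowerSeries Finsupp FunCalc

variable {n : ℕ}

/-! ### the semisimple part -/

theorem mem_gen_inv {V : Type*} [AddCommGroup V] [Module ℂ V]
    (T T' : Module.End ℂ V) (h : ∀ v, T' (T v) = v) (h' : ∀ v, T (T' v) = v) {γ : ℂ} (hγ : γ ≠ 0)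
    {v : V} (hv : v ∈ T.maxGenEigenspace γ) : v ∈ T'.maxGenEigenspace γ⁻¹ := by
  rw [Module.End.mem_maxGenEigenspace] at hv ⊢
  obtain ⟨N, hN⟩ := hv
  refine ⟨N, ?_⟩
  have e : T' - γ⁻¹ • (1 : Module.End ℂ V) = (-γ⁻¹) • (T' * (T - γ • (1 : Module.End ℂ V))) := by
    ext w
    simp only [LinearMap.sub_apply, LinearMap.smul_apply, Module.End.one_apply,
      Module.End.mul_apply, map_sub, h, map_smul, smul_sub, smul_smul]
    rw [neg_mul, inv_mul_cancel₀ hγ, neg_smul, neg_smul, one_smul]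
    abel
  have hc : Commute T' (T - γ • (1 : Module.End ℂ V)) := by
    ext w
    simp only [LinearMap.sub_apply, LinearMap.smul_apply, Module.End.one_apply,
      Module.End.mul_apply, map_sub, h, h', map_smul]
  rw [e, smul_pow, hc.mul_pow, LinearMap.smul_apply, Module.End.mul_apply, hN, map_zero, smul_zero]

theorem funcal_inv {V : Type*} [AddCommGroup V] [Module ℂ V] [FiniteDimensional ℂ V]
    (T T' : Module.End ℂ V) (h : ∀ v, T' (T v) = v) (h' : ∀ v, T (T' v) = v) (v : V) :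
    funcal T' (fun x => x) (funcal T (fun x => x) v) = v := by
  have key : (funcal T' (fun x => x)).comp (funcal T (fun x => x)) = LinearMap.id := by
    apply ext_gen T
    intro γ v hv
    rw [LinearMap.comp_apply, funcal_apply T _ γ v hv, map_smul, LinearMap.id_apply]
    by_cases hγ : γ = 0
    · have hv0 : v = 0 := by
        rw [hγ, Module.End.mem_maxGenEigenspace] at hv
        obtain ⟨N, hN⟩ := hv
        rw [zero_smul, sub_zero] at hN
        have hinj : Function.Injective T := Function.LeftInverse.injective h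
        have : ∀ N : ℕ, (T ^ N) v = 0 → v = 0 := by
          intro N
          induction N with
          | zero => intro h0; simpa using h0
          | succ N ih =>
            intro h0
            rw [pow_succ', Module.End.mul_apply] at h0
            exact ih (hinj (by rw [h0, map_zero]))
        exact this N hN
      rw [hv0, map_zero, smul_zero]
    · rw [funcal_apply T' _ _ v (mem_gen_inv T T' h h' hγ hv), smul_smul, mul_inv_cancel₀ hγ,
        one_smul]
  exact LinearMap.congr_fun key v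

theorem ker_add {V : Type*} [AddCommGroup V] [Module ℂ V] [FiniteDimensional ℂ V]
    (T : Module.End ℂ V) (hT : Function.Injective T) (w : V)
    (hw : T w + funcal T (fun x => x) w = 0) : w = 0 := by
  by_contra hne
  set R : Module.End ℂ V := T + funcal T (fun x => x) with hR
  have hcomm : ∀ v, R (T v) = T (R v) := by
    intro v
    rw [hR, LinearMap.add_apply, LinearMap.add_apply, map_add,
      funcal_natural T T T (fun _ => rfl)]
  have hmaps : ∀ v ∈ LinearMap.ker R, T v ∈ LinearMap.ker R := by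
    intro v hv
    rw [LinearMap.mem_ker] at hv ⊢
    rw [hcomm, hv, map_zero]
  have : Nontrivial (LinearMap.ker R) := by
    refine ⟨⟨⟨w, ?_⟩, 0, ?_⟩⟩
    · rw [LinearMap.mem_ker, hR, LinearMap.add_apply, hw]
    · intro h
      exact hne (congrArg Subtype.val h)
  obtain ⟨μ, hμ⟩ := Module.End.exists_eigenvalue (T.restrict hmaps)
  obtain ⟨v, hv, hv0⟩ := hμ.exists_hasEigenvector
  rw [Module.End.mem_eigenspace_iff] at hv
  have hv1 : T (v : V) = μ • (v : V) := congrArg Subtype.val hv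
  have hv2 : (v : V) ∈ T.maxGenEigenspace μ := by
    rw [Module.End.mem_maxGenEigenspace]
    refine ⟨1, ?_⟩
    rw [pow_one, LinearMap.sub_apply, LinearMap.smul_apply, Module.End.one_apply, hv1, sub_self]
  have hv3 : T (v : V) + funcal T (fun x => x) (v : V) = 0 := v.2
  rw [funcal_apply T _ μ _ hv2, hv1, ← two_smul ℂ, smul_smul] at hv3
  have hvne : (v : V) ≠ 0 := fun h => hv0 (Subtype.ext h)
  rcases smul_eq_zero.1 hv3 with h | h
  · have hμ0 : μ = 0 := by simpa using h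
    rw [hμ0, zero_smul] at hv1
    exact hvne (hT (by rw [hv1, map_zero]))
  · exact hvne h

theorem S_comm (f : FMap n) (c : ℂ → ℂ) (p : Ser n) : S f c (T f p) = T f (S f c p) := by
  apply ext_q
  intro k
  rw [q_S, ← Tk_q f, ← Tk_q f, q_S]
  exact funcal_natural (Tk f k).toLinearMap (Tk f k).toLinearMap (Tk f k).toLinearMap
    (fun _ => rfl) c (q n k p)

theorem Tk_inv_left (f : FMap n) (k : ℕ) (w : Q n k) : Tk f⁻¹ k (Tk f k w) = w := by
  obtain ⟨r, rfl⟩ := q_surj n k w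
  rw [Tk_q, Tk_q, T_inv_T]

theorem Tk_inv_right (f : FMap n) (k : ℕ) (w : Q n k) : Tk f k (Tk f⁻¹ k w) = w := by
  obtain ⟨r, rfl⟩ := q_surj n k w
  rw [Tk_q, Tk_q, T_T_inv]

theorem S_inv (f : FMap n) (p : Ser n) : S f⁻¹ (fun x => x) (S f (fun x => x) p) = p := by
  apply ext_q
  intro k
  rw [q_S, q_S]
  exact funcal_inv (Tk f k).toLinearMap (Tk f⁻¹ k).toLinearMap (Tk_inv_left f k)
    (Tk_inv_right f k) _

theorem S_conj {f h : FMap n} (hrev : h * f * h⁻¹ = f⁻¹) (c : ℂ → ℂ) (p : Ser n) :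
    S f c (T h p) = T h (S f⁻¹ c p) := by
  have e1 : h * f = f⁻¹ * h := by
    rw [← hrev]; group
  have t1 : ∀ p, T f (T h p) = T h (T f⁻¹ p) := by
    intro p; rw [← T_mul, e1, T_mul]
  apply ext_q
  intro k
  rw [q_S, ← Tk_q h, ← Tk_q h, q_S]
  exact funcal_natural (Tk f⁻¹ k).toLinearMap (Tk f k).toLinearMap (Tk h k).toLinearMap
    (by
      intro w
      obtain ⟨r, rfl⟩ := q_surj n k w
      simp only [AlgHom.toLinearMap_apply]
      rw [Tk_q, Tk_q, Tk_q, Tk_q, t1]) c (q n k p)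

/-- the semisimple part of `f` -/
theorem exists_semisimple (f : FMap n) : ∃ (φ : FMap n) (γ : Fin n → ℂˣ),
    ∀ p, T (φ⁻¹ * diag γ * φ) p = S f (fun x => x) p := by
  obtain ⟨φ, γ, hφ⟩ := exists_sigma f
  exact ⟨φ, γ, fun p => hφ (fun x => x) γ (fun _ _ => rfl) rfl (fun _ => rfl) p⟩

theorem semisimple_comm {f s : FMap n} (hs : ∀ p, T s p = S f (fun x => x) p) :
    s * f = f * s := by
  apply eq_of_T
  intro p
  rw [T_mul, T_mul, hs, hs, S_comm]

theorem semisimple_rev {f h s : FMap n} (hs : ∀ p, T s p = S f (fun x => x) p)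
    (hrev : h * f * h⁻¹ = f⁻¹) : h * s * h⁻¹ = s⁻¹ := by
  have h1 : h * s = s⁻¹ * h := by
    apply eq_of_T
    intro p
    rw [T_mul, T_mul, hs, S_conj hrev]
    congr 1
    have h2 := S_inv f (T s⁻¹ p)
    rw [← hs, T_T_inv] at h2
    exact h2
  rw [h1]; group

/-- no eigenvalue `-1` in the linear part -/
def NoNeg (u : FMap n) : Prop := ∀ p, T u⁻¹ p + p ∈ J n 2 → p ∈ J n 2

theorem noNeg_unipotent {f s : FMap n} (hs : ∀ p, T s p = S f (fun x => x) p) :
    NoNeg (s⁻¹ * f) := by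
  intro p hp
  have e : T (s⁻¹ * f)⁻¹ p = T s (T f⁻¹ p) := by
    rw [mul_inv_rev, inv_inv, T_mul]
  rw [e] at hp
  set r := T f⁻¹ p with hr
  have hpr : p = T f r := by rw [hr, T_T_inv]
  have h1 : q n 2 (T f r) + q n 2 (T s r) = 0 := by
    rw [← map_add, q_eq_zero, add_comm, ← hpr]
    exact hp
  rw [hs, q_S, ← Tk_q] at h1
  have h2 := ker_add (Tk f 2).toLinearMap (Tk_bij f 2).1 (q n 2 r) h1
  rw [hpr]
  exact T_J f (q_eq_zero.1 h2)

theorem NoNeg.conj {u : FMap n} (hu : NoNeg u) (g : FMap n) : NoNeg (g * u * g⁻¹) := by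
  intro p hp
  have e : T (g * u * g⁻¹)⁻¹ p = T g⁻¹ (T u⁻¹ (T g p)) := by
    have : (g * u * g⁻¹)⁻¹ = g * u⁻¹ * g⁻¹ := by group
    rw [this, T_mul, T_mul]
  rw [e] at hp
  have h1 := T_J g hp
  rw [map_add, T_T_inv] at h1
  exact T_inj_mod g (hu _ h1)

theorem mem_J_two {p : Ser n} (h0 : constantCoeff p = 0) (h1 : ∀ j, coeff (single j 1) p = 0) :
    p ∈ J n 2 := by
  have h2 := lin_decomp h0
  simpa [h1] using h2

/-! ### sums of maps -/

theorem mul_comb {ι : Type*} (s : Finset ι) (c : ι → ℂ) (F : ι → FMap n) (w g : FMap n)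
    (hw : ∀ i, w.toFun i = ∑ j ∈ s, c j • (F j).toFun i) (i : Fin n) :
    (w * g).toFun i = ∑ j ∈ s, c j • (F j * g).toFun i := by
  rw [mul_toFun, hw, ← T_apply, map_sum]
  refine Finset.sum_congr rfl fun j _ => ?_
  rw [map_smul, T_apply, ← mul_toFun]

/-- linear maps -/
def IsLin (A : FMap n) : Prop :=
  ∃ M : Matrix (Fin n) (Fin n) ℂ, ∀ i, A.toFun i = ∑ k, M i k • (X k : Ser n)

theorem lin_mul_toFun {A : FMap n} {M : Matrix (Fin n) (Fin n) ℂ}
    (hA : ∀ i, A.toFun i = ∑ k, M i k • (X k : Ser n)) (w : FMap n) (i : Fin n) :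
    (A * w).toFun i = ∑ k, M i k • w.toFun k := by
  rw [mul_toFun, hA, ← T_apply, map_sum]
  refine Finset.sum_congr rfl fun j _ => ?_
  rw [map_smul, T_X]

theorem IsLin.comb {A : FMap n} (hA : IsLin A) {ι : Type*} (s : Finset ι) (c : ι → ℂ)
    (F : ι → FMap n) (w : FMap n)
    (hw : ∀ i, w.toFun i = ∑ j ∈ s, c j • (F j).toFun i) (i : Fin n) :
    (A * w).toFun i = ∑ j ∈ s, c j • (A * F j).toFun i := by
  obtain ⟨M, hM⟩ := hA
  rw [lin_mul_toFun hM]
  simp only [hw, lin_mul_toFun hM, Finset.smul_sum]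
  rw [Finset.sum_comm]
  refine Finset.sum_congr rfl fun j _ => Finset.sum_congr rfl fun k _ => ?_
  rw [smul_comm]

theorem lin_mul (f g : FMap n) : lin (f * g).toFun = lin f.toFun * lin g.toFun :=
  lin_subst f.const g.const

theorem lin_one : lin (1 : FMap n).toFun = 1 := lin_X

theorem IsLin.eq {A : FMap n} (hA : IsLin A) (i : Fin n) :
    A.toFun i = ∑ k, lin A.toFun i k • (X k : Ser n) := by
  obtain ⟨M, hM⟩ := hA
  have h : lin A.toFun = M := by
    ext i j
    show coeff (single j 1) (A.toFun i) = _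
    rw [hM, map_sum, Finset.sum_eq_single j]
    · simp
    · intro b _ hb
      rw [map_smul, coeff_X, if_neg, smul_zero]
      intro h1
      exact hb (Finsupp.single_left_injective one_ne_zero h1).symm
    · simp
  rw [h]; exact hM i

theorem IsLin.ext {A B : FMap n} (hA : IsLin A) (hB : IsLin B) (h : lin A.toFun = lin B.toFun) :
    A = B := by
  apply FMap.ext'
  intro i
  rw [hA.eq, hB.eq, h]

theorem isLin_linMap (A : Matrix (Fin n) (Fin n) ℂ) (hA : A.det ≠ 0) : IsLin (linMap A hA) :=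
  ⟨A, fun _ => rfl⟩

theorem isLin_diag (a : Fin n → ℂˣ) : IsLin (diag a) := by
  refine ⟨Matrix.diagonal fun i => (a i : ℂ), fun i => ?_⟩
  rw [Finset.sum_eq_single i]
  · rw [Matrix.diagonal_apply_eq]; rfl
  · intro b _ hb
    rw [Matrix.diagonal_apply_ne _ hb.symm, zero_smul]
  · simp

theorem IsLin.mul {A B : FMap n} (hA : IsLin A) (hB : IsLin B) : IsLin (A * B) := by
  obtain ⟨M, hM⟩ := hA
  obtain ⟨M', hM'⟩ := hB
  refine ⟨M * M', fun i => ?_⟩
  rw [lin_mul_toFun hM]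
  simp only [hM', Finset.smul_sum, smul_smul, Matrix.mul_apply, Finset.sum_smul]
  rw [Finset.sum_comm]

theorem isLin_one : IsLin (1 : FMap n) := by
  rw [← diag_one]; exact isLin_diag _

theorem IsLin.pow {A : FMap n} (hA : IsLin A) (m : ℕ) : IsLin (A ^ m) := by
  induction m with
  | zero => rw [pow_zero]; exact isLin_one
  | succ m ih => rw [pow_succ]; exact ih.mul hA

theorem exists_linMap (f : FMap n) : ∃ A : FMap n, IsLin A ∧ lin A.toFun = lin f.toFun :=
  ⟨linMap _ f.det, isLin_linMap _ _, lin_linMap _ _⟩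

theorem IsLin.inv {A : FMap n} (hA : IsLin A) : IsLin A⁻¹ := by
  obtain ⟨B, hB, hB1⟩ := exists_linMap A⁻¹
  have h : A * B = 1 := (hA.mul hB).ext isLin_one (by
    rw [lin_mul, hB1, ← lin_mul, mul_inv_cancel])
  rw [inv_eq_of_mul_eq_one_right h]
  exact hB

/-! ### linearising a pair -/

/-- a map of finite order is conjugate to its linear part, by a map commuting with the linear maps
inverted by both -/
theorem average (h L : FMap n) (N : ℕ) (hN : 0 < N) (hh : h ^ N = 1) (hL : IsLin L)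
    (hLh : lin L.toFun = lin h.toFun) : L ^ N = 1 ∧ ∃ w : FMap n, w * h = L * w ∧
      ∀ s : FMap n, IsLin s → h * s * h⁻¹ = s⁻¹ → L * s * L⁻¹ = s⁻¹ → w * s = s * w := by
  have hpow : ∀ j : ℕ, lin (L ^ j).toFun = lin (h ^ j).toFun := by
    intro j
    induction j with
    | zero => rw [pow_zero, pow_zero]
    | succ j ih => rw [pow_succ, pow_succ, lin_mul, lin_mul, ih, hLh]
  have hLN : L ^ N = 1 := (hL.pow N).ext isLin_one (by rw [hpow, hh])
  refine ⟨hLN, ?_⟩
  have hlin : ∀ j : ℕ, lin ((L ^ j)⁻¹ * h ^ j).toFun = 1 := by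
    intro j
    rw [lin_mul, ← hpow, ← lin_mul, inv_mul_cancel, lin_one]
  have hNne : (N : ℂ) ≠ 0 := by exact_mod_cast hN.ne'
  let w0 : Fin n → Ser n := fun i =>
    ∑ j ∈ Finset.range N, (N : ℂ)⁻¹ • ((L ^ j)⁻¹ * h ^ j).toFun i
  have hw0 : lin w0 = 1 := by
    ext i k
    show coeff (single k 1) (∑ j ∈ Finset.range N, (N : ℂ)⁻¹ • ((L ^ j)⁻¹ * h ^ j).toFun i) = _
    rw [map_sum]
    have : ∀ j ∈ Finset.range N, coeff (single k 1) ((N : ℂ)⁻¹ • ((L ^ j)⁻¹ * h ^ j).toFun i) =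
        (N : ℂ)⁻¹ * (1 : Matrix (Fin n) (Fin n) ℂ) i k := by
      intro j _
      rw [map_smul, smul_eq_mul, ← hlin j]
      rfl
    rw [Finset.sum_congr rfl this, Finset.sum_const, Finset.card_range, nsmul_eq_mul, ← mul_assoc,
      mul_inv_cancel₀ hNne, one_mul]
  let w : FMap n :=
    { toFun := w0
      const := by
        intro i
        show constantCoeff (∑ j ∈ Finset.range N, (N : ℂ)⁻¹ • ((L ^ j)⁻¹ * h ^ j).toFun i) = 0
        rw [map_sum]
        refine Finset.sum_eq_zero fun j _ => ?_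
        have h1 := ((L ^ j)⁻¹ * h ^ j).const i
        rw [← coeff_zero_eq_constantCoeff_apply] at h1 ⊢
        rw [map_smul, h1, smul_zero]
      det := by rw [hw0, Matrix.det_one]; exact one_ne_zero }
  have hw : ∀ i, w.toFun i = ∑ j ∈ Finset.range N, (N : ℂ)⁻¹ • ((L ^ j)⁻¹ * h ^ j).toFun i :=
    fun _ => rfl
  refine ⟨w, ?_, ?_⟩
  · apply FMap.ext'
    intro i
    rw [mul_comb _ _ _ w h hw, hL.comb _ _ _ w hw]
    let b : ℕ → Ser n := fun j => (N : ℂ)⁻¹ • (L * ((L ^ j)⁻¹ * h ^ j)).toFun i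
    have e1 : ∀ j ∈ Finset.range N, (N : ℂ)⁻¹ • ((L ^ j)⁻¹ * h ^ j * h).toFun i = b (j + 1) := by
      intro j _
      have : (L ^ j)⁻¹ * h ^ j * h = L * ((L ^ (j + 1))⁻¹ * h ^ (j + 1)) := by
        rw [pow_succ, pow_succ]; group
      rw [this]
    rw [Finset.sum_congr rfl e1]
    have e2 : b N = b 0 := by
      show (N : ℂ)⁻¹ • (L * ((L ^ N)⁻¹ * h ^ N)).toFun i =
        (N : ℂ)⁻¹ • (L * ((L ^ 0)⁻¹ * h ^ 0)).toFun i
      rw [hLN, hh, pow_zero, pow_zero]
    have e3 := Finset.sum_range_succ b N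
    have e4 := Finset.sum_range_succ' b N
    rw [e3, e2] at e4
    exact (add_right_cancel e4).symm
  · intro s hs h1 h2
    apply FMap.ext'
    intro i
    rw [mul_comb _ _ _ w s hw, hs.comb _ _ _ w hw]
    refine Finset.sum_congr rfl fun j _ => ?_
    have key : ∀ j : ℕ, ∃ t : FMap n, (t = s ∨ t = s⁻¹) ∧ h ^ j * s = t * h ^ j ∧
        L ^ j * s = t * L ^ j := by
      intro j
      induction j with
      | zero => exact ⟨s, Or.inl rfl, by simp, by simp⟩
      | succ j ih =>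
        obtain ⟨t, ht, h3, h4⟩ := ih
        have h1' : h * s⁻¹ * h⁻¹ = s := by
          have := congrArg (·⁻¹) h1
          simp only [mul_inv_rev, inv_inv] at this
          rw [← mul_assoc] at this; exact this
        have h2' : L * s⁻¹ * L⁻¹ = s := by
          have := congrArg (·⁻¹) h2
          simp only [mul_inv_rev, inv_inv] at this
          rw [← mul_assoc] at this; exact this
        refine ⟨t⁻¹, ?_, ?_, ?_⟩
        · rcases ht with rfl | rfl
          · exact Or.inr rfl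
          · exact Or.inl (inv_inv s)
        · have : h * t = t⁻¹ * h := by
            rcases ht with rfl | rfl
            · rw [← h1]; group
            · rw [inv_inv]
              calc h * s⁻¹ = (h * s⁻¹ * h⁻¹) * h := by group
                _ = s * h := by rw [h1']
          rw [pow_succ', mul_assoc, h3, ← mul_assoc, this, mul_assoc]
        · have : L * t = t⁻¹ * L := by
            rcases ht with rfl | rfl
            · rw [← h2]; group
            · rw [inv_inv]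
              calc L * s⁻¹ = (L * s⁻¹ * L⁻¹) * L := by group
                _ = s * L := by rw [h2']
          rw [pow_succ', mul_assoc, h4, ← mul_assoc, this, mul_assoc]
    obtain ⟨t, -, h3, h4⟩ := key j
    have h5 : (L ^ j)⁻¹ * t = s * (L ^ j)⁻¹ := by
      rw [inv_mul_eq_iff_eq_mul, ← mul_assoc, h4, mul_assoc, mul_inv_cancel, mul_one]
    rw [mul_assoc, h3, ← mul_assoc, h5, mul_assoc]

/-- `w = (1 + u⁻¹) / 2` -/
theorem half (u : FMap n) (hu : NoNeg u) : ∃ w : FMap n, ∀ i, w.toFun i =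
    ∑ j : Fin 2, (2 : ℂ)⁻¹ • ((![1, u⁻¹] : Fin 2 → FMap n) j).toFun i := by
  let w0 : Fin n → Ser n := fun i =>
    ∑ j : Fin 2, (2 : ℂ)⁻¹ • ((![1, u⁻¹] : Fin 2 → FMap n) j).toFun i
  have hw0 : ∀ i, w0 i = (2 : ℂ)⁻¹ • ((X i : Ser n) + u⁻¹.toFun i) := by
    intro i
    show ∑ j : Fin 2, (2 : ℂ)⁻¹ • ((![1, u⁻¹] : Fin 2 → FMap n) j).toFun i = _
    rw [Fin.sum_univ_two, smul_add]
    rfl
  have hdet : (lin w0).det ≠ 0 := by
    intro hdet
    obtain ⟨x, hx0, hx⟩ := Matrix.exists_vecMul_eq_zero_iff.2 hdet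
    set p : Ser n := ∑ i, x i • (X i : Ser n) with hp
    have h1 : T u⁻¹ p + p = ∑ i, (2 * x i) • w0 i := by
      rw [hp, map_sum, ← Finset.sum_add_distrib]
      refine Finset.sum_congr rfl fun i _ => ?_
      rw [map_smul, T_X, hw0, smul_smul, mul_comm 2 (x i), mul_assoc,
        mul_inv_cancel₀ (two_ne_zero), mul_one, smul_add, add_comm]
    have h2 : T u⁻¹ p + p ∈ J n 2 := by
      rw [h1]
      apply mem_J_two
      · rw [map_sum]
        refine Finset.sum_eq_zero fun i _ => ?_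
        rw [← coeff_zero_eq_constantCoeff_apply, map_smul, hw0, map_smul, map_add,
          coeff_zero_eq_constantCoeff_apply, coeff_zero_eq_constantCoeff_apply, u⁻¹.const,
          constantCoeff_X, add_zero, smul_zero, smul_zero]
      · intro j
        rw [map_sum]
        have h3 := congrFun hx j
        rw [Matrix.vecMul, dotProduct, Pi.zero_apply] at h3
        have h4 : ∀ i ∈ Finset.univ, coeff (single j 1) ((2 * x i) • w0 i) =
            2 * (x i * lin w0 i j) := by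
          intro i _
          rw [map_smul, smul_eq_mul, mul_assoc]
          rfl
        rw [Finset.sum_congr rfl h4, ← Finset.mul_sum, h3, mul_zero]
    have h3 := hu p h2
    apply hx0
    funext j
    have h4 := (mem_J_iff.1 h3) (single j 1) (by rw [degree_single]; norm_num)
    rw [hp, map_sum, Finset.sum_eq_single j] at h4
    · simpa using h4
    · intro b _ hb
      rw [map_smul, coeff_X, if_neg, smul_zero]
      intro h1
      exact hb (Finsupp.single_left_injective one_ne_zero h1).symm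
    · simp
  exact ⟨{ toFun := w0
           const := by
            intro i
            rw [hw0, ← coeff_zero_eq_constantCoeff_apply, map_smul, map_add,
              coeff_zero_eq_constantCoeff_apply, coeff_zero_eq_constantCoeff_apply, u⁻¹.const,
              constantCoeff_X, add_zero, smul_zero]
           det := hdet }, fun _ => rfl⟩

/-- the normal form of a reversible map -/
theorem pair_form {f h : FMap n} (N : ℕ) (hN : 0 < N) (hh : h ^ N = 1)
    (hrev : h * f * h⁻¹ = f⁻¹) : ∃ (g v K : FMap n) (γ : Fin n → ℂˣ), IsLin K ∧ K ^ N = 1 ∧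
      K * diag γ * K⁻¹ = (diag γ)⁻¹ ∧ v * diag γ = diag γ * v ∧ v * (K * K) = K * K * v ∧
      g * f * g⁻¹ = diag γ * (v * K * v⁻¹ * K⁻¹) := by
  obtain ⟨φ, γ, hφ⟩ := exists_semisimple f
  set s := φ⁻¹ * diag γ * φ with hs
  have hsf := semisimple_comm hφ
  have hsh := semisimple_rev hφ hrev
  have hu := noNeg_unipotent hφ
  -- first conjugation
  set h1 := φ * h * φ⁻¹ with hh1
  have h1N : h1 ^ N = 1 := by
    have := conj_pow (i := N) (a := φ) (b := h)
    rw [hh1, this, hh]; group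
  have h1s : h1 * diag γ * h1⁻¹ = (diag γ)⁻¹ := by
    have e : (diag γ : FMap n) = φ * s * φ⁻¹ := by rw [hs]; group
    rw [e, hh1]
    calc φ * h * φ⁻¹ * (φ * s * φ⁻¹) * (φ * h * φ⁻¹)⁻¹ = φ * (h * s * h⁻¹) * φ⁻¹ := by group
      _ = (φ * s * φ⁻¹)⁻¹ := by rw [hsh]; group
  obtain ⟨L, hL, hLh⟩ := exists_linMap h1
  have hLs : L * diag γ * L⁻¹ = (diag γ)⁻¹ := by
    apply ((hL.mul (isLin_diag γ)).mul hL.inv).ext (isLin_diag γ).inv
    have e1 : lin (L * diag γ * L⁻¹).toFun = lin (h1 * diag γ * h1⁻¹).toFun := by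
      have e2 : lin L⁻¹.toFun = lin h1⁻¹.toFun := by
        have e3 : lin (L⁻¹ * h1).toFun = 1 := by
          rw [lin_mul, ← hLh, ← lin_mul, inv_mul_cancel, lin_one]
        have e4 : lin (L⁻¹ * h1 * h1⁻¹).toFun = lin h1⁻¹.toFun := by
          rw [lin_mul, e3, one_mul]
        rw [← e4]; congr 2; group
      rw [lin_mul, lin_mul, lin_mul, lin_mul, hLh, e2]
    rw [e1, h1s]
  obtain ⟨hLN, w0, hw0, hw0s⟩ := average h1 L N hN h1N hL hLh
  have hws := hw0s (diag γ) (isLin_diag γ) h1s hLs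
  -- second conjugation
  set g0 := w0 * φ with hg0
  obtain ⟨F, hF⟩ : ∃ F, F = g0 * f * g0⁻¹ := ⟨_, rfl⟩
  have hgs : g0 * s * g0⁻¹ = diag γ := by
    rw [hg0, hs]
    calc w0 * φ * (φ⁻¹ * diag γ * φ) * (w0 * φ)⁻¹ = w0 * diag γ * w0⁻¹ := by group
      _ = diag γ := by rw [hws]; group
  have hgh : g0 * h * g0⁻¹ = L := by
    calc g0 * h * g0⁻¹ = w0 * h1 * w0⁻¹ := by rw [hg0, hh1]; group
      _ = L := by rw [hw0]; group
  obtain ⟨u, hudef⟩ : ∃ u, u = (diag γ)⁻¹ * F := ⟨_, rfl⟩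
  have hu1 : NoNeg u := by
    have e : u = g0 * (s⁻¹ * f) * g0⁻¹ := by
      rw [hudef, hF, ← hgs]; group
    rw [e]; exact hu.conj g0
  have hFrev : L * F * L⁻¹ = F⁻¹ := by
    rw [hF, ← hgh]
    calc g0 * h * g0⁻¹ * (g0 * f * g0⁻¹) * (g0 * h * g0⁻¹)⁻¹ = g0 * (h * f * h⁻¹) * g0⁻¹ := by group
      _ = (g0 * f * g0⁻¹)⁻¹ := by rw [hrev]; group
  have hFs : diag γ * F = F * diag γ := by
    rw [hF, ← hgs]
    calc g0 * s * g0⁻¹ * (g0 * f * g0⁻¹) = g0 * (s * f) * g0⁻¹ := by group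
      _ = g0 * f * g0⁻¹ * (g0 * s * g0⁻¹) := by rw [hsf]; group
  have hFu : F = diag γ * u := by rw [hudef]; group
  have hus : diag γ * u = u * diag γ := by
    rw [hudef]
    calc diag γ * ((diag γ)⁻¹ * F) = (diag γ)⁻¹ * (diag γ * F) := by group
      _ = (diag γ)⁻¹ * F * diag γ := by rw [hFs, mul_assoc]
  have hLu : L * u * L⁻¹ = u⁻¹ := by
    have e1 : L * F * L⁻¹ = (L * diag γ * L⁻¹) * (L * u * L⁻¹) := by rw [hFu]; group
    rw [hFrev, hLs, hFu] at e1
    have e2 : L * u * L⁻¹ = diag γ * (diag γ * u)⁻¹ := by rw [e1]; group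
    rw [e2, hus]; group
  obtain ⟨w, hw⟩ := half u hu1
  have huc : ∀ t : FMap n, IsLin t → t * u = u * t → w * t = t * w := by
    intro t ht htu
    apply FMap.ext'
    intro i
    rw [mul_comb _ _ _ w t hw, ht.comb _ _ _ w hw, Fin.sum_univ_two, Fin.sum_univ_two]
    have e1 : u⁻¹ * t = t * u⁻¹ := by
      rw [inv_mul_eq_iff_eq_mul, ← mul_assoc, ← htu]; group
    have e2 : (![1, u⁻¹] : Fin 2 → FMap n) 0 = 1 := rfl
    have e3 : (![1, u⁻¹] : Fin 2 → FMap n) 1 = u⁻¹ := rfl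
    rw [e2, e3, one_mul, mul_one, e1]
  have hwC : w * (diag γ * u * L⁻¹) = diag γ * L⁻¹ * w := by
    apply FMap.ext'
    intro i
    rw [mul_comb _ _ _ w _ hw, ((isLin_diag γ).mul hL.inv).comb _ _ _ w hw, Fin.sum_univ_two,
      Fin.sum_univ_two]
    have e2 : (![1, u⁻¹] : Fin 2 → FMap n) 0 = 1 := rfl
    have e3 : (![1, u⁻¹] : Fin 2 → FMap n) 1 = u⁻¹ := rfl
    have e4 : u⁻¹ * (diag γ * u * L⁻¹) = diag γ * L⁻¹ := by
      rw [hus]; group
    have e5 : diag γ * L⁻¹ * u⁻¹ = diag γ * u * L⁻¹ := by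
      rw [← hLu]; group
    rw [e2, e3, one_mul, mul_one, e4, e5, add_comm]
  have hws' : w * diag γ = diag γ * w := huc _ (isLin_diag γ) hus
  have hwL : w * (L⁻¹ * L⁻¹) = L⁻¹ * L⁻¹ * w := by
    apply huc _ (hL.inv.mul hL.inv)
    have e1 : L * (L * u * L⁻¹) * L⁻¹ = u := by
      rw [hLu]
      have := congrArg (·⁻¹) hLu
      simp only [mul_inv_rev, inv_inv] at this
      rw [← mul_assoc] at this
      exact this
    calc L⁻¹ * L⁻¹ * u = L⁻¹ * L⁻¹ * (L * (L * u * L⁻¹) * L⁻¹) := by rw [e1]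
      _ = u * (L⁻¹ * L⁻¹) := by group
  refine ⟨g0, w⁻¹, L⁻¹, γ, hL.inv, ?_, ?_, ?_, ?_, ?_⟩
  · rw [inv_pow, hLN, inv_one]
  · rw [inv_inv]
    have := congrArg (·⁻¹) hLs
    simp only [mul_inv_rev, inv_inv] at this
    calc L⁻¹ * diag γ * L = L⁻¹ * (L * ((diag γ)⁻¹ * L⁻¹)) * L := by rw [this]
      _ = (diag γ)⁻¹ := by group
  · rw [inv_mul_eq_iff_eq_mul, ← mul_assoc, hws']; group
  · rw [inv_mul_eq_iff_eq_mul, ← mul_assoc, hwL]; group
  · rw [← hF]
    have e1 : diag γ * u * L⁻¹ = w⁻¹ * (diag γ * L⁻¹ * w) := by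
      rw [← hwC]; group
    have e2 : F = w⁻¹ * diag γ * L⁻¹ * w * L := by
      rw [hFu]
      calc diag γ * u = diag γ * u * L⁻¹ * L := by group
        _ = w⁻¹ * diag γ * L⁻¹ * w * L := by rw [e1]; group
    have e3 : w⁻¹ * diag γ = diag γ * w⁻¹ := by
      rw [inv_mul_eq_iff_eq_mul, ← mul_assoc, hws']; group
    rw [e2, e3]; group

/-- the converse -/
theorem reversible_of_pair {G : Type*} [Group G] {s v K : G} (h1 : K * s * K⁻¹ = s⁻¹)
    (h2 : v * s = s * v) (h3 : v * (K * K) = K * K * v) :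
    K * (s * (v * K * v⁻¹ * K⁻¹)) * K⁻¹ = (s * (v * K * v⁻¹ * K⁻¹))⁻¹ := by
  have e1 : K * (s * (v * K * v⁻¹ * K⁻¹)) * K⁻¹ =
      (K * s * K⁻¹) * (K * v * K * v⁻¹ * (K * K)⁻¹) := by group
  have e2 : v⁻¹ * (K * K)⁻¹ = (K * K)⁻¹ * v⁻¹ := by
    rw [← mul_inv_rev, ← mul_inv_rev, h3]
  have e3 : K * v * K * v⁻¹ * (K * K)⁻¹ = K * v * K⁻¹ * v⁻¹ := by
    calc K * v * K * v⁻¹ * (K * K)⁻¹ = K * v * K * (v⁻¹ * (K * K)⁻¹) := by group
      _ = K * v * K⁻¹ * v⁻¹ := by rw [e2]; group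
  have e4 : K * v * K⁻¹ * s = s * (K * v * K⁻¹) := by
    have h4 : K⁻¹ * s * K = s⁻¹ := by
      have := congrArg (·⁻¹) h1
      simp only [mul_inv_rev, inv_inv] at this
      calc K⁻¹ * s * K = K⁻¹ * (K * (s⁻¹ * K⁻¹)) * K := by rw [this]
        _ = s⁻¹ := by group
    have h5 : K⁻¹ * s = s⁻¹ * K⁻¹ := by rw [← h4]; group
    have h6 : v * s⁻¹ = s⁻¹ * v := by
      rw [eq_inv_mul_iff_mul_eq, ← mul_assoc, ← h2]; group
    have h7 : K * s⁻¹ = s * K := by
      have := congrArg (·⁻¹) h1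
      simp only [mul_inv_rev, inv_inv] at this
      calc K * s⁻¹ = K * (s⁻¹ * K⁻¹) * K := by group
        _ = s * K := by rw [this]
    calc K * v * K⁻¹ * s = K * v * (K⁻¹ * s) := by group
      _ = K * (v * s⁻¹) * K⁻¹ := by rw [h5]; group
      _ = (K * s⁻¹) * v * K⁻¹ := by rw [h6]; group
      _ = s * (K * v * K⁻¹) := by rw [h7]; group
  have e5 : v⁻¹ * s = s * v⁻¹ := by
    rw [inv_mul_eq_iff_eq_mul, ← mul_assoc, h2]; group
  rw [e1, h1, e3, mul_inv_rev, mul_inv_rev, mul_inv_rev, mul_inv_rev, inv_inv, inv_inv]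
  have e6 : K * v * K⁻¹ * v⁻¹ * s = s * (K * v * K⁻¹ * v⁻¹) := by
    calc K * v * K⁻¹ * v⁻¹ * s = K * v * K⁻¹ * (v⁻¹ * s) := by group
      _ = (K * v * K⁻¹ * s) * v⁻¹ := by rw [e5]; group
      _ = s * (K * v * K⁻¹ * v⁻¹) := by rw [e4]; group
  rw [inv_mul_eq_iff_eq_mul]
  calc K * v * K⁻¹ * v⁻¹ = s⁻¹ * (s * (K * v * K⁻¹ * v⁻¹)) := by group
    _ = s⁻¹ * (K * v * K⁻¹ * v⁻¹ * s) := by rw [e6]
    _ = s * (K * (v * (K⁻¹ * v⁻¹)) * s⁻¹) := by
      have e7 : K * v * K⁻¹ * v⁻¹ * s⁻¹ = s⁻¹ * (K * v * K⁻¹ * v⁻¹) := by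
        rw [eq_inv_mul_iff_mul_eq, ← mul_assoc, ← e6]; group
      calc s⁻¹ * (K * v * K⁻¹ * v⁻¹ * s) = s⁻¹ * (s * (K * v * K⁻¹ * v⁻¹)) := by rw [e6]
        _ = s * (s⁻¹ * (K * v * K⁻¹ * v⁻¹)) := by group
        _ = s * (K * (v * (K⁻¹ * v⁻¹)) * s⁻¹) := by rw [← e7]; group

end Pool.Agent.Lib_helper12.FormalMaps
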