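import Mathlib
import Pool.Agent.Lib_helper12.NormalForm
import Pool.Agent.Lib_helper12.Jets
import Pool.Agent.Lib_helper12.PairForm

/-!
# Reversible formally invertible maps over `ℂ` in `n` variables: equivalent conditions
-/

namespace Pool.Agent.Lib_helper12.RevGeneral

open Pool.Agent.Lib_helper12.FormalMaps MvPowerSeries

variable {n : ℕ}

/-- `f` is reversible: some `h` in the group satisfies `h ∘ f ∘ h⁻¹ = f⁻¹`. -/
def IsReversible (f : FMap n) : Prop := ∃ h : FMap n, h * f * h⁻¹ = f⁻¹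

theorem conj_reverse {G : Type*} [Group G] {f D φ : G}
    (h : (φ⁻¹ * D * φ) * f * (φ⁻¹ * D * φ)⁻¹ = f⁻¹) :
    D * (φ * f * φ⁻¹) * D⁻¹ = (φ * f * φ⁻¹)⁻¹ := by
  calc D * (φ * f * φ⁻¹) * D⁻¹ = φ * ((φ⁻¹ * D * φ) * f * (φ⁻¹ * D * φ)⁻¹) * φ⁻¹ := by group
    _ = (φ * f * φ⁻¹)⁻¹ := by rw [h]; group

theorem reverse_of_conj {G : Type*} [Group G] {f D φ : G}
    (h : D * (φ * f * φ⁻¹) * D⁻¹ = (φ * f * φ⁻¹)⁻¹) :
    (φ⁻¹ * D * φ) * f * (φ⁻¹ * D * φ)⁻¹ = f⁻¹ := by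
  calc (φ⁻¹ * D * φ) * f * (φ⁻¹ * D * φ)⁻¹ = φ⁻¹ * (D * (φ * f * φ⁻¹) * D⁻¹) * φ := by group
    _ = f⁻¹ := by rw [h]; group

/-- if `D g D⁻¹ = g⁻¹` then `(g D⁻¹)² = (D²)⁻¹` -/
theorem sq_of_reverse {G : Type*} [Group G] {g D : G} (h : D * g * D⁻¹ = g⁻¹) :
    (g * D⁻¹) ^ 2 = (D ^ 2)⁻¹ := by
  have h1 : D * g = g⁻¹ * D := by rw [← h]; group
  have h2 : g * D * g = D := by rw [mul_assoc, h1]; group
  have h3 : D⁻¹ * g * D⁻¹ * g * D⁻¹ = D⁻¹ * D⁻¹ * D⁻¹ := by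
    have h4 : D⁻¹ * g = g⁻¹ * D⁻¹ := by
      have : g⁻¹ * D⁻¹ * g⁻¹ = D⁻¹ := by
        have := congrArg (·⁻¹) h2
        simp only [mul_inv_rev] at this
        rw [← mul_assoc] at this
        exact this
      calc D⁻¹ * g = (g⁻¹ * D⁻¹ * g⁻¹) * g := by rw [this]
        _ = g⁻¹ * D⁻¹ := by group
    calc D⁻¹ * g * D⁻¹ * g * D⁻¹ = D⁻¹ * g * (D⁻¹ * g) * D⁻¹ := by group
      _ = D⁻¹ * g * (g⁻¹ * D⁻¹) * D⁻¹ := by rw [h4]
      _ = D⁻¹ * D⁻¹ * D⁻¹ := by group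
  calc (g * D⁻¹) ^ 2 = D * (D⁻¹ * g * D⁻¹ * g * D⁻¹) := by rw [pow_two]; group
    _ = (D ^ 2)⁻¹ := by rw [h3, pow_two]; group

theorem reverse_of_sq {G : Type*} [Group G] {A B : G} (h : A ^ 2 * B ^ 2 = 1) :
    B * (A * B) * B⁻¹ = (A * B)⁻¹ := by
  have h1 : A * A * B * B = 1 := by
    rw [← h, pow_two, pow_two]; group
  have h2 : A = A⁻¹ * B⁻¹ * B⁻¹ := by
    calc A = A⁻¹ * (A * A * B * B) * B⁻¹ * B⁻¹ := by group
      _ = A⁻¹ * B⁻¹ * B⁻¹ := by rw [h1]; group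
  have h3 : B * A = B⁻¹ * A⁻¹ := by
    -- conjugate the relation
    have h4 : A * A * (B * B) = 1 := by rw [← h1]; group
    have h5 : B * B = (A * A)⁻¹ := eq_inv_of_mul_eq_one_right h4
    calc B * A = B⁻¹ * (B * B) * A := by group
      _ = B⁻¹ * A⁻¹ := by rw [h5]; group
  calc B * (A * B) * B⁻¹ = B * A := by group
    _ = (A * B)⁻¹ := by rw [h3]; group

/-- **Characterisation of the reversible elements.** For a formally invertible map `f` over `ℂ`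
in `n` variables the following are equivalent:
1. `f` is reversible;
2. `f` is reversed by an element of finite order, the order being a power of two;
3. some conjugate of `f` is reversed by a diagonal linear map whose entries are roots of unity
   of 2-power order;
4. `f` is conjugate to `A ∘ θ⁻¹ ∘ B ∘ θ` for diagonal linear maps `A = (a_i X_i)`,
   `B = (b_i X_i)` with entries roots of unity of 2-power order and a formally invertible `θ`
   whose `i`-th component only involves monomials `X^d` with `a^(2d) b_i^2 = 1`;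
5. `f` is conjugate to `s ∘ v ∘ K ∘ v⁻¹ ∘ K⁻¹` with a diagonal linear map `s`, a linear map `K` with
   `K^(2^k) = 1` for some `k` and `K s K⁻¹ = s⁻¹`, and a formally invertible `v` which commutes with
   `s` and with `K²`;
6. for every `k` the `k`-jet of `f` is reversible. -/
theorem general (n : ℕ) (f : FMap n) : List.TFAE [
    IsReversible f,
    ∃ h : FMap n, h * f * h⁻¹ = f⁻¹ ∧ ∃ k : ℕ, h ^ 2 ^ k = 1,
    ∃ (g : FMap n) (a : Fin n → ℂˣ), (∃ k : ℕ, ∀ i, a i ^ 2 ^ k = 1) ∧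
      diag a * (g * f * g⁻¹) * (diag a)⁻¹ = (g * f * g⁻¹)⁻¹,
    ∃ (g θ : FMap n) (a b : Fin n → ℂˣ), (∃ k : ℕ, ∀ i, a i ^ 2 ^ k = 1 ∧ b i ^ 2 ^ k = 1) ∧
      (∀ (i : Fin n) (d : Fin n →₀ ℕ), coeff d (θ.toFun i) ≠ 0 →
        (∏ j, a j ^ (2 * d j)) * b i ^ 2 = 1) ∧
      g * f * g⁻¹ = diag a * (θ⁻¹ * diag b * θ),
    ∃ (g v K : FMap n) (γ : Fin n → ℂˣ),
      (∃ M : Matrix (Fin n) (Fin n) ℂ, ∀ i, K.toFun i = ∑ j, M i j • (X j : MvPowerSeries (Fin n) ℂ)) ∧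
      (∃ k : ℕ, K ^ 2 ^ k = 1) ∧ K * diag γ * K⁻¹ = (diag γ)⁻¹ ∧
      v * diag γ = diag γ * v ∧ v * K ^ 2 = K ^ 2 * v ∧
      g * f * g⁻¹ = diag γ * (v * K * v⁻¹ * K⁻¹),
    ∀ k : ℕ, ∃ h : FMap n, ∀ (i : Fin n) (d : Fin n →₀ ℕ), Finsupp.degree d ≤ k →
      coeff d ((h * f).toFun i) = coeff d ((f⁻¹ * h).toFun i)] := by
  tfae_have 1 → 3 := by
    rintro ⟨h, hrev⟩
    obtain ⟨φ, a, hk, hφ⟩ := reverser hrev
    exact ⟨φ, a, hk, conj_reverse hφ⟩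
  tfae_have 3 → 2 := by
    rintro ⟨g, a, ⟨k, hk⟩, h⟩
    refine ⟨g⁻¹ * diag a * g, reverse_of_conj h, k, ?_⟩
    have h4 := conj_pow (i := 2 ^ k) (a := g⁻¹) (b := diag a)
    rw [inv_inv] at h4
    have h5 : a ^ 2 ^ k = 1 := by
      funext i; exact hk i
    rw [h4, diag_pow, h5, diag_one]
    group
  tfae_have 2 → 1 := by
    rintro ⟨h, hrev, -⟩
    exact ⟨h, hrev⟩
  tfae_have 3 → 4 := by
    rintro ⟨g, b, ⟨k, hk⟩, h⟩
    set f' := g * f * g⁻¹ with hf'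
    have hsq := sq_of_reverse h
    have hb : (b : Fin n → ℂˣ) ^ 2 ^ k = 1 := by
      funext i; exact hk i
    have hord : (f' * (diag b)⁻¹) ^ 2 ^ (k + 1) = 1 := by
      rw [pow_succ', pow_mul, hsq, inv_pow, ← pow_mul, mul_comm 2, pow_mul, diag_pow, hb, diag_one,
        one_pow, inv_one]
    obtain ⟨ψ, z, hz, hψ⟩ := linearise _ _ (by positivity) hord
    refine ⟨ψ * g, ψ⁻¹, z, b, ⟨k + 1, fun i => ⟨hz i, ?_⟩⟩, ?_, ?_⟩
    · rw [pow_succ, pow_mul, hk i, one_pow]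
    · have h1 : ψ⁻¹ * diag (z ^ 2) = diag ((b ^ 2)⁻¹) * ψ⁻¹ := by
        rw [← diag_inv, ← diag_pow, ← diag_pow, ← hsq, hψ, pow_two, pow_two]
        group
      rw [commute_iff] at h1
      intro i d hd
      have h2 := h1 i d hd
      have h3 : ∏ j, z j ^ (2 * d j) = (b i ^ 2)⁻¹ := by
        rw [← Pi.pow_apply, ← Pi.inv_apply, ← h2]
        refine Finset.prod_congr rfl fun j _ => ?_
        rw [pow_mul, Pi.pow_apply]
      rw [h3]
      group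
    · have h1 : ψ * g * f * (ψ * g)⁻¹ = ψ * f' * ψ⁻¹ := by rw [hf']; group
      have h2 : f' = ψ⁻¹ * diag z * ψ * diag b := by rw [← hψ]; group
      rw [h1, h2, inv_inv]
      group
  tfae_have 4 → 1 := by
    rintro ⟨g, θ, a, b, -, hθ, h⟩
    have h1 : θ * diag (a ^ 2) = diag ((b ^ 2)⁻¹) * θ := by
      rw [commute_iff]
      intro i d hd
      have h2 := hθ i d hd
      rw [Pi.inv_apply, Pi.pow_apply]
      rw [← mul_eq_one_iff_eq_inv, ← h2]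
      congr 1
      refine Finset.prod_congr rfl fun j _ => ?_
      rw [pow_mul, Pi.pow_apply]
    rw [← diag_inv, ← diag_pow, ← diag_pow] at h1
    have h2 : (diag a) ^ 2 * (θ⁻¹ * diag b * θ) ^ 2 = (1 : FMap n) := by
      calc (diag a) ^ 2 * (θ⁻¹ * diag b * θ) ^ 2 = θ⁻¹ * (θ * (diag a) ^ 2) * θ⁻¹ * (diag b) ^ 2 * θ := by
            rw [pow_two, pow_two, pow_two]; group
        _ = 1 := by rw [h1]; group
    have h3 := reverse_of_sq h2
    rw [← h] at h3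
    exact ⟨g⁻¹ * (θ⁻¹ * diag b * θ) * g, reverse_of_conj h3⟩
  tfae_have 2 → 5 := by
    rintro ⟨h, hrev, k, hk⟩
    obtain ⟨g, v, K, γ, h1, h2, h3, h4, h5, h6⟩ := pair_form (2 ^ k) (by positivity) hk hrev
    exact ⟨g, v, K, γ, h1, ⟨k, h2⟩, h3, h4, by rw [pow_two]; exact h5, h6⟩
  tfae_have 5 → 1 := by
    rintro ⟨g, v, K, γ, -, -, h3, h4, h5, h6⟩
    rw [pow_two] at h5
    have h7 := reversible_of_pair h3 h4 h5
    rw [← h6] at h7
    exact ⟨g⁻¹ * K * g, reverse_of_conj h7⟩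
  tfae_have 1 → 6 := by
    rintro ⟨h, hrev⟩ k
    refine ⟨h, fun i d _ => ?_⟩
    rw [← hrev]
    congr 2
    group
  tfae_have 6 → 1 := by
    intro hk
    obtain ⟨h, hh⟩ := conj_of_jets (f := f) (g := f⁻¹) (by
      intro k
      obtain ⟨h, hh⟩ := hk k
      refine ⟨h, fun i => ?_⟩
      rw [mem_J_iff]
      intro d hd
      rw [map_sub, sub_eq_zero]
      exact hh i d hd.le)
    exact ⟨h, by rw [hh]; group⟩
  tfae_finish

end Pool.Agent.Lib_helper12.RevGeneral
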