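import Mathlib
import Pool.Agent.Lib_helper12.PairForm

/-!
# The list of the reversible maps in two variables
-/

namespace Pool.Agent.Lib_helper12.FormalMaps

open MvPowerSeries Finsupp

theorem lin_diag {n : ℕ} (a : Fin n → ℂˣ) :
    lin (diag a).toFun = Matrix.diagonal (fun i => (a i : ℂ)) := by
  ext i j
  show coeff (single j 1) ((a i : ℂ) • (X i : Ser n)) = _
  rw [map_smul, coeff_X, Matrix.diagonal_apply]
  by_cases h : i = j
  · subst h; simp
  · rw [if_neg h, if_neg, smul_zero]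
    intro h1
    exact h (Finsupp.single_left_injective one_ne_zero h1).symm

/-- `(c Y, c X)` -/
noncomputable def swapMap (c : ℂˣ) : FMap 2 where
  toFun := ![(c : ℂ) • X 1, (c : ℂ) • X 0]
  const := by
    intro i
    fin_cases i <;> simp
  det := by
    have h : lin ![(c : ℂ) • (X 1 : Ser 2), (c : ℂ) • (X 0 : Ser 2)] = !![0, (c : ℂ); (c : ℂ), 0] := by
      have h01 : (single (0 : Fin 2) 1 : Fin 2 →₀ ℕ) ≠ single 1 1 := by
        intro h
        exact absurd (Finsupp.single_left_injective one_ne_zero h) (by decide)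
      ext i j
      fin_cases i <;> fin_cases j <;> simp [lin, coeff_X, h01, h01.symm]
    rw [h, Matrix.det_fin_two_of]
    simp

theorem isLin_swapMap (c : ℂˣ) : IsLin (swapMap c) := by
  refine ⟨!![0, (c : ℂ); (c : ℂ), 0], fun i => ?_⟩
  fin_cases i <;> simp [swapMap, Fin.sum_univ_two]

theorem swapMap_sq (c : ℂˣ) : swapMap c * swapMap c = diag (fun _ => c ^ 2) := by
  apply FMap.ext'
  intro i
  have h : ∀ i, (swapMap c).toFun i = ∑ k, (!![0, (c : ℂ); (c : ℂ), 0] : Matrix _ _ ℂ) i k •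
      (X k : Ser 2) := by
    intro i
    fin_cases i <;> simp [swapMap, Fin.sum_univ_two]
  rw [lin_mul_toFun h]
  fin_cases i <;> simp [swapMap, Fin.sum_univ_two, diag, smul_smul, pow_two]

theorem swapMap_diag (c : ℂˣ) (a : Fin 2 → ℂˣ) :
    swapMap c * diag a = diag ![a 1, a 0] * swapMap c := by
  apply FMap.ext'
  intro i
  have h : ∀ i, (swapMap c).toFun i = ∑ k, (!![0, (c : ℂ); (c : ℂ), 0] : Matrix _ _ ℂ) i k •
      (X k : Ser 2) := by
    intro i
    fin_cases i <;> simp [swapMap, Fin.sum_univ_two]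
  rw [lin_mul_toFun h, diag_mul_toFun]
  fin_cases i <;> simp [swapMap, Fin.sum_univ_two, diag, smul_smul, mul_comm]

/-- the first family -/
def FormI (f : FMap 2) : Prop :=
  ∃ (g v : FMap 2) (ε a : Fin 2 → ℂˣ), (∀ i, ε i ^ 2 = 1) ∧ (∃ k : ℕ, ∀ i, a i ^ 2 ^ k = 1) ∧
    v * diag ε = diag ε * v ∧ v * diag (a ^ 2) = diag (a ^ 2) * v ∧
    g * f * g⁻¹ = diag ε * (v * diag a * v⁻¹ * (diag a)⁻¹)

/-- the second family -/
def FormII (f : FMap 2) : Prop :=
  ∃ (g v : FMap 2) (μ c : ℂˣ), μ ^ 2 ≠ 1 ∧ (∃ k : ℕ, c ^ 2 ^ k = 1) ∧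
    v * diag ![μ, μ⁻¹] = diag ![μ, μ⁻¹] * v ∧
    v * diag (fun _ => c ^ 2) = diag (fun _ => c ^ 2) * v ∧
    g * f * g⁻¹ = diag ![μ, μ⁻¹] * (v * swapMap c * v⁻¹ * (swapMap c)⁻¹)

theorem formI_rev {f : FMap 2} (hf : FormI f) : ∃ h : FMap 2, h * f * h⁻¹ = f⁻¹ := by
  obtain ⟨g, v, ε, a, hε, -, h1, h2, h3⟩ := hf
  have e1 : diag a * diag ε * (diag a)⁻¹ = (diag ε : FMap 2)⁻¹ := by
    rw [diag_inv, diag_inv, diag_mul, diag_mul]
    congr 1
    funext i
    rw [Pi.mul_apply, Pi.mul_apply, Pi.inv_apply, Pi.inv_apply, mul_comm (a i), mul_assoc,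
      mul_inv_cancel, mul_one]
    exact eq_inv_of_mul_eq_one_left (by rw [← pow_two]; exact hε i)
  have e2 : v * (diag a * diag a) = diag a * diag a * v := by
    rw [← pow_two, diag_pow]; exact h2
  have e3 := reversible_of_pair e1 h1 e2
  rw [← h3] at e3
  refine ⟨g⁻¹ * diag a * g, ?_⟩
  calc g⁻¹ * diag a * g * f * (g⁻¹ * diag a * g)⁻¹ =
      g⁻¹ * (diag a * (g * f * g⁻¹) * (diag a)⁻¹) * g := by group
    _ = f⁻¹ := by rw [e3]; group

theorem formII_rev {f : FMap 2} (hf : FormII f) : ∃ h : FMap 2, h * f * h⁻¹ = f⁻¹ := by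
  obtain ⟨g, v, μ, c, hμ, -, h1, h2, h3⟩ := hf
  have e1 : swapMap c * diag ![μ, μ⁻¹] * (swapMap c)⁻¹ = (diag ![μ, μ⁻¹] : FMap 2)⁻¹ := by
    rw [swapMap_diag, diag_inv]
    have : (![(![μ, μ⁻¹] : Fin 2 → ℂˣ) 1, (![μ, μ⁻¹] : Fin 2 → ℂˣ) 0] : Fin 2 → ℂˣ) =
        (![μ, μ⁻¹])⁻¹ := by
      funext i
      fin_cases i <;> simp
    rw [this]; group
  have e2 : v * (swapMap c * swapMap c) = swapMap c * swapMap c * v := by
    rw [swapMap_sq]; exact h2
  have e3 := reversible_of_pair e1 h1 e2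
  rw [← h3] at e3
  refine ⟨g⁻¹ * swapMap c * g, ?_⟩
  calc g⁻¹ * swapMap c * g * f * (g⁻¹ * swapMap c * g)⁻¹ =
      g⁻¹ * (swapMap c * (g * f * g⁻¹) * (swapMap c)⁻¹) * g := by group
    _ = f⁻¹ := by rw [e3]; group

theorem form_of_reversible {f : FMap 2} (hf : ∃ h : FMap 2, h * f * h⁻¹ = f⁻¹) :
    FormI f ∨ FormII f := by
  obtain ⟨h0, hrev0⟩ := hf
  obtain ⟨φ, a0, ⟨k, hk⟩, hφ⟩ := reverser hrev0
  set h := φ⁻¹ * diag a0 * φ with hh
  have hN : h ^ 2 ^ k = 1 := by
    have h4 := conj_pow (i := 2 ^ k) (a := φ⁻¹) (b := diag a0)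
    rw [inv_inv] at h4
    have h5 : a0 ^ 2 ^ k = 1 := by
      funext i; exact hk i
    rw [hh, h4, diag_pow, h5, diag_one]
    group
  obtain ⟨g, v, K, γ, hK, hKN, hKs, hvs, hvK, hgf⟩ := pair_form (2 ^ k) (by positivity) hN hφ
  -- the matrix of `K`
  have hKs' : K * diag γ = diag γ⁻¹ * K := by
    rw [← diag_inv, ← hKs]; group
  have hM : ∀ i j, lin K.toFun i j ≠ 0 → γ i * γ j = 1 := by
    intro i j hij
    have h1 : lin (K * diag γ).toFun i j = lin (diag γ⁻¹ * K).toFun i j := by rw [hKs']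
    rw [lin_mul, lin_mul, lin_diag, lin_diag, Matrix.mul_diagonal, Matrix.diagonal_mul] at h1
    rw [mul_comm] at h1
    have h2 := mul_right_cancel₀ hij h1
    ext
    rw [Units.val_mul, h2, Pi.inv_apply, Units.val_one, Units.mul_inv]
  have hdet := K.det
  rw [Matrix.det_fin_two] at hdet
  by_cases hγ : γ 0 ^ 2 = 1 ∧ γ 1 ^ 2 = 1
  · left
    by_cases h01 : γ 0 = γ 1
    · -- scalar semisimple part
      obtain ⟨ψ, z, hz, hψ⟩ := linearise K (2 ^ k) (by positivity) hKN
      obtain ⟨P, hP, hPψ⟩ := exists_linMap ψ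
      have hPK : P * K = diag z * P := by
        apply (hP.mul hK).ext ((isLin_diag z).mul hP)
        have e1 : ψ * K = diag z * ψ := by rw [hψ]; group
        rw [lin_mul, lin_mul, hPψ, ← lin_mul, ← lin_mul, e1]
      have hPs : P * diag γ = diag γ * P := by
        apply (hP.mul (isLin_diag γ)).ext ((isLin_diag γ).mul hP)
        rw [lin_mul, lin_mul, lin_diag]
        ext i j
        rw [Matrix.mul_diagonal, Matrix.diagonal_mul, mul_comm]
        congr 1
        fin_cases i <;> fin_cases j <;> simp [h01]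
      refine ⟨P * g, P * v * P⁻¹, γ, z, ?_, ⟨k, hz⟩, ?_, ?_, ?_⟩
      · intro i
        fin_cases i
        · exact hγ.1
        · exact hγ.2
      · have e1 : P⁻¹ * diag γ = diag γ * P⁻¹ := by
          rw [inv_mul_eq_iff_eq_mul, ← mul_assoc, hPs]; group
        calc P * v * P⁻¹ * diag γ = P * v * (P⁻¹ * diag γ) := by group
          _ = P * (v * diag γ) * P⁻¹ := by rw [e1]; group
          _ = (P * diag γ) * v * P⁻¹ := by rw [hvs]; group
          _ = diag γ * (P * v * P⁻¹) := by rw [hPs]; group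
      · have e1 : diag (z ^ 2) = P * (K * K) * P⁻¹ := by
          rw [← diag_pow, pow_two]
          have e2 : diag z = P * K * P⁻¹ := by rw [hPK]; group
          rw [e2]; group
        rw [e1]
        calc P * v * P⁻¹ * (P * (K * K) * P⁻¹) = P * (v * (K * K)) * P⁻¹ := by group
          _ = P * (K * K) * P⁻¹ * (P * v * P⁻¹) := by rw [hvK]; group
      · have e2 : diag z = P * K * P⁻¹ := by rw [hPK]; group
        have e3 : P * diag γ * P⁻¹ = diag γ := by rw [hPs]; group
        calc P * g * f * (P * g)⁻¹ = P * (g * f * g⁻¹) * P⁻¹ := by group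
          _ = (P * diag γ * P⁻¹) * (P * v * K * v⁻¹ * K⁻¹ * P⁻¹) := by rw [hgf]; group
          _ = diag γ * (P * v * K * v⁻¹ * K⁻¹ * P⁻¹) := by rw [e3]
          _ = diag γ * (P * v * P⁻¹ * diag z * (P * v * P⁻¹)⁻¹ * (diag z)⁻¹) := by
            rw [e2]; group
    · -- `K` is diagonal
      have hne : γ 0 * γ 1 ≠ 1 := by
        intro h1
        apply h01
        have h2 : γ 1 * γ 1 = 1 := by rw [← pow_two]; exact hγ.2
        exact mul_right_cancel (h1.trans h2.symm)
      have hM01 : lin K.toFun 0 1 = 0 := by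
        by_contra h1; exact hne (hM 0 1 h1)
      have hM10 : lin K.toFun 1 0 = 0 := by
        by_contra h1; exact hne (by rw [mul_comm]; exact hM 1 0 h1)
      rw [hM01, zero_mul, sub_zero] at hdet
      have h00 : lin K.toFun 0 0 ≠ 0 := left_ne_zero_of_mul hdet
      have h11 : lin K.toFun 1 1 ≠ 0 := right_ne_zero_of_mul hdet
      let z : Fin 2 → ℂˣ := ![Units.mk0 _ h00, Units.mk0 _ h11]
      have hKz : K = diag z := by
        apply hK.ext (isLin_diag z)
        rw [lin_diag]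
        ext i j
        fin_cases i <;> fin_cases j <;> simp [z, hM01, hM10]
      rw [hKz] at hKN hvK hgf
      have hz : ∀ i, z i ^ 2 ^ k = 1 := by
        rw [diag_pow, ← diag_one] at hKN
        intro i
        exact congrFun (diag_injective hKN) i
      refine ⟨g, v, γ, z, ?_, ⟨k, hz⟩, hvs, ?_, hgf⟩
      · intro i
        fin_cases i
        · exact hγ.1
        · exact hγ.2
      · rw [← diag_pow, pow_two]; exact hvK
  · right
    have key : γ 0 ^ 2 ≠ 1 ∧ γ 0 * γ 1 = 1 ∧ lin K.toFun 0 0 = 0 ∧ lin K.toFun 1 1 = 0 ∧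
        lin K.toFun 0 1 ≠ 0 ∧ lin K.toFun 1 0 ≠ 0 := by
      have hsq : ∀ i, γ i ^ 2 ≠ 1 → lin K.toFun i i = 0 := by
        intro i hi
        by_contra h1
        exact hi (by rw [pow_two]; exact hM i i h1)
      have hinv : ∀ x y : ℂˣ, x * y = 1 → x ^ 2 = 1 → y ^ 2 = 1 := by
        intro x y h1 h2
        have h3 : (x * y) ^ 2 = 1 := by rw [h1, one_pow]
        rwa [mul_pow, h2, one_mul] at h3
      rcases not_and_or.1 hγ with h0 | h1
      · have h00 := hsq 0 h0
        rw [h00, zero_mul, zero_sub, neg_ne_zero] at hdet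
        have h01 := left_ne_zero_of_mul hdet
        have h10 := right_ne_zero_of_mul hdet
        have h2 := hM 0 1 h01
        refine ⟨h0, h2, h00, hsq 1 ?_, h01, h10⟩
        intro h3
        exact h0 (hinv (γ 1) (γ 0) (by rw [mul_comm]; exact h2) h3)
      · have h11 := hsq 1 h1
        rw [h11, mul_zero, zero_sub, neg_ne_zero] at hdet
        have h01 := left_ne_zero_of_mul hdet
        have h10 := right_ne_zero_of_mul hdet
        have h2 := hM 0 1 h01
        have h0 : γ 0 ^ 2 ≠ 1 := fun h3 => h1 (hinv (γ 0) (γ 1) h2 h3)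
        exact ⟨h0, h2, hsq 0 h0, h11, h01, h10⟩
    obtain ⟨h0, hγγ, h00, h11, h01, h10⟩ := key
    set β : ℂˣ := Units.mk0 _ h01 with hβ
    set δ : ℂˣ := Units.mk0 _ h10 with hδ
    obtain ⟨c0, hc0⟩ := IsAlgClosed.exists_pow_nat_eq ((β * δ : ℂˣ) : ℂ) (n := 2) (by norm_num)
    have hc0ne : c0 ≠ 0 := by
      intro h1
      rw [h1, zero_pow two_ne_zero] at hc0
      exact (β * δ).ne_zero hc0.symm
    set c : ℂˣ := Units.mk0 c0 hc0ne with hc
    have hcc : c ^ 2 = β * δ := by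
      ext
      rw [Units.val_pow_eq_pow_val]
      exact hc0
    have hK0 : K.toFun 0 = (β : ℂ) • (X 1 : Ser 2) := by
      rw [hK.eq, Fin.sum_univ_two, h00, zero_smul, zero_add]
      rfl
    have hK1 : K.toFun 1 = (δ : ℂ) • (X 0 : Ser 2) := by
      rw [hK.eq, Fin.sum_univ_two, h11, zero_smul, add_zero]
      rfl
    let D : Fin 2 → ℂˣ := ![c * β⁻¹, 1]
    have hDK : diag D * K = swapMap c * diag D := by
      rw [swapMap_diag]
      apply FMap.ext'
      intro i
      rw [diag_mul_toFun, diag_mul_toFun]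
      fin_cases i
      · show (D 0 : ℂ) • K.toFun 0 = ((D 1 : ℂˣ) : ℂ) • ((c : ℂ) • (X 1 : Ser 2))
        rw [hK0, smul_smul, smul_smul]
        congr 1
        show ((c * β⁻¹ : ℂˣ) : ℂ) * (β : ℂ) = ((1 : ℂˣ) : ℂ) * (c : ℂ)
        rw [← Units.val_mul, inv_mul_cancel_right, Units.val_one, one_mul]
      · show (D 1 : ℂ) • K.toFun 1 = ((D 0 : ℂˣ) : ℂ) • ((c : ℂ) • (X 0 : Ser 2))
        rw [hK1, smul_smul, smul_smul]
        congr 1
        show ((1 : ℂˣ) : ℂ) * (δ : ℂ) = ((c * β⁻¹ : ℂˣ) : ℂ) * (c : ℂ)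
        rw [← Units.val_mul, ← Units.val_mul]
        congr 1
        rw [one_mul, mul_right_comm, ← pow_two, hcc, mul_comm β δ, mul_assoc, mul_inv_cancel,
          mul_one]
    have hKK : diag D * (K * K) * (diag D)⁻¹ = diag (fun _ => c ^ 2) := by
      rw [← swapMap_sq]
      have e1 : swapMap c = diag D * K * (diag D)⁻¹ := by rw [hDK]; group
      rw [e1]; group
    have hγ' : γ = ![γ 0, (γ 0)⁻¹] := by
      funext i
      fin_cases i
      · rfl
      · show γ 1 = (γ 0)⁻¹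
        exact eq_inv_of_mul_eq_one_right hγγ
    have hDs : diag D * diag γ = diag γ * diag D := by
      rw [diag_mul, diag_mul, mul_comm]
    have hDs' : (diag D)⁻¹ * diag γ = diag γ * (diag D)⁻¹ := by
      rw [inv_mul_eq_iff_eq_mul, ← mul_assoc, hDs]; group
    refine ⟨diag D * g, diag D * v * (diag D)⁻¹, γ 0, c, h0, ⟨k + 1, ?_⟩, ?_, ?_, ?_⟩
    · have e1 : (diag (fun _ => c ^ 2) : FMap 2) ^ 2 ^ k = 1 := by
        rw [← hKK, conj_pow]
        have : (K * K) ^ 2 ^ k = 1 := by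
          rw [← pow_two, ← pow_mul, mul_comm, pow_mul, hKN, one_pow]
        rw [this]; group
      rw [diag_pow, ← diag_one] at e1
      have e2 := congrFun (diag_injective e1) 0
      rw [Pi.pow_apply, Pi.one_apply] at e2
      rw [pow_succ', pow_mul]
      exact e2
    · rw [← hγ']
      calc diag D * v * (diag D)⁻¹ * diag γ = diag D * v * ((diag D)⁻¹ * diag γ) := by group
        _ = diag D * (v * diag γ) * (diag D)⁻¹ := by rw [hDs']; group
        _ = (diag D * diag γ) * v * (diag D)⁻¹ := by rw [hvs]; group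
        _ = diag γ * (diag D * v * (diag D)⁻¹) := by rw [hDs]; group
    · rw [← hKK]
      calc diag D * v * (diag D)⁻¹ * (diag D * (K * K) * (diag D)⁻¹) =
          diag D * (v * (K * K)) * (diag D)⁻¹ := by group
        _ = diag D * (K * K) * (diag D)⁻¹ * (diag D * v * (diag D)⁻¹) := by rw [hvK]; group
    · rw [← hγ']
      have e1 : swapMap c = diag D * K * (diag D)⁻¹ := by rw [hDK]; group
      have e3 : diag D * diag γ * (diag D)⁻¹ = diag γ := by rw [hDs]; group
      calc diag D * g * f * (diag D * g)⁻¹ = diag D * (g * f * g⁻¹) * (diag D)⁻¹ := by group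
        _ = (diag D * diag γ * (diag D)⁻¹) * (diag D * v * K * v⁻¹ * K⁻¹ * (diag D)⁻¹) := by
          rw [hgf]; group
        _ = diag γ * (diag D * v * K * v⁻¹ * K⁻¹ * (diag D)⁻¹) := by rw [e3]
        _ = diag γ * (diag D * v * (diag D)⁻¹ * swapMap c * (diag D * v * (diag D)⁻¹)⁻¹ *
            (swapMap c)⁻¹) := by rw [e1]; group

end Pool.Agent.Lib_helper12.FormalMaps
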